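import Pool.Agent.FLX.Defs

namespace Pool.Agent.FLX

open Set Cardinal Pool.Agent.FLM

universe u w

variable {E : Type w}

/-- Valid lists. -/
structure BarxV (N : E → Set E) (F : Set E) (ν : E → E) (l : List E) : Prop where
  nodup : l.Nodup
  mem : ∀ x ∈ l, x ∈ F
  chain : l.IsChain (fun a b => ν a ∈ N b)

/-- The relation on lists. -/
def BarxR (N : E → Set E) (F : Set E) (ν : E → E) (l' l : List E) : Prop :=
  ∃ x, l' = x :: l ∧ BarxV N F ν l'

theorem barx_wf {N : E → Set E} {F : Set E} {ν : E → E}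
    (hray : ∀ s : ℕ → E, Function.Injective s → (∀ k, s k ∈ F) →
      (∀ k, ν (s (k + 1)) ∈ N (s k)) → False) : WellFounded (BarxR N F ν) := by
  rw [wellFounded_iff_isEmpty_descending_chain]
  refine ⟨fun ⟨f, hf⟩ => ?_⟩
  choose s hs hv using hf
  have hmem : ∀ i k, s i ∈ f (i + 1 + k) := by
    intro i k
    induction k with
    | zero =>
      rw [add_zero, hs i]
      exact List.mem_cons_self
    | succ k ih =>
      have h1 : i + 1 + (k + 1) = (i + 1 + k) + 1 := by ring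
      rw [h1, hs (i + 1 + k)]
      exact List.mem_cons_of_mem _ ih
  have hne : ∀ i j, i < j → s i ≠ s j := by
    intro i j hij heq
    obtain ⟨k, rfl⟩ := Nat.exists_eq_add_of_lt hij
    have h1 := (hv (i + k + 1)).nodup
    rw [hs (i + k + 1), List.nodup_cons] at h1
    apply h1.1
    have h2 := hmem i k
    have h3 : i + 1 + k = i + k + 1 := by ring
    rw [h3] at h2
    rw [← heq]
    exact h2
  apply hray s
  · intro i j hij
    by_contra hne'
    rcases Nat.lt_or_gt_of_ne hne' with h | h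
    · exact hne i j h hij
    · exact hne j i h hij.symm
  · intro k
    apply (hv k).mem
    rw [hs k]
    exact List.mem_cons_self
  · intro k
    have h1 := (hv (k + 1)).chain
    rw [hs (k + 1), hs k, List.isChain_cons_cons] at h1
    exact h1.1

theorem barx_ray {N : E → Set E} {F Q : Set E} {ν : E → E} (hν : Mat N F Q ν)
    (hc : Crit N F Q) (s : ℕ → E) (hs : Function.Injective s) (hF : ∀ k, s k ∈ F)
    (hN : ∀ k, ν (s (k + 1)) ∈ N (s k)) : False := by
  classical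
  let μ : E → E := fun x => if h : ∃ k, s k = x then ν (s (h.choose + 1)) else ν x
  have h1 : ∀ k, μ (s k) = ν (s (k + 1)) := by
    intro k
    have h : ∃ j, s j = s k := ⟨k, rfl⟩
    have h2 : h.choose = k := hs h.choose_spec
    simp only [μ, dif_pos h, h2]
  have h2 : ∀ x, (∀ k, s k ≠ x) → μ x = ν x := by
    intro x hx
    have h : ¬ ∃ k, s k = x := by
      rintro ⟨k, hk⟩
      exact hx k hk
    simp only [μ, dif_neg h]
  have hμ : Mat N F Q μ := by
    constructor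
    · intro x hx y hy hxy
      by_cases a : ∃ k, s k = x
      · obtain ⟨k, rfl⟩ := a
        rw [h1] at hxy
        by_cases b : ∃ j, s j = y
        · obtain ⟨j, rfl⟩ := b
          rw [h1] at hxy
          have := hs (hν.1 (hF _) (hF _) hxy)
          rw [Nat.add_right_cancel this]
        · rw [h2 y (fun k hk => b ⟨k, hk⟩)] at hxy
          exact absurd ⟨_, hν.1 (hF _) hy hxy⟩ b
      · rw [h2 x (fun k hk => a ⟨k, hk⟩)] at hxy
        by_cases b : ∃ j, s j = y
        · obtain ⟨j, rfl⟩ := b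
          rw [h1] at hxy
          exact absurd ⟨_, hν.1 (hF _) hx hxy.symm⟩ a
        · rw [h2 y (fun k hk => b ⟨k, hk⟩)] at hxy
          exact hν.1 hx hy hxy
    · intro x hx
      by_cases a : ∃ k, s k = x
      · obtain ⟨k, rfl⟩ := a
        rw [h1]
        exact ⟨hN k, (hν.2 _ (hF _)).2⟩
      · rw [h2 x (fun k hk => a ⟨k, hk⟩)]
        exact hν.2 x hx
  obtain ⟨x, hx, hxs⟩ := hc.2 μ hμ (s 0) (hF 0) (ν (s 0)) (hν.2 _ (hF 0)).1 (hν.2 _ (hF 0)).2
  by_cases a : ∃ k, s k = x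
  · obtain ⟨k, rfl⟩ := a
    rw [h1] at hxs
    have := hs (hν.1 (hF _) (hF _) hxs)
    omega
  · rw [h2 x (fun k hk => a ⟨k, hk⟩)] at hxs
    exact a ⟨0, (hν.1 hx (hF _) hxs).symm⟩

/-- The class of states belonging to a list. -/
structure BarxC (S : Sys E) (s : S.St) (F : Set E) (ν : E → E) (l : List E) (t : S.St) :
    Prop where
  le : S.le s t
  H : S.H t \ S.H s ⊆ F
  G : S.G t = S.G s ∪ ν '' ((S.H t \ S.H s) ∪ {y | y ∈ l})
  dis : ∀ y ∈ l, y ∉ S.H t
  lab : (S.Lam t \ S.Lam s).encard ≤ l.length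

theorem barx_chain (S : Sys E) {N : E → Set E} {P : Set E} (hS : S.Good N P) {s : S.St}
    {F : Set E} {ν : E → E} {l : List E} {c : Set S.St} (hne : c.Nonempty)
    (hc : ∀ a ∈ c, ∀ b ∈ c, S.le a b ∨ S.le b a) (hC : ∀ a ∈ c, BarxC S s F ν l a) :
    ∃ t, BarxC S s F ν l t ∧ ∀ a ∈ c, S.le a t := by
  obtain ⟨t, h1, h2, h3, h4⟩ := hS.chain c hne hc
  obtain ⟨a0, ha0⟩ := hne
  refine ⟨t, ⟨hS.trans _ _ _ (hC a0 ha0).le (h1 a0 ha0), ?_, ?_, ?_, ?_⟩, h1⟩
  · rintro x ⟨hx, hxs⟩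
    rw [h3] at hx
    simp only [mem_iUnion] at hx
    obtain ⟨a, ha, hxa⟩ := hx
    exact (hC a ha).H ⟨hxa, hxs⟩
  · rw [h2]
    ext y
    simp only [mem_iUnion, exists_prop, mem_union, mem_image, mem_sdiff, mem_setOf_eq]
    constructor
    · rintro ⟨a, ha, hy⟩
      rw [(hC a ha).G] at hy
      rcases hy with hy | ⟨x, hx, hxy⟩
      · exact Or.inl hy
      · refine Or.inr ⟨x, ?_, hxy⟩
        rcases hx with hx | hx
        · refine Or.inl ⟨?_, hx.2⟩
          rw [h3]
          simp only [mem_iUnion]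
          exact ⟨a, ha, hx.1⟩
        · exact Or.inr hx
    · rintro (hy | ⟨x, hx, hxy⟩)
      · exact ⟨a0, ha0, hS.leG _ _ (hC a0 ha0).le hy⟩
      · rcases hx with ⟨hx, hxs⟩ | hx
        · rw [h3] at hx
          simp only [mem_iUnion] at hx
          obtain ⟨a, ha, hxa⟩ := hx
          refine ⟨a, ha, ?_⟩
          rw [(hC a ha).G]
          exact Or.inr ⟨x, Or.inl ⟨hxa, hxs⟩, hxy⟩
        · refine ⟨a0, ha0, ?_⟩
          rw [(hC a0 ha0).G]
          exact Or.inr ⟨x, Or.inr hx, hxy⟩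
  · intro y hy hyt
    rw [h3] at hyt
    simp only [mem_iUnion] at hyt
    obtain ⟨a, ha, hya⟩ := hyt
    exact (hC a ha).dis y hy hya
  · by_contra hcon
    push Not at hcon
    have h5 : ((l.length + 1 : ℕ) : ℕ∞) ≤ (S.Lam t \ S.Lam s).encard := by
      push_cast
      exact Order.add_one_le_of_lt hcon
    obtain ⟨T, hT, hTc⟩ := Set.exists_subset_encard_eq h5
    have hTf : T.Finite := Set.finite_of_encard_eq_coe hTc
    have key : ∀ T : Set E, T.Finite → T ⊆ S.Lam t →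
        ∃ v ∈ c, ∀ w ∈ c, S.le v w → T ⊆ S.Lam w := by
      intro T hT
      induction T, hT using Set.Finite.induction_on with
      | empty => exact fun _ => ⟨a0, ha0, fun w _ _ => empty_subset _⟩
      | @insert g T _ _ ih =>
        intro hgT
        obtain ⟨v, hv, hv'⟩ := ih (fun x hx => hgT (mem_insert_of_mem _ hx))
        obtain ⟨u, hu, hu'⟩ := h4 g (hgT (mem_insert _ _))
        rcases hc v hv u hu with h | h
        · refine ⟨u, hu, fun w hw huw => ?_⟩
          exact insert_subset (hu' w hw huw) (hv' w hw (hS.trans _ _ _ h huw))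
        · refine ⟨v, hv, fun w hw hvw => ?_⟩
          exact insert_subset (hu' w hw (hS.trans _ _ _ h hvw)) (hv' w hw hvw)
    obtain ⟨v, hv, hv'⟩ := key T hTf (fun x hx => (hT hx).1)
    have h6 : T ⊆ S.Lam v \ S.Lam s := fun x hx => ⟨hv' v hv (hS.refl v) hx, (hT hx).2⟩
    have h7 := (Set.encard_le_encard h6).trans (hC v hv).lab
    rw [hTc] at h7
    have h8 : l.length + 1 ≤ l.length := by exact_mod_cast h7
    omega

theorem barx_zorn (S : Sys E) {N : E → Set E} {P : Set E} (hS : S.Good N P) {s : S.St}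
    {F : Set E} {ν : E → E} {l : List E} {t : S.St} (ht : BarxC S s F ν l t) :
    ∃ m, BarxC S s F ν l m ∧ S.le t m ∧
      ∀ u, BarxC S s F ν l u → S.le m u → S.H u ⊆ S.H m := by
  obtain ⟨m, hm⟩ := exists_maximal_of_chains_bounded
    (α := {u : S.St // BarxC S s F ν l u ∧ S.le t u})
    (r := fun a b => S.le a.1 b.1) (by
      intro c hc
      rcases c.eq_empty_or_nonempty with rfl | hne
      · exact ⟨⟨t, ht, hS.refl t⟩, fun a ha => absurd ha (notMem_empty _)⟩
      · obtain ⟨v, hv, hv'⟩ := barx_chain S hS (c := Subtype.val '' c) (hne.image _)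
          (by
            rintro a ⟨a, ha, rfl⟩ b ⟨b, hb, rfl⟩
            by_cases hab : a = b
            · rw [hab]
              exact Or.inl (hS.refl _)
            · exact hc ha hb hab)
          (by
            rintro a ⟨a, ha, rfl⟩
            exact a.2.1)
        obtain ⟨a0, ha0⟩ := hne
        exact ⟨⟨v, hv, hS.trans _ _ _ a0.2.2 (hv' _ ⟨a0, ha0, rfl⟩)⟩,
          fun a ha => hv' _ ⟨a, ha, rfl⟩⟩)
    (fun {a b c} hab hbc => hS.trans _ _ _ hab hbc)
  refine ⟨m.1, m.2.1, m.2.2, fun u hu hmu => ?_⟩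
  exact hS.leH _ _ (hm ⟨u, hu, hS.trans _ _ _ m.2.2 hmu⟩ hmu)

theorem barx_main (S : Sys E) {N : E → Set E} {P : Set E} (hS : S.Good N P) {s : S.St}
    (hU : Uf S N s ℵ₀) {F : Set E} (hF : F ⊆ P \ S.H s) {ν : E → E}
    (hν : Mat N F (S.G s)ᶜ ν)
    (hcl : ∀ x ∈ F, ∀ y ∈ N x, y ∉ S.G s → ∃ z ∈ F, ν z = y)
    (hray : ∀ s : ℕ → E, Function.Injective s → (∀ k, s k ∈ F) →
      (∀ k, ν (s (k + 1)) ∈ N (s k)) → False) :
    ∀ (L : List E), ∀ (x : E) (l : List E), L = x :: l → BarxV N F ν L →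
      ∀ t : S.St, BarxC S s F ν l t → x ∉ S.H t →
        ∃ t' : S.St, BarxC S s F ν l t' ∧ S.le t t' ∧ x ∈ S.H t' := by
  intro L
  refine (barx_wf hray).induction (C := fun L => ∀ (x : E) (l : List E), L = x :: l →
    BarxV N F ν L → ∀ t : S.St, BarxC S s F ν l t → x ∉ S.H t →
        ∃ t' : S.St, BarxC S s F ν l t' ∧ S.le t t' ∧ x ∈ S.H t') L ?_
  clear L
  intro L ih x l hL hV t ht hxt
  subst hL
  have hxF : x ∈ F := hV.mem x List.mem_cons_self
  have hlF : ∀ y ∈ l, y ∈ F := fun y hy => hV.mem y (List.mem_cons_of_mem _ hy)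
  have hxl : x ∉ l := (List.nodup_cons.1 hV.nodup).1
  have hnot : ν x ∉ S.G t := by
    rw [ht.G]
    rintro (h | ⟨y, hy, hyx⟩)
    · exact (hν.2 x hxF).2 h
    · rcases hy with hy | hy
      · have : y = x := hν.1 (ht.H hy) hxF hyx
        exact hxt (this ▸ hy.1)
      · have : y = x := hν.1 (hlF y hy) hxF hyx
        exact hxl (this ▸ hy)
  obtain ⟨t1, a1, a2, a3⟩ := hS.woman t (ν x) hnot
  have ht1 : BarxC S s F ν (x :: l) t1 := by
    refine ⟨hS.trans _ _ _ ht.le a1, ?_, ?_, ?_, ?_⟩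
    · rw [a3]; exact ht.H
    · rw [a2, a3, ht.G]
      ext y
      simp only [mem_insert_iff, mem_union, mem_image, mem_sdiff, mem_setOf_eq, List.mem_cons]
      constructor
      · rintro (rfl | h | ⟨z, hz, rfl⟩)
        · exact Or.inr ⟨x, Or.inr (Or.inl rfl), rfl⟩
        · exact Or.inl h
        · exact Or.inr ⟨z, by tauto, rfl⟩
      · rintro (h | ⟨z, hz, rfl⟩)
        · exact Or.inr (Or.inl h)
        · rcases hz with hz | rfl | hz
          · exact Or.inr (Or.inr ⟨z, Or.inl hz, rfl⟩)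
          · exact Or.inl rfl
          · exact Or.inr (Or.inr ⟨z, Or.inr hz, rfl⟩)
    · intro y hy
      rw [a3]
      rcases List.mem_cons.1 hy with rfl | hy
      · exact hxt
      · exact ht.dis y hy
    · have h1 : S.Lam t1 \ S.Lam s ⊆ insert (ν x) (S.Lam t \ S.Lam s) := by
        rintro g ⟨hg, hgs⟩
        have h2 : g ∈ S.G t1 := hS.lamG _ hg
        rw [a2] at h2
        rcases h2 with rfl | h2
        · exact mem_insert _ _
        · exact mem_insert_of_mem _ ⟨hS.leL _ _ a1 ⟨hg, h2⟩, hgs⟩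
      refine (Set.encard_le_encard h1).trans ((Set.encard_insert_le _ _).trans ?_)
      rw [List.length_cons]
      push_cast
      gcongr
      exact ht.lab
  obtain ⟨m, hm, htm, hmax⟩ := barx_zorn S hS ht1
  have hNx : N x ⊆ S.G m := by
    intro y hy
    by_cases hys : y ∈ S.G s
    · exact hS.leG _ _ hm.le hys
    obtain ⟨z, hz, rfl⟩ := hcl x hxF y hy hys
    by_cases hzm : z ∈ S.H m ∨ z ∈ x :: l
    · rw [hm.G]
      refine Or.inr ⟨z, ?_, rfl⟩
      rcases hzm with h | h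
      · exact Or.inl ⟨h, (hF hz).2⟩
      · exact Or.inr h
    · push Not at hzm
      exfalso
      have hV' : BarxV N F ν (z :: x :: l) := by
        refine ⟨List.nodup_cons.2 ⟨hzm.2, hV.nodup⟩, ?_, ?_⟩
        · intro y hy
          rcases List.mem_cons.1 hy with rfl | hy
          · exact hz
          · exact hV.mem y hy
        · rw [List.isChain_cons_cons]
          exact ⟨hy, hV.chain⟩
      obtain ⟨t', c1, c2, c3⟩ := ih (z :: x :: l) ⟨z, rfl, hV'⟩ z (x :: l) rfl hV' m hm hzm.1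
      exact hzm.1 (hmax t' c1 c2 c3)
  have hxm : x ∉ S.H m := hm.dis x List.mem_cons_self
  obtain ⟨t', c1, c2, c3, c4⟩ := hS.man m x (hF hxF).1 hxm hNx
  have hle : S.le s t' := hS.trans _ _ _ hm.le c1
  have hH' : S.H t' \ S.H s ⊆ F := by
    rw [c3]
    rintro y ⟨hy, hys⟩
    rcases hy with rfl | hy
    · exact hxF
    · exact hm.H ⟨hy, hys⟩
  have hG' : S.G t' = S.G s ∪ ν '' ((S.H t' \ S.H s) ∪ {y | y ∈ l}) := by
    rw [c2, c3, hm.G]
    congr 2
    ext y
    simp only [mem_insert_iff, mem_union, mem_sdiff, mem_setOf_eq, List.mem_cons]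
    have : x ∉ S.H s := (hF hxF).2
    constructor
    · rintro (h | rfl | h)
      · exact Or.inl ⟨Or.inr h.1, h.2⟩
      · exact Or.inl ⟨Or.inl rfl, this⟩
      · exact Or.inr h
    · rintro (⟨rfl | h, h'⟩ | h)
      · exact Or.inr (Or.inl rfl)
      · exact Or.inl ⟨h, h'⟩
      · exact Or.inr (Or.inr h)
  have hLam : S.Lam t' ⊆ S.Lam m := by
    intro g hg
    refine hS.leL _ _ c1 ⟨hg, ?_⟩
    rw [← c2]
    exact hS.lamG _ hg
  have hfin : (S.Lam t' \ S.Lam s).Finite := by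
    have h1 : (S.Lam m \ S.Lam s).Finite := Set.finite_of_encard_le_coe hm.lab
    exact h1.subset (fun g hg => ⟨hLam hg.1, hg.2⟩)
  have hsub : S.Lam s ⊆ S.Lam t' := by
    apply hU t' hle
    · rw [Cardinal.lt_aleph0_iff_finite]
      exact hfin
    · refine ⟨S.H t' \ S.H s, subset_rfl, ⟨ν, ?_, ?_⟩, ?_⟩
      · exact hν.1.mono hH'
      · intro y hy
        refine ⟨(hν.2 y (hH' hy)).1, ?_, (hν.2 y (hH' hy)).2⟩
        rw [hG']
        exact Or.inr ⟨y, Or.inl hy, rfl⟩
      · rw [Cardinal.lt_aleph0_iff_finite, sdiff_self]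
        exact Set.finite_empty
  obtain ⟨g, hg, hg'⟩ := not_subset.1 c4
  have hgs : g ∉ S.Lam s := fun h => hg' (hsub h)
  refine ⟨t', ⟨hle, hH', hG', ?_, ?_⟩, ?_, ?_⟩
  · intro y hy
    rw [c3]
    rintro (rfl | h)
    · exact hxl hy
    · exact hm.dis y (List.mem_cons_of_mem _ hy) h
  · have h1 : insert g (S.Lam t' \ S.Lam s) ⊆ S.Lam m \ S.Lam s :=
      insert_subset ⟨hg, hgs⟩ (fun y hy => ⟨hLam hy.1, hy.2⟩)
    have h2 := (Set.encard_le_encard h1).trans hm.lab
    rw [Set.encard_insert_of_notMem (fun h => hg' h.1), List.length_cons] at h2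
    push_cast at h2
    exact (ENat.add_le_add_iff_right ENat.one_ne_top).1 h2
  · exact hS.trans _ _ _ a1 (hS.trans _ _ _ htm c1)
  · rw [c3]
    exact mem_insert _ _

theorem no_obs_x (S : Sys E) {N : E → Set E} {P : Set E} (hS : S.Good N P) (s : S.St)
    (hU : Uf S N s ℵ₀) (F : Set E) (o : E) (hF : F ⊆ P \ S.H s) (ho : o ∈ P \ S.H s)
    (hoF : o ∉ F) (hc : Crit N F (S.G s)ᶜ)
    (hN : ∀ y ∈ N o, y ∈ (S.G s)ᶜ → ∃ x ∈ F, y ∈ N x) : False := by
  obtain ⟨ν, hν⟩ := hc.1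
  have hcl : ∀ x ∈ F, ∀ y ∈ N x, y ∉ S.G s → ∃ z ∈ F, ν z = y :=
    fun x hx y hy hys => hc.2 ν hν x hx y hy hys
  have hs0 : BarxC S s F ν [] s := by
    refine ⟨hS.refl s, ?_, ?_, ?_, ?_⟩
    · simp
    · simp
    · simp
    · simp
  obtain ⟨m, hm, -, hmax⟩ := barx_zorn S hS hs0
  have hFm : F ⊆ S.H m := by
    intro x hx
    by_contra hxm
    have hV : BarxV N F ν [x] := by
      refine ⟨List.nodup_singleton _, ?_, List.isChain_singleton _⟩
      intro y hy
      rw [List.mem_singleton] at hy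
      rw [hy]
      exact hx
    obtain ⟨t, c1, c2, c3⟩ := barx_main S hS hU hF hν hcl (barx_ray hν hc) [x] x [] rfl hV m hm hxm
    exact hxm (hmax t c1 c2 c3)
  have hLm : S.Lam m ⊆ S.Lam s := by
    have h1 := hm.lab
    simp only [List.length_nil, Nat.cast_zero, nonpos_iff_eq_zero, Set.encard_eq_zero] at h1
    exact sdiff_eq_bot_iff.1 h1
  have hNo : N o ⊆ S.G m := by
    intro y hy
    by_cases hys : y ∈ S.G s
    · exact hS.leG _ _ hm.le hys
    · obtain ⟨x, hx, hyx⟩ := hN y hy hys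
      exact hS.sat m x (hFm hx) hyx
  have hom : o ∉ S.H m := fun h => hoF (hm.H ⟨h, ho.2⟩)
  obtain ⟨t', c1, c2, c3, c4⟩ := hS.man m o ho.1 hom hNo
  have hLam : S.Lam t' ⊆ S.Lam m := by
    intro g hg
    refine hS.leL _ _ c1 ⟨hg, ?_⟩
    rw [← c2]
    exact hS.lamG _ hg
  apply c4
  refine hLm.trans (hU t' (hS.trans _ _ _ hm.le c1) ?_ ?_)
  · rw [Cardinal.lt_aleph0_iff_finite]
    have : S.Lam t' \ S.Lam s = ∅ := sdiff_eq_bot_iff.2 (hLam.trans hLm)
    rw [this]
    exact Set.finite_empty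
  · refine ⟨F, ?_, ⟨ν, hν.1, ?_⟩, ?_⟩
    · intro x hx
      refine ⟨?_, (hF hx).2⟩
      rw [c3]
      exact mem_insert_of_mem _ (hFm hx)
    · intro x hx
      refine ⟨(hν.2 x hx).1, ?_, (hν.2 x hx).2⟩
      rw [c2]
      exact hS.sat m x (hFm hx) (hν.2 x hx).1
    · rw [Cardinal.lt_aleph0_iff_finite]
      apply (Set.finite_singleton o).subset
      rintro x ⟨⟨hx, hxs⟩, hxF⟩
      rw [c3] at hx
      rcases hx with rfl | hx
      · rfl
      · exact absurd (hm.H ⟨hx, hxs⟩) hxF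

end Pool.Agent.FLX
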