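import Pool.Agent.FLX.LemS

namespace Pool.Agent.FLX

open Set Cardinal Pool.Agent.FLM

universe u w

variable {E : Type w}

theorem omega_mbl_mono (N : E → Set E) {A B Q R : Set E} (hAB : A ⊆ B) (hQR : Q ⊆ R)
    (h : Mbl N B Q) : Mbl N A R := by
  obtain ⟨ν, hi, hm⟩ := h
  exact ⟨ν, hi.mono hAB, fun x hx => ⟨(hm x (hAB hx)).1, hQR (hm x (hAB hx)).2⟩⟩

theorem fin_free (N : E → Set E) (P Q : Set E) (h : OneFree N P Q) (A : Set E) (hA : A ⊆ P)
    (hd : DefLt N A Q ℵ₀) : Mbl N A Q := by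
  obtain ⟨K, hKA, hK, hfin⟩ := hd
  have hf : (A \ K).Finite := by
    have := Cardinal.lt_aleph0_iff_finite.mp hfin
    exact Set.toFinite _
  have key : ∀ S : Set E, S.Finite → S ⊆ P → Mbl N (K ∪ S) Q := by
    intro S hS
    induction S, hS using Set.Finite.induction_on with
    | empty => intro _; simpa using hK
    | @insert a S _ _ ih =>
      intro hSP
      have h1 : Mbl N (K ∪ S) Q := ih (fun x hx => hSP (mem_insert_of_mem a hx))
      have haP : a ∈ P := hSP (mem_insert a S)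
      refine h (K ∪ insert a S) ?_ a (Or.inr (mem_insert a S)) ?_
      · exact union_subset (hKA.trans hA) hSP
      · refine omega_mbl_mono N ?_ Subset.rfl h1
        rintro x ⟨hx, hxa⟩
        rcases hx with hx | hx
        · exact Or.inl hx
        · rcases hx with hx | hx
          · exact absurd hx hxa
          · exact Or.inr hx
  have := key (A \ K) hf (sdiff_subset.trans hA)
  refine omega_mbl_mono N ?_ Subset.rfl this
  intro x hx
  by_cases hxK : x ∈ K
  · exact Or.inl hxK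
  · exact Or.inr ⟨hx, hxK⟩

/-- Good pairs. -/
def OmegaGood (N : E → Set E) (P Q : Set E) (T : Set E) (f : E → E) : Prop :=
  T.Finite ∧ T ⊆ P ∧ Mat N T Q f ∧ OneFree N (P \ T) (Q \ f '' T)

theorem omega_step (N : E → Set E) (P Q : Set E) (T : Set E) (f : E → E)
    (hg : OmegaGood N P Q T f) (a : E) (ha : a ∈ P) :
    ∃ f', OmegaGood N P Q (insert a T) f' ∧ EqOn f' f T := by
  classical
  by_cases haT : a ∈ T
  · refine ⟨f, ?_, fun _ _ => rfl⟩
    rwa [insert_eq_of_mem haT]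
  obtain ⟨hTf, hTP, ⟨hfi, hfm⟩, hO⟩ := hg
  obtain ⟨w, hwN, hwQ, hw⟩ := lemS N (P \ T) (Q \ f '' T) hO a ⟨ha, haT⟩
  have hEq : EqOn (Function.update f a w) f T := by
    intro x hx
    have : x ≠ a := fun he => haT (he ▸ hx)
    simp [Function.update_of_ne this]
  have hIm : (Function.update f a w) '' (insert a T) = insert w (f '' T) := by
    rw [image_insert_eq, Function.update_self, image_congr hEq]
  refine ⟨Function.update f a w, ⟨hTf.insert a, insert_subset ha hTP, ⟨?_, ?_⟩, ?_⟩, hEq⟩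
  · rw [injOn_insert haT]
    refine ⟨hfi.congr hEq.symm, ?_⟩
    rw [Function.update_self, image_congr hEq]
    exact hwQ.2
  · intro x hx
    rcases hx with hx | hx
    · subst hx
      rw [Function.update_self]
      exact ⟨hwN, hwQ.1⟩
    · rw [hEq hx]
      exact hfm x hx
  · rw [hIm]
    intro A hA o ho hm
    have hAT : A ⊆ P \ T := fun x hx => ⟨(hA hx).1, fun h => (hA hx).2 (mem_insert_of_mem a h)⟩
    have hsub : Q \ insert w (f '' T) ⊆ Q \ f '' T :=
      sdiff_subset_sdiff_right (subset_insert w _)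
    have h1 : Mbl N A (Q \ f '' T) := hO A hAT o ho (omega_mbl_mono N Subset.rfl hsub hm)
    have h2 := hw A (fun x hx => ⟨hAT hx, fun h => (hA hx).2 (by
      rw [mem_singleton_iff] at h; rw [h]; exact mem_insert a T)⟩) h1
    refine omega_mbl_mono N Subset.rfl ?_ h2
    rintro y ⟨⟨hyQ, hyT⟩, hyw⟩
    refine ⟨hyQ, fun hy => ?_⟩
    rcases hy with hy | hy
    · exact hyw hy
    · exact hyT hy

theorem omega_ext (N : E → Set E) (P Q : Set E) (S : Set E) (hS : S.Finite) (hSP : S ⊆ P)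
    (T : Set E) (f : E → E) (hg : OmegaGood N P Q T f) :
    ∃ f', OmegaGood N P Q (T ∪ S) f' ∧ EqOn f' f T := by
  induction S, hS using Set.Finite.induction_on with
  | empty => exact ⟨f, by simpa using hg, fun _ _ => rfl⟩
  | @insert a S _ _ ih =>
    obtain ⟨f1, hg1, he1⟩ := ih (fun x hx => hSP (mem_insert_of_mem a hx))
    obtain ⟨f2, hg2, he2⟩ := omega_step N P Q (T ∪ S) f1 hg1 a (hSP (mem_insert a S))
    refine ⟨f2, ?_, ?_⟩
    · rwa [union_insert]
    · intro x hx
      rw [he2 (Or.inl hx), he1 hx]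

theorem omega_free (N : E → Set E) (P Q : Set E) (h : OneFree N P Q) (A : Set E) (hA : A ⊆ P)
    (hd : DefLt N A Q (Order.succ ℵ₀)) : Mbl N A Q := by
  classical
  obtain ⟨K, hKA, ⟨ν, hνi, hνm⟩, hcard⟩ := hd
  have hcount : (A \ K).Countable := by
    have h1 : Cardinal.mk ↥(A \ K) ≤ ℵ₀ := Order.lt_succ_iff.mp hcard
    exact Cardinal.mk_le_aleph0_iff.mp h1
  -- an enumeration by sets with at most one element
  obtain ⟨e, he, hecov⟩ : ∃ e : ℕ → Set E, (∀ n, (e n).Finite ∧ e n ⊆ A) ∧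
      ∀ x ∈ A \ K, ∃ n, x ∈ e n := by
    rcases (A \ K).eq_empty_or_nonempty with hemp | hne
    · exact ⟨fun _ => ∅, fun _ => ⟨finite_empty, empty_subset _⟩, fun x hx => by
        rw [hemp] at hx; exact absurd hx (notMem_empty x)⟩
    · obtain ⟨g, hg⟩ := hcount.exists_eq_range hne
      refine ⟨fun n => {g n}, fun n => ⟨finite_singleton _, ?_⟩, ?_⟩
      · have : g n ∈ A \ K := by rw [hg]; exact mem_range_self n
        exact singleton_subset_iff.mpr this.1
      · intro x hx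
        rw [hg] at hx
        obtain ⟨n, rfl⟩ := hx
        exact ⟨n, rfl⟩
  let St := {p : Set E × (E → E) // OmegaGood N P Q p.1 p.2}
  have base : OmegaGood N P Q ∅ id := by
    refine ⟨finite_empty, empty_subset _, ⟨injOn_empty _, fun x hx => absurd hx (notMem_empty x)⟩, ?_⟩
    simpa using h
  let add : ℕ → St → Set E := fun n s => e n ∪ {k | k ∈ K ∧ ν k ∈ s.1.2 '' s.1.1}
  have hadd_fin : ∀ n s, (add n s).Finite := by
    intro n s
    refine (he n).1.union ?_
    have h1 : (s.1.2 '' s.1.1).Finite := s.2.1.image _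
    have h2 : {k | k ∈ K ∧ ν k ∈ s.1.2 '' s.1.1} = K ∩ ν ⁻¹' (s.1.2 '' s.1.1) := rfl
    rw [h2]
    exact Set.Finite.of_finite_image (h1.subset (by
      rintro y ⟨x, hx, rfl⟩; exact hx.2)) (hνi.mono inter_subset_left)
  have hadd_sub : ∀ n s, add n s ⊆ P := by
    intro n s
    refine union_subset ((he n).2.trans hA) ?_
    rintro k ⟨hk, _⟩
    exact hA (hKA hk)
  have hnext : ∀ n (s : St), ∃ s' : St, s'.1.1 = s.1.1 ∪ add n s ∧ EqOn s'.1.2 s.1.2 s.1.1 := by
    intro n s
    obtain ⟨f', hg', he'⟩ := omega_ext N P Q (add n s) (hadd_fin n s) (hadd_sub n s) s.1.1 s.1.2 s.2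
    exact ⟨⟨(s.1.1 ∪ add n s, f'), hg'⟩, rfl, he'⟩
  choose nxt hnxt1 hnxt2 using hnext
  let st : ℕ → St := fun n => Nat.rec ⟨(∅, id), base⟩ (fun m s => nxt m s) n
  have hst : ∀ n, st (n + 1) = nxt n (st n) := fun n => rfl
  have hmono1 : ∀ n, (st n).1.1 ⊆ (st (n + 1)).1.1 := by
    intro n
    rw [hst, hnxt1]
    exact subset_union_left
  have hmono : Monotone (fun n => (st n).1.1) := monotone_nat_of_le_succ hmono1
  have heq1 : ∀ n, EqOn (st (n + 1)).1.2 (st n).1.2 (st n).1.1 := by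
    intro n
    rw [hst]
    exact hnxt2 n (st n)
  have heq : ∀ n m, n ≤ m → EqOn (st m).1.2 (st n).1.2 (st n).1.1 := by
    intro n m hnm
    induction m, hnm using Nat.le_induction with
    | base => exact fun _ _ => rfl
    | succ m hnm ih =>
      intro x hx
      rw [heq1 m (hmono hnm hx), ih hx]
  let T : Set E := ⋃ n, (st n).1.1
  let g : E → E := fun x => if hx : ∃ n, x ∈ (st n).1.1 then (st (Nat.find hx)).1.2 x else ν x
  have hgT : ∀ n x, x ∈ (st n).1.1 → g x = (st n).1.2 x := by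
    intro n x hx
    have hex : ∃ n, x ∈ (st n).1.1 := ⟨n, hx⟩
    have h1 : g x = (st (Nat.find hex)).1.2 x := by simp only [g]; rw [dif_pos hex]
    rw [h1]
    exact (heq (Nat.find hex) n (Nat.find_min' hex hx) (Nat.find_spec hex)).symm
  have hgK : ∀ x, (¬ ∃ n, x ∈ (st n).1.1) → g x = ν x := by
    intro x hx
    simp only [g]; rw [dif_neg hx]
  have hmemK : ∀ x ∈ A, (¬ ∃ n, x ∈ (st n).1.1) → x ∈ K := by
    intro x hxA hx
    by_contra hxK
    obtain ⟨n, hn⟩ := hecov x ⟨hxA, hxK⟩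
    apply hx
    refine ⟨n + 1, ?_⟩
    rw [hst, hnxt1]
    exact Or.inr (Or.inl hn)
  have hclash : ∀ x x', (∃ n, x ∈ (st n).1.1) → x' ∈ K → (¬ ∃ n, x' ∈ (st n).1.1) → g x ≠ ν x' := by
    rintro x x' ⟨n, hn⟩ hxK hx' heq'
    apply hx'
    refine ⟨n + 1, ?_⟩
    rw [hst, hnxt1]
    refine Or.inr (Or.inr ⟨hxK, x, hn, ?_⟩)
    rw [← hgT n x hn, heq']
  refine ⟨g, ?_, ?_⟩
  · intro x hx x' hx' hxx
    by_cases h1 : ∃ n, x ∈ (st n).1.1
    · by_cases h2 : ∃ n, x' ∈ (st n).1.1
      · obtain ⟨n, hn⟩ := h1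
        obtain ⟨m, hm⟩ := h2
        have hn' := hmono (le_max_left n m) hn
        have hm' := hmono (le_max_right n m) hm
        rw [hgT _ x hn', hgT _ x' hm'] at hxx
        exact (st (max n m)).2.2.2.1.1 hn' hm' hxx
      · exfalso
        rw [hgK x' h2] at hxx
        exact hclash x x' h1 (hmemK x' hx' h2) h2 hxx
    · by_cases h2 : ∃ n, x' ∈ (st n).1.1
      · exfalso
        rw [hgK x h1] at hxx
        exact hclash x' x h2 (hmemK x hx h1) h1 hxx.symm
      · rw [hgK x h1, hgK x' h2] at hxx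
        exact hνi (hmemK x hx h1) (hmemK x' hx' h2) hxx
  · intro x hx
    by_cases h1 : ∃ n, x ∈ (st n).1.1
    · obtain ⟨n, hn⟩ := h1
      rw [hgT n x hn]
      exact (st n).2.2.2.1.2 x hn
    · rw [hgK x h1]
      exact hνm x (hmemK x hx h1)

end Pool.Agent.FLX
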