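import Pool.Agent.FLX.BarX
import Pool.Agent.FLX.Omega

namespace Pool.Agent.FLX

open Set Cardinal Pool.Agent.FLM

universe u w

variable {E : Type w}

theorem onefree_of_uf (S : Sys E) {N : E → Set E} {P : Set E} (hS : S.Good N P) (s : S.St)
    (hU : Uf S N s ℵ₀) : OneFree N (P \ S.H s) (S.G s)ᶜ := by
  intro A hA o ho hm
  by_contra h
  obtain ⟨F, hFA, hoF, hc, hN⟩ := crit_of_not_mbl N A (S.G s)ᶜ h o ho hm
  exact no_obs_x S hS s hU F o (hFA.trans hA) (hA ho) hoF hc hN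

theorem base_fr (S : Sys E) {N : E → Set E} {P : Set E} (hS : S.Good N P) (s : S.St)
    (hU : Uf S N s ℵ₀) : Fr S N P s (Order.succ ℵ₀) := by
  intro A hA hd
  exact omega_free N (P \ S.H s) (S.G s)ᶜ (onefree_of_uf S hS s hU) A hA hd

end Pool.Agent.FLX
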