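import Pool.Agent.FLX.Defs

namespace Pool.Agent.FLX

open Set Cardinal Pool.Agent.FLM

universe u w

variable {E : Type w}

theorem block {ι : Type w} [LinearOrder ι] [WellFoundedLT ι] (D : Set ι)
    (hD : Club D) (H : ι → Set E) (hmono : ∀ i j, i ≤ j → H i ⊆ H j)
    (hcont : ∀ d ∈ D, ∀ x ∈ H d, ∃ i < d, x ∈ H i) (i0 : ι) (hi0 : ∀ j, i0 ≤ j) (x : E)
    (hx : ∃ i, x ∈ H i) (hx0 : x ∉ H i0) :
    ∃ c, (c = i0 ∨ c ∈ D) ∧ x ∉ H c ∧ ∀ d ∈ D, c < d → x ∈ H d := by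
  obtain ⟨i, hi⟩ := hx
  have hub : ∀ c, x ∉ H c → c < i := by
    intro c hc
    by_contra hci
    exact hc (hmono i c (not_lt.mp hci) hi)
  have hwf : WellFounded ((· < ·) : ι → ι → Prop) := wellFounded_lt
  have hne : ({j | ∀ c, ((c = i0 ∨ c ∈ D) ∧ x ∉ H c) → c ≤ j} : Set ι).Nonempty :=
    ⟨i, fun c hc => (hub c hc.2).le⟩
  obtain ⟨j, hjm, hjmin⟩ := hwf.has_min _ hne
  have hjm' : ∀ c, ((c = i0 ∨ c ∈ D) ∧ x ∉ H c) → c ≤ j := hjm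
  by_cases hjS : (j = i0 ∨ j ∈ D) ∧ x ∉ H j
  · refine ⟨j, hjS.1, hjS.2, fun d hd hjd => ?_⟩
    by_contra hxd
    exact absurd (hjm' d ⟨Or.inr hd, hxd⟩) (not_le.mpr hjd)
  · exfalso
    have hlim : ∀ a, a < j → ∃ c, ((c = i0 ∨ c ∈ D) ∧ x ∉ H c) ∧ a < c ∧ c < j := by
      intro a ha
      by_contra hcon
      have : a ∈ ({j | ∀ c, ((c = i0 ∨ c ∈ D) ∧ x ∉ H c) → c ≤ j} : Set ι) := by
        intro c hc
        by_contra hac
        have hcj : c ≠ j := by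
          rintro rfl
          exact hjS hc
        exact hcon ⟨c, hc, not_le.mp hac, lt_of_le_of_ne (hjm' c hc) hcj⟩
      exact hjmin a this ha
    have hi0j : i0 < j := by
      refine lt_of_le_of_ne (hi0 j) ?_
      rintro rfl
      exact hjS ⟨Or.inl rfl, hx0⟩
    have hjD : j ∈ D := by
      refine hD.closed j ⟨i0, hi0j⟩ (fun a ha => ?_)
      obtain ⟨c, ⟨hc1, _⟩, h2, h3⟩ := hlim a ha
      rcases hc1 with rfl | hc1
      · exact absurd (hi0 a) (not_le.mpr h2)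
      · exact ⟨c, hc1, h2, h3⟩
    apply hjS
    refine ⟨Or.inr hjD, fun hxj => ?_⟩
    obtain ⟨k, hk, hxk⟩ := hcont j hjD x hxj
    obtain ⟨c, ⟨_, hc⟩, h2, _⟩ := hlim k hk
    exact hc (hmono k c h2.le hxk)

theorem next_club {ι : Type w} [LinearOrder ι] [WellFoundedLT ι] (D : Set ι)
    (hD : ∀ a, ∃ d ∈ D, a < d) : ∃ nx : ι → ι, ∀ a, nx a ∈ D ∧ a < nx a ∧
      ∀ d ∈ D, a < d → nx a ≤ d := by
  have hwf : WellFounded ((· < ·) : ι → ι → Prop) := wellFounded_lt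
  have h : ∀ a, ∃ n, n ∈ D ∧ a < n ∧ ∀ d ∈ D, a < d → n ≤ d := by
    intro a
    have hne : ({d | d ∈ D ∧ a < d} : Set ι).Nonempty := by
      obtain ⟨d, hd, had⟩ := hD a
      exact ⟨d, hd, had⟩
    obtain ⟨n, hn, hmin⟩ := hwf.has_min _ hne
    exact ⟨n, hn.1, hn.2, fun d hd had => not_lt.mp (hmin d ⟨hd, had⟩)⟩
  choose nx hnx using h
  exact ⟨nx, hnx⟩

end Pool.Agent.FLX
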