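import Pool.Agent.FLX.LemR

namespace Pool.Agent.FLX

open Set Cardinal Pool.Agent.FLM

universe u w

variable {E : Type w}

open Classical in
/-- combine a matching `μ` of `R \ {o'}` with `ν` on the rest -/
theorem cone_comb (N : E → Set E) (A Q R : Set E) (o o' : E) (ν μ : E → E)
    (hν : Mat N (A \ {o}) Q ν) (hoR : o ∈ R) (ho'R : o' ∈ R) (B : Set E) (hB : B ⊆ A)
    (hμ : Mat N (R ∩ B) Q μ)
    (hcov : ∀ z ∈ R ∩ B, ∃ c' ∈ R, c' ∈ A \ {o} ∧ ν c' = μ z) :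
    Mat N B Q (fun x => if x ∈ R then μ x else ν x) := by
  have key : ∀ x x', x ∈ R → x ∈ B → x' ∈ B → x' ∉ R → μ x ≠ ν x' := by
    intro x x' hx hxB hx'B hx' he
    obtain ⟨c', hc', hc'A, hc'e⟩ := hcov x ⟨hx, hxB⟩
    have : c' = x' := hν.1 hc'A ⟨hB hx'B, fun h => hx' (h ▸ hoR)⟩ (hc'e.trans he)
    exact hx' (this ▸ hc')
  constructor
  · intro x hx x' hx' he
    by_cases h1 : x ∈ R <;> by_cases h2 : x' ∈ R
    · simp only [h1, h2, if_true] at he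
      exact hμ.1 ⟨h1, hx⟩ ⟨h2, hx'⟩ he
    · simp only [h1, h2, if_true, if_false] at he
      exact absurd he (key x x' h1 hx hx' h2)
    · simp only [h1, h2, if_true, if_false] at he
      exact absurd he.symm (key x' x h2 hx' hx h1)
    · simp only [h1, h2, if_false] at he
      exact hν.1 ⟨hB hx, fun h => h1 (h ▸ hoR)⟩ ⟨hB hx', fun h => h2 (h ▸ hoR)⟩ he
  · intro x hx
    by_cases h1 : x ∈ R
    · simp only [h1, if_true]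
      exact hμ.2 x ⟨h1, hx⟩
    · simp only [h1, if_false]
      exact hν.2 x ⟨hB hx, fun h => h1 (h ▸ hoR)⟩

theorem cone_sub {N : E → Set E} {F G Q : Set E} {ν : E → E} (h : Mat N G Q ν) (hF : F ⊆ G) :
    Mat N F Q ν :=
  ⟨h.1.mono hF, fun x hx => h.2 x (hF hx)⟩

theorem crit_of_not_mbl (N : E → Set E) (A Q : Set E) (hA : ¬ Mbl N A Q) (o : E) (ho : o ∈ A)
    (hm : Mbl N (A \ {o}) Q) :
    ∃ F, F ⊆ A ∧ o ∉ F ∧ Crit N F Q ∧ ∀ y ∈ N o, y ∈ Q → ∃ x ∈ F, y ∈ N x := by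
  classical
  obtain ⟨ν, hν⟩ := hm
  set R : Set E := {c | c ∈ A ∧ Mbl N (A \ {c}) Q} with hR
  have hoR : o ∈ R := ⟨ho, ν, hν⟩
  refine ⟨R \ {o}, fun x hx => hx.1.1, fun h => h.2 rfl, ⟨⟨ν, ?_⟩, ?_⟩, ?_⟩
  · exact cone_sub hν (fun x hx => ⟨hx.1.1, hx.2⟩)
  · intro μ hμ x hx y hy hyQ
    have hcov : ∀ z ∈ R ∩ (A \ {o}), ∃ c' ∈ R, c' ∈ A \ {o} ∧ ν c' = μ z := by
      intro z hz
      obtain ⟨c', h1, h2, h3, h4⟩ := lemR N A Q hA o ho ν hν z hz.1.1 hz.1.2 (μ z)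
        (hμ.2 z ⟨hz.1, hz.2.2⟩).1 (hμ.2 z ⟨hz.1, hz.2.2⟩).2
      exact ⟨c', ⟨h1, h3⟩, ⟨h1, h2⟩, h4⟩
    have hμ' : Mat N (R ∩ (A \ {o})) Q μ := cone_sub hμ (fun z hz => ⟨hz.1, hz.2.2⟩)
    have hM := cone_comb N A Q R o o ν μ hν hoR hoR (A \ {o}) diff_subset hμ' hcov
    obtain ⟨c', h1, h2, h3, h4⟩ := lemR N A Q hA o ho _ hM x hx.1.1 hx.1.2 y hy hyQ
    have hc'R : c' ∈ R := ⟨h1, h3⟩
    refine ⟨c', ⟨hc'R, h2⟩, ?_⟩
    simpa only [hc'R, if_true] using h4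
  · intro y hy hyQ
    obtain ⟨c', h1, h2, h3, h4⟩ := lemR N A Q hA o ho ν hν o ho ⟨ν, hν⟩ y hy hyQ
    refine ⟨c', ⟨⟨h1, h3⟩, h2⟩, ?_⟩
    rw [← h4]
    exact (hν.2 c' ⟨h1, h2⟩).1

theorem crit_insert (N : E → Set E) (A Q : Set E) (w c : E) (hwQ : w ∈ Q)
    (hA : ¬ Mbl N A (Q \ {w})) (hc : c ∈ A) (hm : Mbl N (A \ {c}) (Q \ {w})) (hw : w ∈ N c) :
    ∃ R, R ⊆ A ∧ c ∈ R ∧ Crit N R Q := by
  classical
  obtain ⟨ν, hν⟩ := hm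
  set R : Set E := {x | x ∈ A ∧ Mbl N (A \ {x}) (Q \ {w})} with hR
  have hcR : c ∈ R := ⟨hc, ν, hν⟩
  have hcov : ∀ (μ : E → E), ∀ z ∈ R, μ z ∈ N z → μ z ∈ Q \ {w} →
      ∃ c' ∈ R, c' ∈ A \ {c} ∧ ν c' = μ z := by
    intro μ z hz h5 h6
    obtain ⟨c', h1, h2, h3, h4⟩ := lemR N A (Q \ {w}) hA c hc ν hν z hz.1 hz.2 (μ z) h5 h6
    exact ⟨c', ⟨h1, h3⟩, ⟨h1, h2⟩, h4⟩
  refine ⟨R, fun x hx => hx.1, hcR, ⟨⟨fun x => if x = c then w else ν x, ?_, ?_⟩, ?_⟩⟩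
  · intro x hx x' hx' he
    by_cases h1 : x = c <;> by_cases h2 : x' = c
    · exact h1.trans h2.symm
    · simp only [h1, h2, if_true, if_false] at he
      exact absurd he.symm (hν.2 x' ⟨hx'.1, h2⟩).2.2
    · simp only [h1, h2, if_true, if_false] at he
      exact absurd he (hν.2 x ⟨hx.1, h1⟩).2.2
    · simp only [h1, h2, if_false] at he
      exact hν.1 ⟨hx.1, h1⟩ ⟨hx'.1, h2⟩ he
  · intro x hx
    by_cases h1 : x = c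
    · subst h1
      simp only [if_true]
      exact ⟨hw, hwQ⟩
    · simp only [h1, if_false]
      have := hν.2 x ⟨hx.1, h1⟩
      exact ⟨this.1, this.2.1⟩
  · intro μ hμ x hx y hy hyQ
    have hex : ∃ c' ∈ R, μ c' = w := by
      by_contra hcon
      push Not at hcon
      have hμ' : Mat N (R ∩ A) (Q \ {w}) μ :=
        ⟨hμ.1.mono inter_subset_left, fun z hz => ⟨(hμ.2 z hz.1).1, (hμ.2 z hz.1).2,
          hcon z hz.1⟩⟩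
      exact hA ⟨_, cone_comb N A (Q \ {w}) R c c ν μ hν hcR hcR A (le_refl A) hμ'
        (fun z hz => hcov μ z hz.1 (hμ'.2 z hz).1 (hμ'.2 z hz).2)⟩
    obtain ⟨c', hc'R, hc'w⟩ := hex
    by_cases hyw : y = w
    · exact ⟨c', hc'R, hc'w.trans hyw.symm⟩
    · have hμ' : Mat N (R ∩ (A \ {c'})) (Q \ {w}) μ := by
        refine ⟨hμ.1.mono inter_subset_left, fun z hz => ⟨(hμ.2 z hz.1).1, (hμ.2 z hz.1).2, ?_⟩⟩
        intro h
        exact hz.2.2 (hμ.1 hz.1 hc'R (h.trans hc'w.symm))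
      have hM := cone_comb N A (Q \ {w}) R c c' ν μ hν hcR hc'R (A \ {c'}) diff_subset hμ'
        (fun z hz => hcov μ z hz.1 (hμ'.2 z hz).1 (hμ'.2 z hz).2)
      obtain ⟨c2, h1, h2, h3, h4⟩ := lemR N A (Q \ {w}) hA c' hc'R.1 _ hM x hx.1 hx.2 y hy
        ⟨hyQ, hyw⟩
      have hc2R : c2 ∈ R := ⟨h1, h3⟩
      refine ⟨c2, hc2R, ?_⟩
      simpa only [hc2R, if_true] using h4

end Pool.Agent.FLX
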