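import Pool.Agent.FLX.Defs

namespace Pool.Agent.FLX

open Set Cardinal Pool.Agent.FLM

universe u w

variable {E : Type w}

theorem defLt_mono {N : E → Set E} {A A' Q Q' : Set E} {κ κ' : Cardinal.{w}}
    (h : DefLt N A Q κ) (hA : A' ⊆ A) (hQ : Q ⊆ Q') (hκ : κ ≤ κ') : DefLt N A' Q' κ' := by
  obtain ⟨K, hKA, ⟨ν, hν1, hν2⟩, hc⟩ := h
  refine ⟨K ∩ A', inter_subset_right, ⟨ν, hν1.mono inter_subset_left, fun x hx =>
    ⟨(hν2 x hx.1).1, hQ (hν2 x hx.1).2⟩⟩, ?_⟩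
  refine lt_of_le_of_lt (Cardinal.mk_le_mk_of_subset ?_) (lt_of_lt_of_le hc hκ)
  intro x hx
  exact ⟨hA hx.1, fun hk => hx.2 ⟨hk, hx.1⟩⟩

theorem defLt_comp {N : E → Set E} {A A' Q Q' : Set E} {κ : Cardinal.{w}} (hκ : ℵ₀ ≤ κ)
    (h : DefLt N A Q κ) (h' : DefLt N A' Q' κ) (hd : Disjoint Q Q') :
    DefLt N (A ∪ A') (Q ∪ Q') κ := by
  classical
  obtain ⟨K, hKA, ⟨ν, hν1, hν2⟩, hc⟩ := h
  obtain ⟨K', hKA', ⟨ν', hν1', hν2'⟩, hc'⟩ := h'
  refine ⟨K ∪ K', union_subset_union hKA hKA', ⟨fun x => if x ∈ K then ν x else ν' x, ?_, ?_⟩, ?_⟩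
  · intro x hx y hy hxy
    by_cases hxK : x ∈ K
    · by_cases hyK : y ∈ K
      · simp only [hxK, hyK, if_true] at hxy
        exact hν1 hxK hyK hxy
      · have hyK' : y ∈ K' := hy.resolve_left hyK
        simp only [hxK, hyK, if_true, if_false] at hxy
        exact (Set.disjoint_left.1 hd (hν2 x hxK).2 (hxy ▸ (hν2' y hyK').2)).elim
    · have hxK' : x ∈ K' := hx.resolve_left hxK
      by_cases hyK : y ∈ K
      · simp only [hxK, hyK, if_true, if_false] at hxy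
        exact (Set.disjoint_left.1 hd (hν2 y hyK).2 (hxy ▸ (hν2' x hxK').2)).elim
      · have hyK' : y ∈ K' := hy.resolve_left hyK
        simp only [hxK, hyK, if_false] at hxy
        exact hν1' hxK' hyK' hxy
  · intro x hx
    by_cases hxK : x ∈ K
    · simp only [hxK, if_true]
      exact ⟨(hν2 x hxK).1, Or.inl (hν2 x hxK).2⟩
    · have hxK' : x ∈ K' := hx.resolve_left hxK
      simp only [hxK, if_false]
      exact ⟨(hν2' x hxK').1, Or.inr (hν2' x hxK').2⟩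
  · refine lt_of_le_of_lt (Cardinal.mk_le_mk_of_subset
      (t := (A \ K) ∪ (A' \ K')) ?_) (lt_of_le_of_lt (Cardinal.mk_union_le _ _)
      (Cardinal.add_lt_of_lt hκ hc hc'))
    rintro x ⟨hx | hx, hn⟩
    · exact Or.inl ⟨hx, fun h => hn (Or.inl h)⟩
    · exact Or.inr ⟨hx, fun h => hn (Or.inr h)⟩

theorem defLt_iUnion {N : E → Set E} {J : Type w} {κ : Cardinal.{w}} (hκ : κ.IsRegular)
    (hJ : Cardinal.mk J < κ) (A Q : J → Set E) (h : ∀ j, DefLt N (A j) (Q j) κ)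
    (hd : ∀ i j, i ≠ j → Disjoint (Q i) (Q j)) :
    DefLt N (⋃ j, A j) (⋃ j, Q j) κ := by
  classical
  choose K hKA hm hc using h
  choose ν hν using hm
  have hsel : ∀ x : E, ∃ f : E, x ∈ (⋃ j, K j) → ∃ j, x ∈ K j ∧ f = ν j x := by
    intro x
    by_cases hx : x ∈ (⋃ j, K j)
    · obtain ⟨j, hj⟩ := mem_iUnion.1 hx
      exact ⟨ν j x, fun _ => ⟨j, hj, rfl⟩⟩
    · exact ⟨x, fun h => (hx h).elim⟩
  choose f hf using hsel
  refine ⟨⋃ j, K j, iUnion_mono hKA, ⟨f, ?_, ?_⟩, ?_⟩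
  · intro x hx y hy hxy
    obtain ⟨i, hi, hfi⟩ := hf x hx
    obtain ⟨j, hj, hfj⟩ := hf y hy
    rw [hfi, hfj] at hxy
    by_cases hij : i = j
    · subst hij
      exact (hν i).1 hi hj hxy
    · exact (Set.disjoint_left.1 (hd i j hij) ((hν i).2 x hi).2
        (hxy ▸ ((hν j).2 y hj).2)).elim
  · intro x hx
    obtain ⟨i, hi, hfi⟩ := hf x hx
    rw [hfi]
    exact ⟨((hν i).2 x hi).1, mem_iUnion.2 ⟨i, ((hν i).2 x hi).2⟩⟩
  · refine lt_of_le_of_lt (Cardinal.mk_le_mk_of_subset (t := ⋃ j, (A j \ K j)) ?_) ?_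
    · rintro x ⟨hx, hn⟩
      obtain ⟨j, hj⟩ := mem_iUnion.1 hx
      exact mem_iUnion.2 ⟨j, hj, fun hk => hn (mem_iUnion.2 ⟨j, hk⟩)⟩
    · exact (Cardinal.card_iUnion_lt_iff_forall_of_isRegular hκ hJ).2 hc

end Pool.Agent.FLX
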