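import Pool.Agent.FLX.Defs

namespace Pool.Agent.FLX

open Set Cardinal Pool.Agent.FLM

universe u w

variable {E : Type w}

theorem exists_idx (κ : Cardinal.{w}) (hκ : κ.IsRegular) (hκ' : ℵ₀ < κ) :
    ∃ (ι : Type w) (_ : LinearOrder ι) (_ : WellFoundedLT ι), Idx ι κ := by
  refine ⟨κ.ord.ToType, inferInstance, inferInstance, hκ, hκ', mk_ord_toType κ, ?_, ?_⟩
  · intro i
    have h := mk_Iio_lt i (by simp)
    simpa using h
  · intro T hT
    have h : ¬ IsCofinal T := by
      intro hc
      have h1 := Order.cof_le hc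
      rw [Ordinal.cof_toType, hκ.cof_ord] at h1
      exact absurd hT (not_lt.2 h1)
    exact not_isCofinal_iff.1 h

end Pool.Agent.FLX
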