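import Pool.Agent.FLX.Defs

namespace Pool.Agent.FLX

open Set Cardinal Pool.Agent.FLM

universe u w

variable {E : Type w}

theorem inj_club {ι : Type w} [LinearOrder ι] [WellFoundedLT ι] {κ : Cardinal.{w}}
    (hι : Idx ι κ) (D : Set ι) (hD : ∀ a, ∃ d ∈ D, a < d) (M : Set E)
    (hM : Cardinal.mk ↥M ≤ κ) (c : E → ι) :
    ∃ τ : E → ι, InjOn τ M ∧ ∀ m ∈ M, τ m ∈ D ∧ c m ≤ τ m := by
  classical
  rw [← hι.card] at hM
  obtain ⟨j⟩ := hM
  let C : ι → ι := fun i => if h : ∃ m : M, j m = i then c (h.choose : E) else i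
  have key : ∀ (i : ι) (f : (i' : ι) → i' < i → ι),
      ∃ d, d ∈ D ∧ (∀ i' (hi : i' < i), f i' hi < d) ∧ C i ≤ d := by
    intro i f
    let T : Set ι := insert (C i) (Set.range (fun x : Iio i => f x.1 x.2))
    have hT : Cardinal.mk ↥T < κ := by
      refine lt_of_le_of_lt (mk_insert_le) ?_
      refine Cardinal.add_lt_of_lt hι.unc.le (lt_of_le_of_lt mk_range_le (hι.iio i)) ?_
      exact lt_trans one_lt_aleph0 hι.unc
    obtain ⟨b, hb⟩ := hι.bdd T hT
    obtain ⟨d, hd, hbd⟩ := hD b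
    exact ⟨d, hd, fun i' hi => (hb _ (mem_insert_of_mem _ ⟨⟨i', hi⟩, rfl⟩)).trans hbd,
      ((hb _ (mem_insert _ _)).trans hbd).le⟩
  choose F hF1 hF2 hF3 using key
  let σ : ι → ι := (wellFounded_lt (α := ι)).fix F
  have hσ : ∀ i, σ i = F i (fun i' _ => σ i') := fun i => WellFounded.fix_eq _ _ _
  have hmono : StrictMono σ := by
    intro a b hab
    rw [hσ b]
    exact hF2 b (fun i' _ => σ i') a hab
  have hCj : ∀ m : M, C (j m) = c m := by
    intro m
    have h : ∃ m' : M, j m' = j m := ⟨m, rfl⟩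
    simp only [C]
    rw [dif_pos h]
    have := j.injective h.choose_spec
    rw [this]
  refine ⟨fun e => if h : e ∈ M then σ (j ⟨e, h⟩) else c e, ?_, ?_⟩
  · intro a ha b hb hab
    simp only [dif_pos ha, dif_pos hb] at hab
    have h1 := j.injective (hmono.injective hab)
    exact congrArg Subtype.val h1
  · intro m hm
    simp only [dif_pos hm]
    rw [hσ]
    refine ⟨hF1 _ _, ?_⟩
    have := hF3 (j ⟨m, hm⟩) (fun i' _ => σ i')
    rw [hCj] at this
    exact this

end Pool.Agent.FLX
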