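import Pool.Agent.FLX.Defs

namespace Pool.Agent.FLX

open Set Cardinal Pool.Agent.FLM

universe u w

variable {E : Type w}

/-- the forward orbit -/
inductive LemuT (F2 W : Set E) (ν2 g : E → E) (x : E) : E → Prop
  | base : LemuT F2 W ν2 g x x
  | step (z z' : E) : LemuT F2 W ν2 g x z → z' ∈ F2 → ν2 z' = g z → LemuT F2 W ν2 g x z'

theorem lemu_disj (N : E → Set E) (P Q Fs : Set E) (hq : OneFree N (P \ Fs) (Qt N Fs Q))
    (F2 : Set E) (hF2 : F2 ⊆ P) (hc2 : Crit N F2 Q) (ν2 : E → E) (hν2 : Mat N F2 Q ν2) :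
    ∀ x ∈ F2, x ∉ Fs → ν2 x ∈ Qt N Fs Q := by
  classical
  intro x hx hxFs
  by_contra hcon
  set D : Set E := {z | z ∈ F2 ∧ z ∉ Fs ∧ ν2 z ∉ Qt N Fs Q} with hD
  have hxD : x ∈ D := ⟨hx, hxFs, hcon⟩
  set W : Set E := {z | z ∈ F2 ∧ z ∉ Fs ∧ (z ∉ D ∨ z = x)} with hW
  have hxW : x ∈ W := ⟨hx, hxFs, Or.inr rfl⟩
  have hWm : Mbl N (W \ {x}) (Qt N Fs Q) := by
    refine ⟨ν2, hν2.1.mono (fun z hz => hz.1.1), fun z hz => ⟨(hν2.2 z hz.1.1).1, ?_⟩⟩
    by_contra h
    rcases hz.1.2.2 with h1 | h1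
    · exact h1 ⟨hz.1.1, hz.1.2.1, h⟩
    · exact hz.2 h1
  obtain ⟨g, hg⟩ := hq W (fun z hz => ⟨hF2 hz.1, hz.2.1⟩) x hxW hWm
  have hnext : ∀ z ∈ W, ∀ z' ∈ F2, ν2 z' = g z → z' ∈ W := by
    intro z hz z' hz' he
    have hgz : g z ∈ Qt N Fs Q := (hg.2 z hz).2
    refine ⟨hz', ?_, Or.inl ?_⟩
    · intro h
      have := hgz.2 z' h
      rw [← he] at this
      exact this (hν2.2 z' hz').1
    · intro h
      apply h.2.2
      rw [he]
      exact hgz
  have hTW : ∀ z, LemuT F2 W ν2 g x z → z ∈ W := by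
    intro z hz
    induction hz with
    | base => exact hxW
    | step z z' _ h2 h3 ih => exact hnext z ih z' h2 h3
  have hM : Mat N F2 Q (fun z => if LemuT F2 W ν2 g x z then g z else ν2 z) := by
    have key : ∀ z u, LemuT F2 W ν2 g x z → u ∈ F2 → ¬ LemuT F2 W ν2 g x u → g z ≠ ν2 u :=
      fun z u hz hu hnu he => hnu (LemuT.step z u hz hu he.symm)
    constructor
    · intro z hz z' hz' he
      by_cases h1 : LemuT F2 W ν2 g x z <;> by_cases h2 : LemuT F2 W ν2 g x z'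
      · simp only [h1, h2, if_true] at he
        exact hg.1 (hTW z h1) (hTW z' h2) he
      · simp only [h1, h2, if_true, if_false] at he
        exact absurd he (key z z' h1 hz' h2)
      · simp only [h1, h2, if_true, if_false] at he
        exact absurd he.symm (key z' z h2 hz h1)
      · simp only [h1, h2, if_false] at he
        exact hν2.1 hz hz' he
    · intro z hz
      by_cases h1 : LemuT F2 W ν2 g x z
      · simp only [h1, if_true]
        exact ⟨(hg.2 z (hTW z h1)).1, (hg.2 z (hTW z h1)).2.1⟩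
      · simp only [h1, if_false]
        exact hν2.2 z hz
  obtain ⟨x', hx', he⟩ := hc2.2 _ hM x hx (ν2 x) (hν2.2 x hx).1 (hν2.2 x hx).2
  by_cases h1 : LemuT F2 W ν2 g x x'
  · simp only [h1, if_true] at he
    exact hcon (he ▸ (hg.2 x' (hTW x' h1)).2)
  · simp only [h1, if_false] at he
    have : x' = x := hν2.1 hx' hx he
    exact h1 (this ▸ LemuT.base)

theorem lemU (N : E → Set E) (P Q Fs : Set E) (hq : OneFree N (P \ Fs) (Qt N Fs Q))
    (hFs : Fs ⊆ P) (hc : Crit N Fs Q)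
    (hmax : ∀ F, F ⊆ P \ Fs → Crit N F (Qt N Fs Q) → F = ∅) (F2 : Set E) (hF2 : F2 ⊆ P)
    (hc2 : Crit N F2 Q) : F2 ⊆ Fs := by
  classical
  obtain ⟨ν2, hν2⟩ := hc2.1
  have hd := lemu_disj N P Q Fs hq F2 hF2 hc2 ν2 hν2
  have hcr : Crit N (F2 \ Fs) (Qt N Fs Q) := by
    refine ⟨⟨ν2, hν2.1.mono diff_subset, fun z hz => ⟨(hν2.2 z hz.1).1, hd z hz.1 hz.2⟩⟩, ?_⟩
    intro μ hμ x hx y hy hyQ
    have hM : Mat N F2 Q (fun z => if z ∈ Fs then ν2 z else μ z) := by
      have key : ∀ z u, z ∈ F2 → z ∈ Fs → u ∈ F2 → u ∉ Fs → ν2 z ≠ μ u := by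
        intro z u hz hzF hu huF he
        have h1 := (hμ.2 u ⟨hu, huF⟩).2.2 z hzF
        rw [← he] at h1
        exact h1 (hν2.2 z hz).1
      constructor
      · intro z hz z' hz' he
        by_cases h1 : z ∈ Fs <;> by_cases h2 : z' ∈ Fs
        · simp only [h1, h2, if_true] at he
          exact hν2.1 hz hz' he
        · simp only [h1, h2, if_true, if_false] at he
          exact absurd he (key z z' hz h1 hz' h2)
        · simp only [h1, h2, if_true, if_false] at he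
          exact absurd he.symm (key z' z hz' h2 hz h1)
        · simp only [h1, h2, if_false] at he
          exact hμ.1 ⟨hz, h1⟩ ⟨hz', h2⟩ he
      · intro z hz
        by_cases h1 : z ∈ Fs
        · simp only [h1, if_true]
          exact hν2.2 z hz
        · simp only [h1, if_false]
          exact ⟨(hμ.2 z ⟨hz, h1⟩).1, (hμ.2 z ⟨hz, h1⟩).2.1⟩
    obtain ⟨x', hx', he⟩ := hc2.2 _ hM x hx.1 y hy hyQ.1
    by_cases h1 : x' ∈ Fs
    · simp only [h1, if_true] at he
      exact absurd (he ▸ (hν2.2 x' hx').1) (hyQ.2 x' h1)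
    · simp only [h1, if_false] at he
      exact ⟨x', ⟨hx', h1⟩, he⟩
  have := hmax (F2 \ Fs) (fun z hz => ⟨hF2 hz.1, hz.2⟩) hcr
  exact diff_eq_empty.1 this

end Pool.Agent.FLX
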