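import Pool.Agent.FLX.Defs

namespace Pool.Agent.FLX

open Set Cardinal Pool.Agent.FLM

universe u w

variable {E : Type w}

/-- domain of a graph -/
def maxcDom (g : Set (E × E)) : Set E := {x | ∃ y, (x, y) ∈ g}

/-- graphs of matchings of critical sets -/
structure MaxcGood (N : E → Set E) (P Q : Set E) (g : Set (E × E)) : Prop where
  fn : ∀ x y y', (x, y) ∈ g → (x, y') ∈ g → y = y'
  inj : ∀ x x' y, (x, y) ∈ g → (x', y) ∈ g → x = x'
  mem : ∀ x y, (x, y) ∈ g → x ∈ P ∧ y ∈ N x ∧ y ∈ Q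
  crit : ∀ μ, Mat N (maxcDom g) Q μ → ∀ x ∈ maxcDom g, ∀ y ∈ N x, y ∈ Q →
    ∃ x' ∈ maxcDom g, μ x' = y

theorem maxc_mat {N : E → Set E} {P Q : Set E} {g : Set (E × E)} (hg : MaxcGood N P Q g) :
    ∃ ν, Mat N (maxcDom g) Q ν := by
  classical
  refine ⟨fun x => if h : ∃ y, (x, y) ∈ g then h.choose else x, ?_, ?_⟩
  · intro x hx x' hx' he
    have h1 : ∃ y, (x, y) ∈ g := hx
    have h2 : ∃ y, (x', y) ∈ g := hx'
    simp only [dif_pos h1, dif_pos h2] at he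
    have e1 := h1.choose_spec
    have e2 := h2.choose_spec
    rw [← he] at e2
    exact hg.inj _ _ _ e1 e2
  · intro x hx
    have h1 : ∃ y, (x, y) ∈ g := hx
    simp only [dif_pos h1]
    exact (hg.mem _ _ h1.choose_spec).2

theorem maxc_union {N : E → Set E} {P Q : Set E} {g : Set (E × E)} (hg : MaxcGood N P Q g)
    (F : Set E) (hF : F ⊆ P \ maxcDom g) (ν' : E → E) (hν' : Mat N F (Qt N (maxcDom g) Q) ν')
    (hcF : Crit N F (Qt N (maxcDom g) Q)) :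
    MaxcGood N P Q (g ∪ {p | p.1 ∈ F ∧ p.2 = ν' p.1}) := by
  have hdom : maxcDom (g ∪ {p | p.1 ∈ F ∧ p.2 = ν' p.1}) = maxcDom g ∪ F := by
    ext x
    constructor
    · rintro ⟨y, hy | hy⟩
      · exact Or.inl ⟨y, hy⟩
      · exact Or.inr hy.1
    · rintro (⟨y, hy⟩ | hx)
      · exact ⟨y, Or.inl hy⟩
      · exact ⟨ν' x, Or.inr ⟨hx, rfl⟩⟩
  refine ⟨?_, ?_, ?_, ?_⟩
  · rintro x y y' (h1 | h1) (h2 | h2)
    · exact hg.fn x y y' h1 h2
    · exact absurd ⟨y, h1⟩ (hF h2.1).2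
    · exact absurd ⟨y', h2⟩ (hF h1.1).2
    · exact h1.2.trans h2.2.symm
  · rintro x x' y (h1 | h1) (h2 | h2)
    · exact hg.inj x x' y h1 h2
    · exfalso
      have h3 := (hν'.2 x' h2.1).2.2 x ⟨y, h1⟩
      have h4 : y = ν' x' := h2.2
      rw [← h4] at h3
      exact h3 (hg.mem _ _ h1).2.1
    · exfalso
      have h3 := (hν'.2 x h1.1).2.2 x' ⟨y, h2⟩
      have h4 : y = ν' x := h1.2
      rw [← h4] at h3
      exact h3 (hg.mem _ _ h2).2.1
    · exact hν'.1 h1.1 h2.1 ((show y = ν' x from h1.2).symm.trans h2.2)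
  · rintro x y (h1 | h1)
    · exact hg.mem x y h1
    · have h4 : y = ν' x := h1.2
      rw [h4]
      exact ⟨(hF h1.1).1, (hν'.2 x h1.1).1, (hν'.2 x h1.1).2.1⟩
  · rw [hdom]
    intro μ hμ x hx y hy hyQ
    have hμ1 : Mat N (maxcDom g) Q μ :=
      ⟨hμ.1.mono subset_union_left, fun z hz => hμ.2 z (Or.inl hz)⟩
    have hμ2 : Mat N F (Qt N (maxcDom g) Q) μ := by
      refine ⟨hμ.1.mono subset_union_right, fun z hz => ⟨(hμ.2 z (Or.inr hz)).1,
        (hμ.2 z (Or.inr hz)).2, ?_⟩⟩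
      intro u hu hzu
      obtain ⟨x', hx', he⟩ := hg.crit μ hμ1 u hu (μ z) hzu (hμ.2 z (Or.inr hz)).2
      have : x' = z := hμ.1 (Or.inl hx') (Or.inr hz) he
      exact (hF hz).2 (this ▸ hx')
    by_cases hn : ∃ u ∈ maxcDom g, y ∈ N u
    · obtain ⟨u, hu, hyu⟩ := hn
      obtain ⟨x', hx', he⟩ := hg.crit μ hμ1 u hu y hyu hyQ
      exact ⟨x', Or.inl hx', he⟩
    · push Not at hn
      rcases hx with hx | hx
      · exact absurd hy (hn x hx)
      · obtain ⟨x', hx', he⟩ := hcF.2 μ hμ2 x hx y hy ⟨hyQ, hn⟩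
        exact ⟨x', Or.inr hx', he⟩

theorem max_crit (N : E → Set E) (P Q : Set E) :
    ∃ (Fs : Set E), Fs ⊆ P ∧ Crit N Fs Q ∧
      ∀ F, F ⊆ P \ Fs → Crit N F (Qt N Fs Q) → F = ∅ := by
  obtain ⟨m, hm⟩ := zorn_subset {g : Set (E × E) | MaxcGood N P Q g} (by
    intro c hc hch
    refine ⟨⋃₀ c, ⟨?_, ?_, ?_, ?_⟩, fun s hs => subset_sUnion_of_mem hs⟩
    · rintro x y y' ⟨s, hs, h1⟩ ⟨t, ht, h2⟩
      rcases hch.total hs ht with h | h
      · exact (hc ht).fn x y y' (h h1) h2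
      · exact (hc hs).fn x y y' h1 (h h2)
    · rintro x x' y ⟨s, hs, h1⟩ ⟨t, ht, h2⟩
      rcases hch.total hs ht with h | h
      · exact (hc ht).inj x x' y (h h1) h2
      · exact (hc hs).inj x x' y h1 (h h2)
    · rintro x y ⟨s, hs, h1⟩
      exact (hc hs).mem x y h1
    · rintro μ hμ x ⟨y0, s, hs, h1⟩ y hy hyQ
      have hsub : maxcDom s ⊆ maxcDom (⋃₀ c) := by
        rintro z ⟨v, hv⟩
        exact ⟨v, s, hs, hv⟩
      obtain ⟨x', hx', he⟩ := (hc hs).crit μ ⟨hμ.1.mono hsub, fun z hz => hμ.2 z (hsub hz)⟩ x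
        ⟨y0, h1⟩ y hy hyQ
      exact ⟨x', hsub hx', he⟩)
  have hg : MaxcGood N P Q m := hm.1
  refine ⟨maxcDom m, ?_, ⟨maxc_mat hg, hg.crit⟩, ?_⟩
  · rintro x ⟨y, hy⟩
    exact (hg.mem x y hy).1
  · intro F hF hcF
    obtain ⟨ν', hν'⟩ := hcF.1
    have hu := maxc_union hg F hF ν' hν' hcF
    have hle := hm.2 hu subset_union_left
    rw [eq_empty_iff_forall_notMem]
    intro x hx
    have : (x, ν' x) ∈ m := hle (Or.inr ⟨hx, rfl⟩)
    exact (hF hx).2 ⟨ν' x, this⟩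

theorem onefree_quot (N : E → Set E) (P Q Fs : Set E) (h : OneFree N P Q) (hFs : Fs ⊆ P)
    (hc : Crit N Fs Q) : OneFree N (P \ Fs) (Qt N Fs Q) := by
  classical
  intro A hA o ho hm
  obtain ⟨μ, hμ⟩ := hm
  obtain ⟨ν, hν⟩ := hc.1
  have hoFs : o ∉ Fs := (hA ho).2
  have hM : Mat N ((A ∪ Fs) \ {o}) Q (fun z => if z ∈ Fs then ν z else μ z) := by
    have hmem : ∀ z, z ∈ (A ∪ Fs) \ {o} → z ∉ Fs → z ∈ A \ {o} := by
      rintro z ⟨h1 | h1, h2⟩ h3
      · exact ⟨h1, h2⟩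
      · exact absurd h1 h3
    have key : ∀ z u, z ∈ Fs → u ∈ (A ∪ Fs) \ {o} → u ∉ Fs → ν z ≠ μ u := by
      intro z u hz hu huF he
      have h1 := (hμ.2 u (hmem u hu huF)).2.2 z hz
      rw [← he] at h1
      exact h1 (hν.2 z hz).1
    constructor
    · intro z hz z' hz' he
      by_cases h1 : z ∈ Fs <;> by_cases h2 : z' ∈ Fs
      · simp only [h1, h2, if_true] at he
        exact hν.1 h1 h2 he
      · simp only [h1, h2, if_true, if_false] at he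
        exact absurd he (key z z' h1 hz' h2)
      · simp only [h1, h2, if_true, if_false] at he
        exact absurd he.symm (key z' z h2 hz h1)
      · simp only [h1, h2, if_false] at he
        exact hμ.1 (hmem z hz h1) (hmem z' hz' h2) he
    · intro z hz
      by_cases h1 : z ∈ Fs
      · simp only [h1, if_true]
        exact hν.2 z h1
      · simp only [h1, if_false]
        exact ⟨(hμ.2 z (hmem z hz h1)).1, (hμ.2 z (hmem z hz h1)).2.1⟩
  obtain ⟨f, hf⟩ := h (A ∪ Fs) (union_subset (fun z hz => (hA hz).1) hFs) o (Or.inl ho) ⟨_, hM⟩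
  have hf1 : Mat N Fs Q f := ⟨hf.1.mono subset_union_right, fun z hz => hf.2 z (Or.inr hz)⟩
  refine ⟨f, hf.1.mono subset_union_left, fun z hz => ⟨(hf.2 z (Or.inl hz)).1,
    (hf.2 z (Or.inl hz)).2, ?_⟩⟩
  intro u hu hzu
  obtain ⟨x', hx', he⟩ := hc.2 f hf1 u hu (f z) hzu (hf.2 z (Or.inl hz)).2
  have : x' = z := hf.1 (Or.inr hx') (Or.inl hz) he
  exact (hA hz).2 (this ▸ hx')

end Pool.Agent.FLX
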