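import Pool.Agent.FLX.Cone
import Pool.Agent.FLX.MaxC
import Pool.Agent.FLX.LemU

namespace Pool.Agent.FLX

open Set Cardinal Pool.Agent.FLM

universe u w

variable {E : Type w}

theorem lemS_aux (N : E → Set E) (P Q Fs : Set E) (a w : E)
    (hU : ∀ F2, F2 ⊆ P → Crit N F2 Q → F2 ⊆ Fs) (hwQ : w ∈ Q) (A : Set E)
    (hA : A ⊆ P \ {a}) (hm : Mbl N A Q) (hn : ¬ Mbl N A (Q \ {w})) :
    ∃ R, R ⊆ A ∧ R ⊆ Fs ∧ Crit N R Q ∧ ∃ c ∈ R, w ∈ N c := by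
  obtain ⟨f, hfi, hf⟩ := hm
  have hex : ∃ c ∈ A, f c = w := by
    by_contra hcon
    push Not at hcon
    exact hn ⟨f, hfi, fun x hx => ⟨(hf x hx).1, (hf x hx).2, hcon x hx⟩⟩
  obtain ⟨c, hc, hcw⟩ := hex
  have hw : w ∈ N c := by
    rw [← hcw]
    exact (hf c hc).1
  have hm2 : Mbl N (A \ {c}) (Q \ {w}) := by
    refine ⟨f, fun x hx y hy hxy => hfi hx.1 hy.1 hxy, fun x hx => ?_⟩
    refine ⟨(hf x hx.1).1, (hf x hx.1).2, ?_⟩
    intro hxw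
    apply hx.2
    have : f x = f c := by
      rw [hcw]
      exact hxw
    exact hfi hx.1 hc this
  obtain ⟨R, hRA, hcR, hR⟩ := crit_insert N A Q w c hwQ hn hc hm2 hw
  exact ⟨R, hRA, hU R (fun x hx => (hA (hRA hx)).1) hR, hR, c, hcR, hw⟩

theorem lemS (N : E → Set E) (P Q : Set E) (h : OneFree N P Q) (a : E) (ha : a ∈ P) :
    ∃ w ∈ N a, w ∈ Q ∧ ∀ A, A ⊆ P \ {a} → Mbl N A Q → Mbl N A (Q \ {w}) := by
  obtain ⟨Fs, hFs, hc, hmax⟩ := max_crit N P Q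
  have hq := onefree_quot N P Q Fs h hFs hc
  have hU : ∀ F2, F2 ⊆ P → Crit N F2 Q → F2 ⊆ Fs := fun F2 hF2 hc2 =>
    lemU N P Q Fs hq hFs hc hmax F2 hF2 hc2
  by_cases haF : a ∈ Fs
  · obtain ⟨ν, hνi, hν⟩ := hc.1
    refine ⟨ν a, (hν a haF).1, (hν a haF).2, fun A hA hm => ?_⟩
    by_contra hn
    obtain ⟨R, hRA, hRF, hR, c, hcR, hwc⟩ :=
      lemS_aux N P Q Fs a (ν a) hU (hν a haF).2 A hA hm hn
    obtain ⟨x', hx', hxw⟩ := hR.2 ν ⟨fun x hx y hy hxy => hνi (hRF hx) (hRF hy) hxy,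
      fun x hx => hν x (hRF hx)⟩ c hcR (ν a) hwc (hν a haF).2
    have hxa : x' = a := hνi (hRF hx') haF hxw
    rw [hxa] at hx'
    exact (hA (hRA hx')).2 rfl
  · have hm : Mbl N {a} (Qt N Fs Q) := by
      apply hq {a} _ a rfl
      · refine ⟨id, fun x hx => ?_, fun x hx => ?_⟩
        · exact absurd hx.1 hx.2
        · exact absurd hx.1 hx.2
      · intro x hx
        rw [mem_singleton_iff] at hx
        subst hx
        exact ⟨ha, haF⟩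
    obtain ⟨g, -, hg⟩ := hm
    have hga := hg a rfl
    refine ⟨g a, hga.1, hga.2.1, fun A hA hm => ?_⟩
    by_contra hn
    obtain ⟨R, hRA, hRF, hR, c, hcR, hwc⟩ :=
      lemS_aux N P Q Fs a (g a) hU hga.2.1 A hA hm hn
    exact hga.2.2 c (hRF hcR) hwc

end Pool.Agent.FLX
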