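import Pool.Agent.FLX.CoreT
import Pool.Agent.FLX.Inj
import Pool.Agent.FLX.Blk
import Pool.Agent.FLX.LemS
import Pool.Agent.FLX.IdxE
import Pool.Agent.FLX.Dl

namespace Pool.Agent.FLX

open Set Cardinal Pool.Agent.FLM

universe u w

variable {E : Type w}

theorem core_onefree {κ : Cardinal.{w}} (hκ' : ℵ₀ < κ) (S : Sys E) {N : E → Set E} {P : Set E}
    (v : S.St) (h : Fr S N P v κ) : OneFree N (P \ S.H v) (S.G v)ᶜ := by
  intro A hA o ho hm
  apply h A hA
  refine ⟨A \ {o}, sdiff_subset, hm, ?_⟩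
  have h1 : A \ (A \ {o}) ⊆ {o} := by
    intro x hx
    by_contra hxo
    exact hx.2 ⟨hx.1, hxo⟩
  calc Cardinal.mk ↥(A \ (A \ {o})) ≤ Cardinal.mk ↥({o} : Set E) := Cardinal.mk_le_mk_of_subset h1
    _ = 1 := by simp
    _ < ℵ₀ := Cardinal.one_lt_aleph0
    _ < κ := hκ'

theorem core {κ : Cardinal.{w}} (hκ : κ.IsRegular) (hκ' : ℵ₀ < κ) (S : Sys E)
    {N : E → Set E} {P : Set E} (hS : S.Good N P)
    (b t : S.St) (hbt : S.le b t) (hUb : Uf S N b κ)
    (hLam : Cardinal.mk ↥(S.Lam t \ S.Lam b) < κ)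
    (hdef : DefLt N (S.H t \ S.H b) (S.G t \ S.G b) κ) (hFt : Fr S N P t κ)
    (hIH : ∀ v, S.le t v → Uf S N v κ → Fr S N P v κ) (Pm K O : Set E) (hPm : Pm ⊆ P)
    (hK : K ⊆ Pm \ S.H t) (hO : O ⊆ Pm \ S.H t) (hOκ : Cardinal.mk ↥O ≤ κ) (ν : E → E)
    (hν : InjOn ν K) :
    ∃ (f : E → E) (A : Set E), O ⊆ A ∧ A ⊆ O ∪ K ∧ (∀ x ∈ A, ∀ k ∈ K, ν k = f x → k ∈ A) ∧
      ∀ S' : Set E, S' ⊆ A → Cardinal.mk ↥S' < κ →
        ∃ (v : S.St) (T : Set E), S.le t v ∧ Uf S N v κ ∧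
          Cardinal.mk ↥(S.Lam v \ S.Lam b) < κ ∧
          DefLt N (S.H v \ S.H b) (S.G v \ S.G b) κ ∧ T ⊆ Pm ∧ Disjoint T (S.H v) ∧
          S' ⊆ S.H v ∪ T ∧ Mat N (((S.H v \ S.H t) ∩ Pm) ∪ T) (S.G v \ S.G t) f := by
  classical
  obtain ⟨ι, _, _, hι⟩ := exists_idx κ hκ hκ'
  have hne : Nonempty ι := by
    rw [← Cardinal.mk_ne_zero_iff, hι.card]
    exact hκ.ne_zero
  -- the choice of women
  have hw : ∀ v : S.St, ∀ a : E, ∃ y : E, OneFree N (P \ S.H v) (S.G v)ᶜ → a ∈ P \ S.H v →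
      y ∈ N a ∧ y ∈ (S.G v)ᶜ ∧
        ∀ A, A ⊆ (P \ S.H v) \ {a} → Mbl N A (S.G v)ᶜ → Mbl N A ((S.G v)ᶜ \ {y}) := by
    intro v a
    by_cases h : OneFree N (P \ S.H v) (S.G v)ᶜ ∧ a ∈ P \ S.H v
    · obtain ⟨y, h1, h2, h3⟩ := lemS N _ _ h.1 a h.2
      exact ⟨y, fun _ _ => ⟨h1, h2, h3⟩⟩
    · exact ⟨a, fun h1 h2 => absurd ⟨h1, h2⟩ h⟩
  choose wM hwM using hw
  -- the choice of block matchings
  have hf : ∀ v v' : S.St, ∀ o : Option E, ∃ f : E → E,
      Mbl N (((S.H v' \ S.H v) ∩ Pm) \ {x | o = some x})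
        ((S.G v)ᶜ \ {y | ∃ a, o = some a ∧ wM v a = y}) →
      Mat N (((S.H v' \ S.H v) ∩ Pm) \ {x | o = some x})
        ((S.G v)ᶜ \ {y | ∃ a, o = some a ∧ wM v a = y}) f := by
    intro v v' o
    by_cases h : Mbl N (((S.H v' \ S.H v) ∩ Pm) \ {x | o = some x})
        ((S.G v)ᶜ \ {y | ∃ a, o = some a ∧ wM v a = y})
    · obtain ⟨f, hf⟩ := h
      exact ⟨f, fun _ => hf⟩
    · exact ⟨id, fun h' => absurd h' h⟩
  choose fM hfM using hf
  obtain ⟨z, L, D, hD, hle, htle, hmin, hcont, hlam, hdf, hdf2, hUf, hLmono, hLc, hLsub, hOL,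
    hwom, hcl1, hcl2⟩ := core_tower hι S hS b t hbt hUb hLam hdef wM fM K O ν hν hOκ
  -- the minimal index
  obtain ⟨i0, hi0⟩ : ∃ i0 : ι, ∀ j, i0 ≤ j := by
    obtain ⟨m, _, hm⟩ := WellFounded.has_min (r := (· < · : ι → ι → Prop)) wellFounded_lt
      Set.univ ⟨hne.some, trivial⟩
    exact ⟨m, fun j => not_lt.1 (hm j trivial)⟩
  have hG0 : S.G (z i0) = S.G t := (hmin i0 hi0).1
  have hH0 : S.H (z i0) = S.H t := (hmin i0 hi0).2
  have hFr : ∀ c, c = i0 ∨ c ∈ D → Fr S N P (z c) κ := by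
    rintro c (rfl | hc)
    · intro A hA hd
      rw [hH0] at hA
      rw [hG0] at hd ⊢
      exact hFt A hA hd
    · exact hIH _ (htle c) (hUf c hc)
  have hOF : ∀ c, c = i0 ∨ c ∈ D → OneFree N (P \ S.H (z c)) (S.G (z c))ᶜ :=
    fun c hc => core_onefree hκ' S (z c) (hFr c hc)
  set A : Set E := ⋃ i, L i with hAdef
  have hAsub : A ⊆ O ∪ K := iUnion_subset hLsub
  have hAPm : A ⊆ Pm \ S.H t := fun x hx => (hAsub hx).elim (fun h => hO h) (fun h => hK h)
  set HH : Set E := ⋃ i, S.H (z i) with hHH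
  have hcc : ∀ m : E, ∃ i, m ∈ A → m ∈ L i := by
    intro m
    by_cases h : m ∈ A
    · obtain ⟨i, hi⟩ := mem_iUnion.1 h
      exact ⟨i, fun _ => hi⟩
    · exact ⟨i0, fun h' => absurd h' h⟩
  choose cc hcc using hcc
  have hAκ : Cardinal.mk ↥A ≤ κ := by
    calc Cardinal.mk ↥A ≤ Cardinal.sum fun i => Cardinal.mk ↥(L i) := Cardinal.mk_iUnion_le_sum_mk
      _ ≤ Cardinal.mk ι * κ := by
          refine (Cardinal.sum_le_sum _ (fun _ => κ) (fun i => (hLc i).le)).trans ?_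
          simp
      _ = κ := by
          rw [hι.card]
          exact Cardinal.mul_eq_self hκ.aleph0_le
  obtain ⟨τ, hτinj, hτ⟩ := inj_club hι D hD.cof (A \ HH)
    ((Cardinal.mk_le_mk_of_subset sdiff_subset).trans hAκ) cc
  obtain ⟨nx, hnx⟩ := next_club D hD.cof
  have hmono : ∀ i j, i ≤ j → S.H (z i) ⊆ S.H (z j) := fun i j h => hS.leH _ _ (hle i j h)
  have hmonoG : ∀ i j, i ≤ j → S.G (z i) ⊆ S.G (z j) := fun i j h => hS.leG _ _ (hle i j h)
  have hcB : ∀ x : E, ∃ c, x ∈ HH → x ∉ S.H t → (c = i0 ∨ c ∈ D) ∧ x ∉ S.H (z c) ∧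
      ∀ d ∈ D, c < d → x ∈ S.H (z d) := by
    intro x
    by_cases h : x ∈ HH ∧ x ∉ S.H t
    · obtain ⟨c, h1, h2, h3⟩ := block D hD (fun i => S.H (z i)) hmono hcont i0 hi0 x
        (mem_iUnion.1 h.1) (by rw [hH0]; exact h.2)
      exact ⟨c, fun _ _ => ⟨h1, h2, h3⟩⟩
    · exact ⟨i0, fun h1 h2 => absurd ⟨h1, h2⟩ h⟩
  choose cB hcB using hcB
  -- the treated man at a stage
  have hopt : ∀ c : ι, ∃ o : Option E, (∀ m, m ∈ A \ HH → τ m = c → o = some m) ∧
      ∀ m, o = some m → m ∈ A \ HH ∧ τ m = c := by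
    intro c
    by_cases h : ∃ m, m ∈ A \ HH ∧ τ m = c
    · obtain ⟨m, hm, hmc⟩ := h
      refine ⟨some m, ?_, ?_⟩
      · intro m' hm' hm'c
        rw [hτinj hm' hm (hm'c.trans hmc.symm)]
      · intro m' hm'
        have : m = m' := by simpa using hm'
        rw [← this]
        exact ⟨hm, hmc⟩
    · refine ⟨none, ?_, ?_⟩
      · intro m hm hmc
        exact absurd ⟨m, hm, hmc⟩ h
      · intro m hm
        simp at hm
  choose opt hopt1 hopt2 using hopt
  -- the block matchings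
  have hblk : ∀ c, c = i0 ∨ c ∈ D →
      Mat N (((S.H (z (nx c)) \ S.H (z c)) ∩ Pm) \ {x | opt c = some x})
        ((S.G (z c))ᶜ \ {y | ∃ a, opt c = some a ∧ wM (z c) a = y})
        (fM (z c) (z (nx c)) (opt c)) := by
    intro c hc
    apply hfM
    have hsub : (((S.H (z (nx c)) \ S.H (z c)) ∩ Pm) \ {x | opt c = some x}) ⊆
        P \ S.H (z c) := fun x hx => ⟨hPm hx.1.2, hx.1.1.2⟩
    have h1 : Mbl N (((S.H (z (nx c)) \ S.H (z c)) ∩ Pm) \ {x | opt c = some x})
        (S.G (z c))ᶜ := by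
      apply hFr c hc _ hsub
      refine defLt_mono (hdf2 c (nx c) (hnx c).2.1.le) (fun x hx => hx.1.1) ?_ le_rfl
      intro y hy
      exact hy.2
    cases ho : opt c with
    | none =>
      rw [ho] at h1
      have : ((S.G (z c))ᶜ \ {y | ∃ a, (none : Option E) = some a ∧ wM (z c) a = y}) =
          (S.G (z c))ᶜ := by
        ext y
        simp
      rw [this]
      exact h1
    | some m =>
      rw [ho] at h1 hsub
      obtain ⟨hm, hmc⟩ := hopt2 c m ho
      have hmP : m ∈ P \ S.H (z c) := by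
        refine ⟨hPm (hAPm hm.1).1, fun h => hm.2 (mem_iUnion.2 ⟨c, h⟩)⟩
      have h2 := (hwM (z c) m (hOF c hc) hmP).2.2 _ ?_ h1
      · have : ((S.G (z c))ᶜ \ {y | ∃ a, (some m : Option E) = some a ∧ wM (z c) a = y}) =
            (S.G (z c))ᶜ \ {wM (z c) m} := by
          ext y
          simp [eq_comm]
        rw [this]
        exact h2
      · intro x hx
        refine ⟨hsub hx, ?_⟩
        intro hxm
        apply hx.2
        have : x = m := hxm
        rw [this]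
        rfl
  set f : E → E := fun x => if x ∈ HH then fM (z (cB x)) (z (nx (cB x))) (opt (cB x)) x
    else wM (z (τ x)) x with hfdef
  set σ : E → ι := fun x => if x ∈ HH then cB x else τ x with hσdef
  set Dom : Set E := ((HH \ S.H t) ∩ Pm) ∪ (A \ HH) with hDom
  have hσ : ∀ x ∈ Dom, σ x = i0 ∨ σ x ∈ D := by
    intro x hx
    by_cases h : x ∈ HH
    · have hσx : σ x = cB x := if_pos h
      have hxt : x ∉ S.H t := by
        rcases hx with hx | hx
        · exact hx.1.2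
        · exact absurd h hx.2
      rw [hσx]
      exact (hcB x h hxt).1
    · have hσx : σ x = τ x := if_neg h
      have hxA : x ∈ A \ HH := by
        rcases hx with hx | hx
        · exact absurd hx.1.1 h
        · exact hx
      rw [hσx]
      exact Or.inr (hτ x hxA).1
  have hblkx : ∀ x ∈ HH, x ∉ S.H t → x ∈ Pm →
      x ∈ ((S.H (z (nx (cB x))) \ S.H (z (cB x))) ∩ Pm) \ {x' | opt (cB x) = some x'} := by
    intro x h hxt hxP
    obtain ⟨h1, h2, h3⟩ := hcB x h hxt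
    refine ⟨⟨⟨h3 _ (hnx _).1 (hnx _).2.1, h2⟩, hxP⟩, ?_⟩
    intro hx
    exact (hopt2 _ _ hx).1.2 h
  have hfN : ∀ x ∈ Dom, f x ∈ N x := by
    intro x hx
    by_cases h : x ∈ HH
    · have hfx : f x = fM (z (cB x)) (z (nx (cB x))) (opt (cB x)) x := if_pos h
      have hx' : x ∉ S.H t ∧ x ∈ Pm := by
        rcases hx with hx | hx
        · exact ⟨hx.1.2, hx.2⟩
        · exact absurd h hx.2
      rw [hfx]
      exact ((hblk _ (hcB x h hx'.1).1).2 x (hblkx x h hx'.1 hx'.2)).1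
    · have hfx : f x = wM (z (τ x)) x := if_neg h
      have hxA : x ∈ A \ HH := by
        rcases hx with hx | hx
        · exact absurd hx.1.1 h
        · exact hx
      rw [hfx]
      refine (hwM (z (τ x)) x (hOF _ (Or.inr (hτ x hxA).1)) ⟨hPm (hAPm hxA.1).1, ?_⟩).1
      exact fun h' => h (mem_iUnion.2 ⟨_, h'⟩)
  have hfnot : ∀ x ∈ Dom, f x ∉ S.G (z (σ x)) := by
    intro x hx
    by_cases h : x ∈ HH
    · have hfx : f x = fM (z (cB x)) (z (nx (cB x))) (opt (cB x)) x := if_pos h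
      have hσx : σ x = cB x := if_pos h
      have hx' : x ∉ S.H t ∧ x ∈ Pm := by
        rcases hx with hx | hx
        · exact ⟨hx.1.2, hx.2⟩
        · exact absurd h hx.2
      rw [hfx, hσx]
      exact ((hblk _ (hcB x h hx'.1).1).2 x (hblkx x h hx'.1 hx'.2)).2.1
    · have hfx : f x = wM (z (τ x)) x := if_neg h
      have hσx : σ x = τ x := if_neg h
      have hxA : x ∈ A \ HH := by
        rcases hx with hx | hx
        · exact absurd hx.1.1 h
        · exact hx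
      rw [hfx, hσx]
      refine (hwM (z (τ x)) x (hOF _ (Or.inr (hτ x hxA).1)) ⟨hPm (hAPm hxA.1).1, ?_⟩).2.1
      exact fun h' => h (mem_iUnion.2 ⟨_, h'⟩)
  have hfin : ∀ x ∈ Dom, f x ∈ S.G (z (nx (σ x))) := by
    intro x hx
    by_cases h : x ∈ HH
    · have hσx : σ x = cB x := if_pos h
      have hx' : x ∉ S.H t ∧ x ∈ Pm := by
        rcases hx with hx | hx
        · exact ⟨hx.1.2, hx.2⟩
        · exact absurd h hx.2
      rw [hσx]
      exact hS.sat _ x (hblkx x h hx'.1 hx'.2).1.1.1 (hfN x hx)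
    · have hfx : f x = wM (z (τ x)) x := if_neg h
      have hσx : σ x = τ x := if_neg h
      have hxA : x ∈ A \ HH := by
        rcases hx with hx | hx
        · exact absurd hx.1.1 h
        · exact hx
      rw [hfx, hσx]
      refine hwom (τ x) (hτ x hxA).1 x (hLmono _ _ (hτ x hxA).2 (hcc x hxA.1)) ?_ _ (hnx _).2.1
      exact fun h' => h (mem_iUnion.2 ⟨_, h'⟩)
  have hfinj : InjOn f Dom := by
    have key : ∀ x ∈ Dom, ∀ x' ∈ Dom, f x = f x' → ¬ σ x < σ x' := by
      intro x hx x' hx' he hlt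
      have h1 : σ x' ∈ D := by
        rcases hσ x' hx' with h | h
        · rw [h] at hlt
          exact absurd hlt (not_lt.2 (hi0 _))
        · exact h
      have h2 : nx (σ x) ≤ σ x' := (hnx (σ x)).2.2 _ h1 hlt
      apply hfnot x' hx'
      rw [← he]
      exact hmonoG _ _ h2 (hfin x hx)
    have mixed : ∀ x ∈ Dom, ∀ x' ∈ Dom, x ∈ HH → x' ∉ HH → σ x = σ x' → f x ≠ f x' := by
      intro x hx x' hx' h h' hσe he
      have hfx : f x = fM (z (cB x)) (z (nx (cB x))) (opt (cB x)) x := if_pos h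
      have hσx : σ x = cB x := if_pos h
      have hfx' : f x' = wM (z (τ x')) x' := if_neg h'
      have hσx' : σ x' = τ x' := if_neg h'
      have hx1 : x ∉ S.H t ∧ x ∈ Pm := by
        rcases hx with hx | hx
        · exact ⟨hx.1.2, hx.2⟩
        · exact absurd h hx.2
      have hxA : x' ∈ A \ HH := by
        rcases hx' with hx' | hx'
        · exact absurd hx'.1.1 h'
        · exact hx'
      have hc : cB x = τ x' := by rw [← hσx, hσe, hσx']
      have h3 := ((hblk _ (hcB x h hx1.1).1).2 x (hblkx x h hx1.1 hx1.2)).2.2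
      apply h3
      refine ⟨x', hopt1 _ x' hxA hc.symm, ?_⟩
      rw [← hfx, he, hfx', hc]
    intro x hx x' hx' he
    have hσe : σ x = σ x' :=
      le_antisymm (not_lt.1 (key x' hx' x hx he.symm)) (not_lt.1 (key x hx x' hx' he))
    by_cases h : x ∈ HH
    · by_cases h' : x' ∈ HH
      · have hfx : f x = fM (z (cB x)) (z (nx (cB x))) (opt (cB x)) x := if_pos h
        have hσx : σ x = cB x := if_pos h
        have hfx' : f x' = fM (z (cB x')) (z (nx (cB x'))) (opt (cB x')) x' := if_pos h'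
        have hσx' : σ x' = cB x' := if_pos h'
        have hx1 : x ∉ S.H t ∧ x ∈ Pm := by
          rcases hx with hx | hx
          · exact ⟨hx.1.2, hx.2⟩
          · exact absurd h hx.2
        have hx1' : x' ∉ S.H t ∧ x' ∈ Pm := by
          rcases hx' with hx' | hx'
          · exact ⟨hx'.1.2, hx'.2⟩
          · exact absurd h' hx'.2
        have hc : cB x = cB x' := by rw [← hσx, hσe, hσx']
        have e1 := hblkx x h hx1.1 hx1.2
        have e2 := hblkx x' h' hx1'.1 hx1'.2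
        rw [hfx, hfx'] at he
        rw [← hc] at e2 he
        exact (hblk _ (hcB x h hx1.1).1).1 e1 e2 he
      · exact absurd he (mixed x hx x' hx' h h' hσe)
    · by_cases h' : x' ∈ HH
      · exact absurd he.symm (mixed x' hx' x hx h' h hσe.symm)
      · have hσx : σ x = τ x := if_neg h
        have hσx' : σ x' = τ x' := if_neg h'
        have hxA : x ∈ A \ HH := by
          rcases hx with hx | hx
          · exact absurd hx.1.1 h
          · exact hx
        have hxA' : x' ∈ A \ HH := by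
          rcases hx' with hx' | hx'
          · exact absurd hx'.1.1 h'
          · exact hx'
        apply hτinj hxA hxA'
        rw [← hσx, hσe, hσx']
  refine ⟨f, A, hOL, hAsub, ?_, ?_⟩
  · intro x hx k hk hνk
    by_cases h : x ∈ HH
    · have hfx : f x = fM (z (cB x)) (z (nx (cB x))) (opt (cB x)) x := if_pos h
      rw [hfx] at hνk
      refine hcl2 k hk (cB x) (nx (cB x)) (opt (cB x)) ?_ x hx hνk
      intro a ha
      exact (hopt2 _ a ha).1.1
    · have hfx : f x = wM (z (τ x)) x := if_neg h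
      rw [hfx] at hνk
      exact hcl1 k hk (τ x) x hx hνk
  · intro S' hS' hcard
    have hβ : ∀ x : E, ∃ i, (x ∈ HH → x ∈ S.H (z i)) ∧ (x ∉ HH → i = τ x) := by
      intro x
      by_cases h : x ∈ HH
      · obtain ⟨i, hi⟩ := mem_iUnion.1 h
        exact ⟨i, fun _ => hi, fun h' => absurd h h'⟩
      · exact ⟨τ x, fun h' => absurd h' h, fun _ => rfl⟩
    choose β hβ1 hβ2 using hβ
    obtain ⟨b0, hb0⟩ := hι.bdd (β '' S') (lt_of_le_of_lt Cardinal.mk_image_le hcard)
    obtain ⟨d, hdD, hbd⟩ := hD.cof b0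
    refine ⟨z d, {m | m ∈ A \ HH ∧ τ m < d}, htle d, hUf d hdD, hlam d, hdf d, ?_, ?_, ?_, ?_⟩
    · intro m hm
      exact (hAPm hm.1.1).1
    · rw [Set.disjoint_left]
      intro m hm hm'
      exact hm.1.2 (mem_iUnion.2 ⟨d, hm'⟩)
    · intro x hx
      by_cases h : x ∈ HH
      · left
        exact hmono _ _ ((hb0 _ ⟨x, hx, rfl⟩).trans hbd).le (hβ1 x h)
      · right
        refine ⟨⟨hS' hx, h⟩, ?_⟩
        rw [← hβ2 x h]
        exact (hb0 _ ⟨x, hx, rfl⟩).trans hbd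
    · have hsubD : (((S.H (z d) \ S.H t) ∩ Pm) ∪ {m | m ∈ A \ HH ∧ τ m < d}) ⊆ Dom := by
        rintro x (hx | hx)
        · exact Or.inl ⟨⟨mem_iUnion.2 ⟨d, hx.1.1⟩, hx.1.2⟩, hx.2⟩
        · exact Or.inr hx.1
      refine ⟨hfinj.mono hsubD, ?_⟩
      intro x hx
      have hxD := hsubD hx
      have hσd : σ x < d := by
        rcases hx with hx | hx
        · have h : x ∈ HH := mem_iUnion.2 ⟨d, hx.1.1⟩
          have hσx : σ x = cB x := if_pos h
          rw [hσx]
          by_contra hcon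
          exact (hcB x h hx.1.2).2.1 (hmono _ _ (not_lt.1 hcon) hx.1.1)
        · have hσx : σ x = τ x := if_neg hx.1.2
          rw [hσx]
          exact hx.2
      refine ⟨hfN x hxD, hmonoG _ _ ((hnx (σ x)).2.2 d hdD hσd) (hfin x hxD), ?_⟩
      intro h
      apply hfnot x hxD
      apply hmonoG i0 (σ x) (hi0 _)
      rw [hG0]
      exact h

end Pool.Agent.FLX
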