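import Pool.Agent.FLX.Defs

namespace Pool.Agent.FLX

open Set Cardinal Pool.Agent.FLM

universe u w

variable {E : Type w}

/-- The list operation. -/
def nlOp {ι : Type w} {St : Type w} (e : ι → E) (O K : Set E) (ν : E → E) (wM : St → E → E)
    (fM : St → St → Option E → E → E) (i : ι) (Hs : Set St) (L : Set E) : Set E :=
  L ∪ ({e i} ∩ O) ∪ {k | k ∈ K ∧ ∃ v ∈ Hs, ∃ a ∈ L, ν k = wM v a} ∪
    {k | k ∈ K ∧ ∃ v ∈ Hs, ∃ v' ∈ Hs, ∃ o : Option E, (∀ a ∈ o, a ∈ L) ∧ ∃ x ∈ L,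
      ν k = fM v v' o x}

theorem lst_prod {X Y : Type w} {κ : Cardinal.{w}} (hκ : ℵ₀ ≤ κ) (s : Set X) (t : Set Y)
    (hs : Cardinal.mk ↥s < κ) (ht : Cardinal.mk ↥t < κ) : Cardinal.mk ↥(s ×ˢ t) < κ := by
  rw [Cardinal.mk_setProd]
  simpa using Cardinal.mul_lt_of_lt hκ hs ht

theorem lst_inj {X : Type w} {κ : Cardinal.{w}} (ν : E → E) (S : Set E) (hν : InjOn ν S)
    (T : Set X) (g : X → E) (hg : ∀ k ∈ S, ∃ t ∈ T, ν k = g t) (hT : Cardinal.mk ↥T < κ) :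
    Cardinal.mk ↥S < κ := by
  rw [← Cardinal.mk_image_eq_of_injOn ν S hν]
  refine lt_of_le_of_lt (Cardinal.mk_le_mk_of_subset (t := g '' T) ?_)
    (lt_of_le_of_lt Cardinal.mk_image_le hT)
  rintro _ ⟨k, hk, rfl⟩
  obtain ⟨t, ht, h⟩ := hg k hk
  exact ⟨t, ht, h.symm⟩

theorem nlOp_card {ι : Type w} {St : Type w} {κ : Cardinal.{w}} (hκ : κ.IsRegular)
    (hκ' : ℵ₀ < κ) (e : ι → E) (O K : Set E) (ν : E → E) (hν : InjOn ν K) (wM : St → E → E)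
    (fM : St → St → Option E → E → E) (i : ι) (Hs : Set St) (L : Set E)
    (hHs : Cardinal.mk ↥Hs < κ) (hL : Cardinal.mk ↥L < κ) :
    Cardinal.mk ↥(nlOp e O K ν wM fM i Hs L) < κ := by
  have hk0 : ℵ₀ ≤ κ := hκ'.le
  have hone : (1 : Cardinal.{w}) < κ := lt_of_lt_of_le Cardinal.one_lt_aleph0 hk0
  have h2 : Cardinal.mk ↥({e i} ∩ O) < κ :=
    lt_of_le_of_lt (Cardinal.mk_le_mk_of_subset inter_subset_left) (by
      rw [Cardinal.mk_singleton]; exact hone)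
  have h3 : Cardinal.mk ↥{k | k ∈ K ∧ ∃ v ∈ Hs, ∃ a ∈ L, ν k = wM v a} < κ := by
    refine lst_inj ν _ (hν.mono fun k hk => hk.1) (Hs ×ˢ L) (fun p => wM p.1 p.2) ?_
      (lst_prod hk0 _ _ hHs hL)
    rintro k ⟨-, v, hv, a, ha, h⟩
    exact ⟨(v, a), ⟨hv, ha⟩, h⟩
  have ho : Cardinal.mk ↥(insert none (some '' L) : Set (Option E)) < κ := by
    refine lt_of_le_of_lt (Cardinal.mk_insert_le) ?_
    exact Cardinal.add_lt_of_lt hk0 (lt_of_le_of_lt Cardinal.mk_image_le hL) hone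
  have h4 : Cardinal.mk ↥{k | k ∈ K ∧ ∃ v ∈ Hs, ∃ v' ∈ Hs, ∃ o : Option E,
      (∀ a ∈ o, a ∈ L) ∧ ∃ x ∈ L, ν k = fM v v' o x} < κ := by
    refine lst_inj ν _ (hν.mono fun k hk => hk.1)
      (Hs ×ˢ (Hs ×ˢ ((insert none (some '' L) : Set (Option E)) ×ˢ L)))
      (fun p => fM p.1 p.2.1 p.2.2.1 p.2.2.2) ?_
      (lst_prod hk0 _ _ hHs (lst_prod hk0 _ _ hHs (lst_prod hk0 _ _ ho hL)))
    rintro k ⟨-, v, hv, v', hv', o, hoL, x, hx, h⟩
    refine ⟨(v, v', o, x), ⟨hv, hv', ?_, hx⟩, h⟩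
    cases o with
    | none => exact Or.inl rfl
    | some a => exact Or.inr ⟨a, hoL a rfl, rfl⟩
  unfold nlOp
  refine lt_of_le_of_lt (Cardinal.mk_union_le _ _) (Cardinal.add_lt_of_lt hk0 ?_ h4)
  refine lt_of_le_of_lt (Cardinal.mk_union_le _ _) (Cardinal.add_lt_of_lt hk0 ?_ h3)
  exact lt_of_le_of_lt (Cardinal.mk_union_le _ _) (Cardinal.add_lt_of_lt hk0 hL h2)

theorem list_card {ι : Type w} [LinearOrder ι] [WellFoundedLT ι] {κ : Cardinal.{w}}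
    (hι : Idx ι κ) {St : Type w} (e : ι → E) (O K : Set E) (ν : E → E) (hν : InjOn ν K)
    (wM : St → E → E) (fM : St → St → Option E → E → E) (z : ι → St) (L : ι → Set E)
    (hL : ∀ j, L j = ⋃ i ∈ Iio j, nlOp e O K ν wM fM i (z '' Iic i) (L i)) (i : ι) :
    Cardinal.mk ↥(L i) < κ := by
  induction i using WellFoundedLT.induction with
  | ind i ih =>
    rw [hL i, Cardinal.card_biUnion_lt_iff_forall_of_isRegular hι.reg (hι.iio i)]
    intro j hj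
    refine nlOp_card hι.reg hι.unc e O K ν hν wM fM j _ _ ?_ (ih j hj)
    refine lt_of_le_of_lt Cardinal.mk_image_le ?_
    rw [← Iio_insert]
    refine lt_of_le_of_lt (Cardinal.mk_insert_le) ?_
    exact Cardinal.add_lt_of_lt hι.unc.le (hι.iio j)
      (lt_of_lt_of_le Cardinal.one_lt_aleph0 hι.unc.le)

end Pool.Agent.FLX
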