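import Pool.Agent.FLX.Defs

namespace Pool.Agent.FLX

open Set Cardinal Pool.Agent.FLM

universe u w

variable {E : Type w}

theorem fod_above {ι : Type w} [LinearOrder ι] {κ : Cardinal.{w}} (hι : Idx ι κ) (a : ι) :
    ∃ b, a < b := by
  have h1 : Cardinal.mk ↥({a} : Set ι) < κ := by
    rw [Cardinal.mk_singleton]
    exact lt_of_lt_of_le Cardinal.one_lt_aleph0 hι.unc.le
  obtain ⟨b, hb⟩ := hι.bdd {a} h1
  exact ⟨b, hb a rfl⟩

theorem fod_iic {ι : Type w} [LinearOrder ι] {κ : Cardinal.{w}} (hι : Idx ι κ) (a : ι) :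
    Cardinal.mk ↥(Iic a) < κ := by
  obtain ⟨b, hb⟩ := fod_above hι a
  refine lt_of_le_of_lt (Cardinal.mk_le_mk_of_subset ?_) (hι.iio b)
  intro x hx
  exact lt_of_le_of_lt hx hb

theorem fod_step {ι : Type w} [LinearOrder ι] {κ : Cardinal.{w}} (hι : Idx ι κ) (h : ι → ι)
    (a : ι) : ∃ b, a < b ∧ ∀ i, i ≤ a → h i < b := by
  have h1 : Cardinal.mk ↥(h '' Iic a) < κ :=
    lt_of_le_of_lt Cardinal.mk_image_le (fod_iic hι a)
  obtain ⟨b, hb⟩ := hι.bdd _ h1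
  obtain ⟨c, hc⟩ := fod_above hι a
  rcases le_total b c with hbc | hbc
  · exact ⟨c, hc, fun i hi => lt_of_lt_of_le (hb _ (mem_image_of_mem h hi)) hbc⟩
  · exact ⟨b, lt_of_lt_of_le hc hbc, fun i hi => hb _ (mem_image_of_mem h hi)⟩

theorem fod_club {ι : Type w} [LinearOrder ι] [WellFoundedLT ι] {κ : Cardinal.{w}}
    (hι : Idx ι κ) (h : ι → ι) : Club {j : ι | IsLim j ∧ ∀ i, i < j → h i < j} := by
  refine ⟨?_, ?_, ?_⟩
  · intro a
    choose nx hnx1 hnx2 using fod_step hι h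
    let s : ℕ → ι := fun n => Nat.rec a (fun _ x => nx x) n
    have hs0 : s 0 = a := rfl
    have hs1 : ∀ n, s (n + 1) = nx (s n) := fun n => rfl
    have hcard : Cardinal.mk ↥(range s) < κ := by
      refine lt_of_le_of_lt ?_ hι.unc
      have h2 : (range s).Countable := countable_range s
      exact h2.le_aleph0
    obtain ⟨b, hb⟩ := hι.bdd _ hcard
    let U : Set ι := {x | ∀ n, s n < x}
    have hU : U.Nonempty := ⟨b, fun n => hb _ (mem_range_self n)⟩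
    let j := WellFounded.min (wellFounded_lt (α := ι)) U hU
    have hj : ∀ n, s n < j := WellFounded.min_mem (wellFounded_lt (α := ι)) U hU
    have hmin : ∀ i, i < j → ∃ n, i ≤ s n := by
      intro i hi
      refine Classical.byContradiction fun hcon => ?_
      have : i ∈ U := fun n => lt_of_not_ge fun h' => hcon ⟨n, h'⟩
      exact WellFounded.not_lt_min (wellFounded_lt (α := ι)) U this hi
    refine ⟨j, ⟨⟨⟨a, hj 0⟩, ?_⟩, ?_⟩, hj 0⟩
    · intro i hi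
      obtain ⟨n, hn⟩ := hmin i hi
      refine ⟨s (n + 1), lt_of_le_of_lt hn ?_, hj (n + 1)⟩
      rw [hs1]
      exact hnx1 _
    · intro i hi
      obtain ⟨n, hn⟩ := hmin i hi
      refine lt_trans (hnx2 (s n) i hn) ?_
      rw [← hs1]
      exact hj (n + 1)
  · intro j hj hd
    refine ⟨⟨hj, ?_⟩, ?_⟩
    · intro i hi
      obtain ⟨d, _, h1, h2⟩ := hd i hi
      exact ⟨d, h1, h2⟩
    · intro i hi
      obtain ⟨d, hdD, h1, h2⟩ := hd i hi
      exact lt_trans (hdD.2 i h1) h2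
  · intro d hd
    exact hd.1

theorem fod {ι : Type w} [LinearOrder ι] [WellFoundedLT ι] {κ : Cardinal.{w}} (hι : Idx ι κ)
    (Lu : ι → Set E) (hsz : ∀ i, Cardinal.mk ↥(Lu i) < κ) (Bad : Set ι) (g : ι → E)
    (hg : ∀ i ∈ Bad, g i ∈ Lu i) (hinj : InjOn g Bad)
    (hlim : ∀ j, IsLim j → ∀ y ∈ Lu j, ∃ i < j, y ∈ Lu i) :
    ∃ D : Set ι, Club D ∧ ∀ d ∈ D, d ∉ Bad := by
  have hb : ∀ i : ι, ∃ b, ∀ x ∈ {j | j ∈ Bad ∧ g j ∈ Lu i}, x < b := by
    intro i
    apply hι.bdd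
    refine lt_of_le_of_lt ?_ (hsz i)
    let f : ↥{j | j ∈ Bad ∧ g j ∈ Lu i} → ↥(Lu i) := fun x => ⟨g x.1, x.2.2⟩
    have hf : Function.Injective f := by
      intro x y hxy
      have h1 : g x.1 = g y.1 := congrArg Subtype.val hxy
      exact Subtype.ext (hinj x.2.1 y.2.1 h1)
    exact Cardinal.mk_le_of_injective hf
  choose h hh using hb
  refine ⟨{j : ι | IsLim j ∧ ∀ i, i < j → h i < j}, fod_club hι h, ?_⟩
  intro d hd hbad
  obtain ⟨i, hi, hy⟩ := hlim d hd.1 (g d) (hg d hbad)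
  have h1 : d < h i := hh i d ⟨hbad, hy⟩
  have h2 : h i < d := hd.2 i hi
  exact absurd (lt_trans h1 h2) (lt_irrefl d)

end Pool.Agent.FLX
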