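import Pool.Agent.FLX.TowA
import Pool.Agent.FLX.Fod

namespace Pool.Agent.FLX

open Set Cardinal Pool.Agent.FLM

universe u w

variable {E : Type w}

theorem tow_club {ι : Type w} [LinearOrder ι] [WellFoundedLT ι] {κ : Cardinal.{w}}
    (hι : Idx ι κ) {S : Sys E} {N : E → Set E}
    {P : Set E} (hS : S.Good N P) {t : S.St} {stp : S.St → Set E → S.St}
    (hstp : ∀ s L, S.le s (stp s L)) {nl : ι → Set S.St → Set E → Set E}
    {z : ι → S.St} {L : ι → Set E} (h : TowD S t stp nl z L) (b : S.St) (hbt : S.le b t)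
    (hLam : ∀ i, Cardinal.mk ↥(S.Lam (z i) \ S.Lam b) < κ)
    (hb : ∀ i, S.Lam b ⊆ S.Lam (stp (z i) (L i))) :
    ∃ D : Set ι, Club D ∧ ∀ d ∈ D, S.Lam (z d) ⊆ S.Lam (stp (z d) (L d)) := by
  classical
  by_cases hne : ∃ i, ¬ S.Lam (z i) ⊆ S.Lam (stp (z i) (L i))
  · obtain ⟨i0, hi0⟩ := hne
    obtain ⟨e0, -⟩ := not_subset.1 hi0
    have hex : ∀ i, ∃ e : E, ¬ S.Lam (z i) ⊆ S.Lam (stp (z i) (L i)) →
        e ∈ S.Lam (z i) ∧ e ∉ S.Lam (stp (z i) (L i)) := by
      intro i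
      by_cases hi : S.Lam (z i) ⊆ S.Lam (stp (z i) (L i))
      · exact ⟨e0, fun h => absurd hi h⟩
      · obtain ⟨e, he, he'⟩ := not_subset.1 hi
        exact ⟨e, fun _ => ⟨he, he'⟩⟩
    choose g hg using hex
    obtain ⟨D, hD, hDB⟩ := fod hι (fun i => S.Lam (z i) \ S.Lam b) hLam
      {i | ¬ S.Lam (z i) ⊆ S.Lam (stp (z i) (L i))} g
      (fun i hi => ⟨(hg i hi).1, fun hm => (hg i hi).2 (hb i hm)⟩)
      (by
        have key : ∀ i j, i < j → ¬ S.Lam (z i) ⊆ S.Lam (stp (z i) (L i)) →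
            ¬ S.Lam (z j) ⊆ S.Lam (stp (z j) (L j)) → g i ≠ g j := by
          intro i j hij hi hj he
          have h1 := hg i hi
          have h2 := hg j hj
          rw [← he] at h2
          exact h1.2 (hS.leL _ _ (h.sle i j hij)
            ⟨h2.1, hS.leG _ _ (hstp _ _) (hS.lamG _ h1.1)⟩)
        intro i hi j hj he
        rcases lt_trichotomy i j with hij | hij | hij
        · exact absurd he (key i j hij hi hj)
        · exact hij
        · exact absurd he.symm (key j i hij hj hi))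
      (by
        rintro j hj y ⟨hy, hyb⟩
        obtain ⟨i, hi, hyi⟩ := (tow_lim hS hstp h j hj).2 y hy
        exact ⟨i, hi, hyi, hyb⟩)
    exact ⟨D, hD, fun d hd => not_not.1 (hDB d hd)⟩
  · push Not at hne
    obtain ⟨D, hD, -⟩ := fod (E := PUnit.{w + 1}) hι (fun _ => ∅)
      (fun _ => by
        rw [mk_eq_zero]
        exact hι.reg.pos) ∅
      (fun _ => PUnit.unit) (fun i hi => absurd hi (notMem_empty i)) (by simp [InjOn])
      (fun j _ y hy => absurd hy (notMem_empty y))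
    exact ⟨D, hD, fun d _ => hne d⟩

end Pool.Agent.FLX
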