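import Pool.Agent.FLX.Defs

namespace Pool.Agent.FLX

open Set Cardinal Pool.Agent.FLM

universe u w

variable {E : Type w}

theorem add_women (S : Sys E) {N : E → Set E} {P : Set E} (hS : S.Good N P) (s : S.St)
    (W : Set E) : ∃ t, S.le s t ∧ S.G t = S.G s ∪ W ∧ S.H t = S.H s := by
  have hz : ∀ c : Set {t : S.St // S.le s t ∧ S.G t ⊆ S.G s ∪ W ∧ S.H t = S.H s},
      IsChain (fun a b => S.le a.1 b.1) c →
        ∃ ub : {t : S.St // S.le s t ∧ S.G t ⊆ S.G s ∪ W ∧ S.H t = S.H s},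
          ∀ a ∈ c, S.le a.1 ub.1 := by
    intro c hc
    rcases c.eq_empty_or_nonempty with h0 | h0
    · refine ⟨⟨s, hS.refl s, subset_union_left, rfl⟩, ?_⟩
      intro a ha
      rw [h0] at ha
      exact absurd ha (notMem_empty a)
    · obtain ⟨t, ht1, ht2, ht3, -⟩ := hS.chain (Subtype.val '' c) (h0.image _) (by
        rintro _ ⟨a, ha, rfl⟩ _ ⟨b, hb, rfl⟩
        by_cases hab : a = b
        · rw [hab]; exact Or.inl (hS.refl _)
        · exact hc ha hb hab)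
      obtain ⟨a0, ha0⟩ := h0
      refine ⟨⟨t, hS.trans _ _ _ a0.2.1 (ht1 _ ⟨a0, ha0, rfl⟩), ?_, ?_⟩, ?_⟩
      · rw [ht2]
        refine iUnion₂_subset ?_
        rintro _ ⟨a, ha, rfl⟩
        exact a.2.2.1
      · rw [ht3]
        apply Set.Subset.antisymm
        · refine iUnion₂_subset ?_
          rintro _ ⟨a, ha, rfl⟩
          exact a.2.2.2.le
        · intro x hx
          exact mem_iUnion₂.2 ⟨a0.1, ⟨a0, ha0, rfl⟩, by rw [a0.2.2.2]; exact hx⟩
      · intro a ha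
        exact ht1 _ ⟨a, ha, rfl⟩
  obtain ⟨m, hm⟩ := exists_maximal_of_chains_bounded hz
    (fun {a b c} h1 h2 => hS.trans _ _ _ h1 h2)
  refine ⟨m.1, m.2.1, ?_, m.2.2.2⟩
  apply Set.Subset.antisymm m.2.2.1
  apply union_subset (hS.leG _ _ m.2.1)
  intro w hw
  by_contra hw2
  obtain ⟨t, ht1, ht2, ht3⟩ := hS.woman m.1 w hw2
  have h4 := hm ⟨t, hS.trans _ _ _ m.2.1 ht1, by
    rw [ht2]
    exact insert_subset (Or.inr hw) m.2.2.1, by rw [ht3]; exact m.2.2.2⟩ ht1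
  have h5 := hS.leG _ _ h4
  apply hw2
  apply h5
  show w ∈ S.G t
  rw [ht2]
  exact mem_insert _ _

end Pool.Agent.FLX
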