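import Pool.Agent.FLX.Tow
import Pool.Agent.FLX.TowB
import Pool.Agent.FLX.Lst
import Pool.Agent.FLX.Wom

namespace Pool.Agent.FLX

open Set Cardinal Pool.Agent.FLM

universe u w

variable {E : Type w}

theorem coreT_defLt_empty {N : E → Set E} {Q : Set E} {κ : Cardinal.{w}} (hκ : ℵ₀ < κ) :
    DefLt N ∅ Q κ := by
  refine ⟨∅, subset_rfl, ⟨id, ?_⟩, ?_⟩
  · exact ⟨injOn_empty _, fun x hx => absurd hx (notMem_empty x)⟩
  · rw [sdiff_self, mk_eq_zero]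
    exact lt_of_le_of_lt zero_le hκ

/-- The successor operation. -/
theorem coreT_step {κ : Cardinal.{w}} (hκ' : ℵ₀ < κ) (S : Sys E) {N : E → Set E} {P : Set E}
    (hS : S.Good N P) (wM : S.St → E → E) (s : S.St) (L : Set E) :
    ∃ t, S.le s t ∧ (Cardinal.mk ↥L < κ → Cardinal.mk ↥(S.Lam t \ S.Lam s) < κ) ∧
      DefLt N (S.H t \ S.H s) (S.G t \ S.G s) κ ∧ (S.Lam s ⊆ S.Lam t → Uf S N s κ) ∧
      (Uf S N s κ → ∀ a ∈ L, a ∉ S.H s → wM s a ∈ S.G t) := by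
  by_cases hU : Uf S N s κ
  · obtain ⟨t, ht1, ht2, ht3⟩ := add_women S hS s (wM s '' L)
    refine ⟨t, ht1, ?_, ?_, fun _ => hU, ?_⟩
    · intro hL
      have hsub : S.Lam t \ S.Lam s ⊆ wM s '' L := by
        rintro y ⟨hy1, hy2⟩
        have hy3 := hS.lamG t hy1
        rw [ht2] at hy3
        rcases hy3 with hy3 | hy3
        · exact absurd (hS.leL s t ht1 ⟨hy1, hy3⟩) hy2
        · exact hy3
      exact lt_of_le_of_lt ((mk_le_mk_of_subset hsub).trans mk_image_le) hL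
    · rw [ht3, sdiff_self]
      exact coreT_defLt_empty hκ'
    · intro _ a ha _
      rw [ht2]
      exact Or.inr ⟨a, ha, rfl⟩
  · have hU2 := hU
    unfold Uf at hU2
    push Not at hU2
    obtain ⟨t, ht1, ht2, ht3, ht4⟩ := hU2
    exact ⟨t, ht1, fun _ => ht2, ht3, fun h => absurd h ht4, fun h => absurd h hU⟩

theorem coreT_gen {ι : Type w} [LinearOrder ι] [WellFoundedLT ι] {κ : Cardinal.{w}}
    (hι : Idx ι κ) (S : Sys E) {N : E → Set E} {P : Set E} (hS : S.Good N P) (b t : S.St)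
    (hbt : S.le b t) (hUb : Uf S N b κ) (hLam : Cardinal.mk ↥(S.Lam t \ S.Lam b) < κ)
    (hdef : DefLt N (S.H t \ S.H b) (S.G t \ S.G b) κ) (wM : S.St → E → E)
    (nl : ι → Set S.St → Set E → Set E)
    (hnl : ∀ (z : ι → S.St) (L : ι → Set E), (∀ j, L j = ⋃ i ∈ Iio j, nl i (z '' Iic i) (L i)) →
      ∀ i, Cardinal.mk ↥(L i) < κ) :
    ∃ (z : ι → S.St) (L : ι → Set E) (D : Set ι), Club D ∧
      (∀ i j, i ≤ j → S.le (z i) (z j)) ∧ (∀ i, S.le t (z i)) ∧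
      (∀ i, (∀ j, i ≤ j) → S.G (z i) = S.G t ∧ S.H (z i) = S.H t) ∧
      (∀ d ∈ D, ∀ x ∈ S.H (z d), ∃ i < d, x ∈ S.H (z i)) ∧
      (∀ i, Cardinal.mk ↥(S.Lam (z i) \ S.Lam b) < κ) ∧
      (∀ i, DefLt N (S.H (z i) \ S.H b) (S.G (z i) \ S.G b) κ) ∧
      (∀ i j, i ≤ j → DefLt N (S.H (z j) \ S.H (z i)) (S.G (z j) \ S.G (z i)) κ) ∧
      (∀ d ∈ D, Uf S N (z d) κ) ∧
      (∀ j, L j = ⋃ i ∈ Iio j, nl i (z '' Iic i) (L i)) ∧
      (∀ i, Cardinal.mk ↥(L i) < κ) ∧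
      (∀ d ∈ D, ∀ a ∈ L d, a ∉ S.H (z d) → ∀ j, d < j → wM (z d) a ∈ S.G (z j)) := by
  have hκ' := hι.unc
  have hκ0 : ℵ₀ ≤ κ := hκ'.le
  choose stp hs1 hs2 hs3 hs4 hs5 using coreT_step hκ' S hS wM
  obtain ⟨z, L, h⟩ := tower S hS t stp hs1 nl
  have hL := hnl z L h.tL
  have hle := tow_le hS hs1 h
  have hlam := tow_lam hι hS hs1 h b hbt hLam (fun i => hs2 (z i) (L i) (hL i))
  have htd := tow_def hι hS hs1 h (fun i => hs3 (z i) (L i))
  have hbot : ∀ i, (∀ j, i ≤ j) → S.G (z i) = S.G t ∧ S.H (z i) = S.H t := by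
    intro i hi
    have he : ∀ j, ¬ j < i := fun j => not_lt.2 (hi j)
    constructor
    · rw [h.tG i]; simp [he]
    · rw [h.tH i]; simp [he]
  have hne : Nonempty ι := by
    rw [← mk_ne_zero_iff, hι.card]
    intro h0
    rw [h0] at hκ'
    exact absurd hκ' (not_lt.2 zero_le)
  obtain ⟨i0, hi0⟩ : ∃ i0 : ι, ∀ j, i0 ≤ j := by
    obtain ⟨i0, -, h0⟩ := WellFounded.has_min (wellFounded_lt (α := ι)) univ univ_nonempty
    exact ⟨i0, fun j => not_lt.1 (h0 j (mem_univ j))⟩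
  obtain ⟨hG0, hH0⟩ := hbot i0 hi0
  -- defect over a chain of three states
  have hcomp : ∀ {a c d : S.St}, S.le a c → S.le c d →
      DefLt N (S.H c \ S.H a) (S.G c \ S.G a) κ → DefLt N (S.H d \ S.H c) (S.G d \ S.G c) κ →
      DefLt N (S.H d \ S.H a) (S.G d \ S.G a) κ := by
    intro a c d hac hcd h1 h2
    have hd : Disjoint (S.G c \ S.G a) (S.G d \ S.G c) := by
      rw [Set.disjoint_left]
      intro y hy1 hy2
      exact hy2.2 hy1.1
    refine defLt_mono (defLt_comp hκ0 h1 h2 hd) ?_ ?_ le_rfl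
    · rintro y ⟨hy1, hy2⟩
      by_cases hy3 : y ∈ S.H c
      · exact Or.inl ⟨hy3, hy2⟩
      · exact Or.inr ⟨hy1, hy3⟩
    · rintro y (⟨hy1, hy2⟩ | ⟨hy1, hy2⟩)
      · exact ⟨hS.leG _ _ hcd hy1, hy2⟩
      · exact ⟨hy1, fun hy3 => hy2 (hS.leG _ _ hac hy3)⟩
  have hdb : ∀ i, DefLt N (S.H (z i) \ S.H b) (S.G (z i) \ S.G b) κ := by
    intro i
    have h1 := htd i0 i (hi0 i)
    rw [hG0, hH0] at h1
    exact hcomp hbt (h.tle i) hdef h1
  have hb : ∀ i, S.Lam b ⊆ S.Lam (stp (z i) (L i)) := by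
    intro i
    have hbz : S.le b (z i) := hS.trans _ _ _ hbt (h.tle i)
    apply hUb _ (hS.trans _ _ _ hbz (hs1 (z i) (L i)))
    · have hsub : S.Lam (stp (z i) (L i)) \ S.Lam b ⊆
          (S.Lam (z i) \ S.Lam b) ∪ (S.Lam (stp (z i) (L i)) \ S.Lam (z i)) := by
        rintro y ⟨hy1, hy2⟩
        by_cases hy3 : y ∈ S.Lam (z i)
        · exact Or.inl ⟨hy3, hy2⟩
        · exact Or.inr ⟨hy1, hy3⟩
      refine lt_of_le_of_lt ((mk_le_mk_of_subset hsub).trans (mk_union_le _ _)) ?_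
      exact add_lt_of_lt hκ0 (hlam i) (hs2 (z i) (L i) (hL i))
    · exact hcomp hbz (hs1 (z i) (L i)) (hdb i) (hs3 (z i) (L i))
  obtain ⟨D, hD, hD2⟩ := tow_club hι hS hs1 h b hbt hlam hb
  have hUf : ∀ d ∈ D, Uf S N (z d) κ := fun d hd => hs4 (z d) (L d) (hD2 d hd)
  refine ⟨z, L, D, hD, hle, h.tle, hbot, ?_, hlam, hdb, htd, hUf, h.tL, hL, ?_⟩
  · intro d hd x hx
    exact (tow_lim hS hs1 h d (hD.lim d hd)).1 x hx
  · intro d hd a ha1 ha2 j hj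
    exact hS.leG _ _ (h.sle d j hj) (hs5 (z d) (L d) (hUf d hd) a ha1 ha2)

theorem core_tower {ι : Type w} [LinearOrder ι] [WellFoundedLT ι] {κ : Cardinal.{w}}
    (hι : Idx ι κ) (S : Sys E) {N : E → Set E} {P : Set E} (hS : S.Good N P) (b t : S.St)
    (hbt : S.le b t) (hUb : Uf S N b κ) (hLam : Cardinal.mk ↥(S.Lam t \ S.Lam b) < κ)
    (hdef : DefLt N (S.H t \ S.H b) (S.G t \ S.G b) κ) (wM : S.St → E → E)
    (fM : S.St → S.St → Option E → E → E) (K O : Set E) (ν : E → E) (hν : InjOn ν K)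
    (hO : Cardinal.mk ↥O ≤ κ) :
    ∃ (z : ι → S.St) (L : ι → Set E) (D : Set ι), Club D ∧
      (∀ i j, i ≤ j → S.le (z i) (z j)) ∧ (∀ i, S.le t (z i)) ∧
      (∀ i, (∀ j, i ≤ j) → S.G (z i) = S.G t ∧ S.H (z i) = S.H t) ∧
      (∀ d ∈ D, ∀ x ∈ S.H (z d), ∃ i < d, x ∈ S.H (z i)) ∧
      (∀ i, Cardinal.mk ↥(S.Lam (z i) \ S.Lam b) < κ) ∧
      (∀ i, DefLt N (S.H (z i) \ S.H b) (S.G (z i) \ S.G b) κ) ∧
      (∀ i j, i ≤ j → DefLt N (S.H (z j) \ S.H (z i)) (S.G (z j) \ S.G (z i)) κ) ∧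
      (∀ d ∈ D, Uf S N (z d) κ) ∧
      (∀ i j, i ≤ j → L i ⊆ L j) ∧ (∀ i, Cardinal.mk ↥(L i) < κ) ∧ (∀ i, L i ⊆ O ∪ K) ∧
      (O ⊆ ⋃ i, L i) ∧
      (∀ d ∈ D, ∀ a ∈ L d, a ∉ S.H (z d) → ∀ j, d < j → wM (z d) a ∈ S.G (z j)) ∧
      (∀ k ∈ K, ∀ i, ∀ a ∈ ⋃ i, L i, ν k = wM (z i) a → k ∈ ⋃ i, L i) ∧
      (∀ k ∈ K, ∀ i j, ∀ o : Option E, (∀ a ∈ o, a ∈ ⋃ i, L i) → ∀ x ∈ ⋃ i, L i,
        ν k = fM (z i) (z j) o x → k ∈ ⋃ i, L i) := by
  rcases isEmpty_or_nonempty E with hE | hE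
  · obtain ⟨z, L, D, h1, h2, h3, h4, h5, h6, h7, h8, h9, -, h11, h12⟩ :=
      coreT_gen hι S hS b t hbt hUb hLam hdef wM (fun _ _ _ => ∅) (by
        intro z L _ i
        have : L i = ∅ := Set.eq_empty_of_isEmpty _
        rw [this, mk_eq_zero]
        exact lt_of_le_of_lt zero_le hι.unc)
    refine ⟨z, L, D, h1, h2, h3, h4, h5, h6, h7, h8, h9, ?_, h11, ?_, ?_, h12, ?_, ?_⟩
    · exact fun _ _ _ x _ => isEmptyElim x
    · exact fun _ x _ => isEmptyElim x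
    · exact fun x _ => isEmptyElim x
    · exact fun x _ => isEmptyElim x
    · exact fun x _ => isEmptyElim x
  · obtain ⟨x0⟩ := hE
    obtain ⟨e, he⟩ : ∃ e : ι → E, ∀ o ∈ O, ∃ i, e i = o := by
      rw [← hι.card] at hO
      obtain ⟨f⟩ := hO
      refine ⟨Function.extend f (fun o => (o : E)) (fun _ => x0), ?_⟩
      intro o ho
      exact ⟨f ⟨o, ho⟩, f.injective.extend_apply _ _ _⟩
    obtain ⟨z, L, D, h1, h2, h3, h4, h5, h6, h7, h8, h9, h10, h11, h12⟩ :=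
      coreT_gen hι S hS b t hbt hUb hLam hdef wM (nlOp e O K ν wM fM)
        (fun z L hzL => list_card hι e O K ν hν wM fM z L hzL)
    have hsub : ∀ i j, i < j → nlOp e O K ν wM fM i (z '' Iic i) (L i) ⊆ L j := by
      intro i j hij
      rw [h10 j]
      intro x hx
      exact mem_iUnion₂.2 ⟨i, hij, hx⟩
    have hmono : ∀ i j, i ≤ j → L i ⊆ L j := by
      intro i j hij
      rcases hij.eq_or_lt with rfl | hlt
      · exact subset_rfl
      · refine Set.Subset.trans ?_ (hsub i j hlt)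
        intro x hx
        exact Or.inl (Or.inl (Or.inl hx))
    have hnext : ∀ i : ι, ∃ j, i < j := by
      intro i
      obtain ⟨j, hj⟩ := hι.bdd {i} (by
        rw [mk_singleton]
        exact lt_trans one_lt_aleph0 hι.unc)
      exact ⟨j, hj i rfl⟩
    refine ⟨z, L, D, h1, h2, h3, h4, h5, h6, h7, h8, h9, hmono, h11, ?_, ?_, h12, ?_, ?_⟩
    · intro i
      induction i using WellFoundedLT.induction with
      | ind i ih =>
        rw [h10 i]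
        refine iUnion₂_subset ?_
        intro j hj
        rintro x (((hx | hx) | hx) | hx)
        · exact ih j hj hx
        · exact Or.inl hx.2
        · exact Or.inr hx.1
        · exact Or.inr hx.1
    · intro o ho
      obtain ⟨i, hi⟩ := he o ho
      obtain ⟨j, hj⟩ := hnext i
      refine mem_iUnion.2 ⟨j, hsub i j hj ?_⟩
      exact Or.inl (Or.inl (Or.inr ⟨hi.symm, ho⟩))
    · intro k hk i a ha hka
      obtain ⟨i', hi'⟩ := mem_iUnion.1 ha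
      obtain ⟨j, hj⟩ := hnext (max i i')
      refine mem_iUnion.2 ⟨j, hsub (max i i') j hj ?_⟩
      refine Or.inl (Or.inr ⟨hk, z i, ⟨i, le_max_left _ _, rfl⟩, a, ?_, hka⟩)
      exact hmono i' _ (le_max_right _ _) hi'
    · intro k hk i j o ho x hx hkx
      obtain ⟨i', hi'⟩ := mem_iUnion.1 hx
      obtain ⟨i'', hi''⟩ : ∃ i'', ∀ a ∈ o, a ∈ L i'' := by
        cases o with
        | none => exact ⟨i, fun a ha => by simp at ha⟩
        | some a =>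
          obtain ⟨i'', h''⟩ := mem_iUnion.1 (ho a rfl)
          refine ⟨i'', fun a' ha' => ?_⟩
          rw [Option.mem_some_iff] at ha'
          rw [← ha']
          exact h''
      obtain ⟨m, hm1, hm2, hm3, hm4⟩ : ∃ m, i ≤ m ∧ j ≤ m ∧ i' ≤ m ∧ i'' ≤ m :=
        ⟨max (max i j) (max i' i''), (le_max_left _ _).trans (le_max_left _ _),
          (le_max_right _ _).trans (le_max_left _ _), (le_max_left _ _).trans (le_max_right _ _),
          (le_max_right _ _).trans (le_max_right _ _)⟩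
      obtain ⟨n, hn⟩ := hnext m
      refine mem_iUnion.2 ⟨n, hsub m n hn ?_⟩
      refine Or.inr ⟨hk, z i, ⟨i, hm1, rfl⟩, z j, ⟨j, hm2, rfl⟩, o, ?_, x, ?_, hkx⟩
      · exact fun a ha => hmono i'' m hm4 (hi'' a ha)
      · exact hmono i' m hm3 hi'

end Pool.Agent.FLX
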