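import Pool.Agent.FLM.Defs

/-!
Definitions for the uncountable case: matchability, one-free pairs, exposure systems.
-/

namespace Pool.Agent.FLX

open Set Cardinal Pool.Agent.FLM

universe u w

variable {E : Type w}

/-- `A` can be matched into `Q`. -/
def Mbl (N : E → Set E) (A Q : Set E) : Prop := ∃ ν, Mat N A Q ν

/-- All of `A` except fewer than `κ` elements can be matched into `Q`. -/
def DefLt (N : E → Set E) (A Q : Set E) (κ : Cardinal.{w}) : Prop :=
  ∃ K, K ⊆ A ∧ Mbl N K Q ∧ Cardinal.mk ↥(A \ K) < κ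

/-- Each subset of `P` that can be matched into `Q` up to one element can be matched into `Q`. -/
def OneFree (N : E → Set E) (P Q : Set E) : Prop :=
  ∀ A, A ⊆ P → ∀ o ∈ A, Mbl N (A \ {o}) Q → Mbl N A Q

/-- The part of `Q` outside the neighbourhood of `F`. -/
def Qt (N : E → Set E) (F Q : Set E) : Set E := {y | y ∈ Q ∧ ∀ x ∈ F, y ∉ N x}

/-- An exposure system (data). -/
structure Sys (E : Type w) where
  /-- states -/
  St : Type w
  /-- the exposed set of a state -/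
  G : St → Set E
  /-- the treated elements of a state -/
  H : St → Set E
  /-- the labels of a state -/
  Lam : St → Set E
  /-- extension of states -/
  le : St → St → Prop

/-- The axioms of an exposure system for the neighbourhoods `N` on the set `P`. -/
structure Sys.Good (S : Sys E) (N : E → Set E) (P : Set E) : Prop where
  refl : ∀ s, S.le s s
  trans : ∀ s t u, S.le s t → S.le t u → S.le s u
  lamG : ∀ s, S.Lam s ⊆ S.G s
  leG : ∀ s t, S.le s t → S.G s ⊆ S.G t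
  leH : ∀ s t, S.le s t → S.H s ⊆ S.H t
  leL : ∀ s t, S.le s t → S.Lam t ∩ S.G s ⊆ S.Lam s
  HP : ∀ s, S.H s ⊆ P
  sat : ∀ s, ∀ x ∈ S.H s, N x ⊆ S.G s
  init : ∃ s, S.G s = ∅ ∧ S.H s = ∅
  woman : ∀ s y, y ∉ S.G s → ∃ t, S.le s t ∧ S.G t = insert y (S.G s) ∧ S.H t = S.H s
  man : ∀ s x, x ∈ P → x ∉ S.H s → N x ⊆ S.G s →
    ∃ t, S.le s t ∧ S.G t = S.G s ∧ S.H t = insert x (S.H s) ∧ ¬ S.Lam s ⊆ S.Lam t
  chain : ∀ c : Set S.St, c.Nonempty → (∀ s ∈ c, ∀ t ∈ c, S.le s t ∨ S.le t s) →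
    ∃ t, (∀ s ∈ c, S.le s t) ∧ S.G t = (⋃ s ∈ c, S.G s) ∧ S.H t = (⋃ s ∈ c, S.H s) ∧
      ∀ g ∈ S.Lam t, ∃ s ∈ c, ∀ v ∈ c, S.le s v → g ∈ S.Lam v

/-- No extension of `s` with fewer than `κ` new labels and defect less than `κ` loses a label. -/
def Uf (S : Sys E) (N : E → Set E) (s : S.St) (κ : Cardinal.{w}) : Prop :=
  ∀ t, S.le s t → Cardinal.mk ↥(S.Lam t \ S.Lam s) < κ →
    DefLt N (S.H t \ S.H s) (S.G t \ S.G s) κ → S.Lam s ⊆ S.Lam t

/-- Each set of remaining elements with defect less than `κ` can be matched into the rest. -/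
def Fr (S : Sys E) (N : E → Set E) (P : Set E) (s : S.St) (κ : Cardinal.{w}) : Prop :=
  ∀ A, A ⊆ P \ S.H s → DefLt N A (S.G s)ᶜ κ → Mbl N A (S.G s)ᶜ

/-- An index order for a regular cardinal. -/
structure Idx (ι : Type w) [LinearOrder ι] (κ : Cardinal.{w}) : Prop where
  reg : κ.IsRegular
  unc : ℵ₀ < κ
  card : Cardinal.mk ι = κ
  iio : ∀ i : ι, Cardinal.mk ↥(Iio i) < κ
  bdd : ∀ T : Set ι, Cardinal.mk ↥T < κ → ∃ b, ∀ x ∈ T, x < b

/-- `j` is a limit element. -/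
def IsLim {ι : Type w} [LinearOrder ι] (j : ι) : Prop :=
  (∃ i, i < j) ∧ ∀ i, i < j → ∃ k, i < k ∧ k < j

/-- `D` is cofinal and closed, and consists of limit elements. -/
structure Club {ι : Type w} [LinearOrder ι] (D : Set ι) : Prop where
  cof : ∀ a, ∃ d ∈ D, a < d
  closed : ∀ j, (∃ i, i < j) → (∀ a, a < j → ∃ d ∈ D, a < d ∧ d < j) → j ∈ D
  lim : ∀ d ∈ D, IsLim d

end Pool.Agent.FLX
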