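import Pool.Agent.FLX.Core

namespace Pool.Agent.FLX

open Set Cardinal Pool.Agent.FLM

universe u w

variable {E : Type w}

theorem full {κ : Cardinal.{w}} (hκ : κ.IsRegular) (hκ' : ℵ₀ < κ) (S : Sys E)
    {N : E → Set E} {P : Set E} (hS : S.Good N P)
    (b t : S.St) (hbt : S.le b t) (hUb : Uf S N b κ)
    (hLam : Cardinal.mk ↥(S.Lam t \ S.Lam b) < κ)
    (hdef : DefLt N (S.H t \ S.H b) (S.G t \ S.G b) κ) (hFt : Fr S N P t κ)
    (hIH : ∀ v, S.le t v → Uf S N v κ → Fr S N P v κ) : Fr S N P t (Order.succ κ) := by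
  classical
  rintro A hA ⟨K, hKA, ⟨ν, hν⟩, hc⟩
  have hc' : Cardinal.mk ↥(A \ K) ≤ κ := Order.lt_succ_iff.mp hc
  obtain ⟨f, A', hOA, hAO, hcl, hT⟩ := core hκ hκ' S hS b t hbt hUb hLam hdef hFt hIH P K (A \ K)
    (le_refl P) (hKA.trans hA) (sdiff_subset.trans hA) hc' ν hν.1
  have hAA : A' ⊆ A := by
    intro x hx
    rcases hAO hx with h | h
    · exact h.1
    · exact hKA h
  have hfin : ∀ S' : Set E, S'.Finite → Cardinal.mk ↥S' < κ := fun S' h =>
    (Cardinal.lt_aleph0_iff_set_finite.mpr h).trans hκ'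
  have key : ∀ x ∈ A', ∀ y ∈ A', (f x = f y → x = y) ∧ f x ∈ N x ∧ f x ∈ (S.G t)ᶜ := by
    intro x hx y hy
    obtain ⟨v, T, -, -, -, -, -, -, hcov, hm⟩ := hT {x, y} (by
      intro z hz
      rcases hz with rfl | hz
      · exact hx
      · rw [mem_singleton_iff.mp hz]; exact hy) (hfin _ (toFinite _))
    have hmem : ∀ z ∈ A', z ∈ S.H v ∪ T → z ∈ ((S.H v \ S.H t) ∩ P) ∪ T := by
      intro z hz h
      rcases h with h | h
      · exact Or.inl ⟨⟨h, (hA (hAA hz)).2⟩, (hA (hAA hz)).1⟩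
      · exact Or.inr h
    have hx' := hmem x hx (hcov (mem_insert _ _))
    have hy' := hmem y hy (hcov (mem_insert_of_mem _ (mem_singleton _)))
    exact ⟨fun h => hm.1 hx' hy' h, (hm.2 x hx').1, (hm.2 x hx').2.2⟩
  have hK : ∀ x ∈ A, x ∉ A' → x ∈ K := by
    intro x hx hx'
    by_contra h
    exact hx' (hOA ⟨hx, h⟩)
  refine ⟨fun x => if x ∈ A' then f x else ν x, ?_, ?_⟩
  · intro x hx y hy hxy
    by_cases h1 : x ∈ A' <;> by_cases h2 : y ∈ A'
    · simp only [h1, h2, if_true] at hxy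
      exact (key x h1 y h2).1 hxy
    · simp only [h1, h2, if_true, if_false] at hxy
      exact absurd (hcl x h1 y (hK y hy h2) hxy.symm) h2
    · simp only [h1, h2, if_true, if_false] at hxy
      exact absurd (hcl y h2 x (hK x hx h1) hxy) h1
    · simp only [h1, h2, if_false] at hxy
      exact hν.1 (hK x hx h1) (hK y hy h2) hxy
  · intro x hx
    by_cases h1 : x ∈ A'
    · simp only [h1, if_true]
      exact (key x h1 x h1).2
    · simp only [h1, if_false]
      exact hν.2 x (hK x hx h1)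

end Pool.Agent.FLX
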