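import Pool.Agent.FLX.Core
import Pool.Agent.FLX.Dl

namespace Pool.Agent.FLX

open Set Cardinal Pool.Agent.FLM

universe u w

variable {E : Type w}

/-- A position over `t` (relative to the base `b`). -/
structure Pos (S : Sys E) (N : E → Set E) (P : Set E) (b t : S.St) (μ : Cardinal.{w})
    (v : S.St) (T : Set E) (f : E → E) : Prop where
  le : S.le t v
  lam : Cardinal.mk ↥(S.Lam v \ S.Lam b) < Order.succ μ
  df : DefLt N (S.H v \ S.H b) (S.G v \ S.G b) (Order.succ μ)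
  fr : Fr S N P v (Order.succ μ)
  TP : T ⊆ P
  TH : Disjoint T (S.H v)
  mat : Mat N ((S.H v \ S.H t) ∪ T) (S.G v \ S.G t) f

theorem pos_ext (S : Sys E) {N : E → Set E} {P : Set E} (hS : S.Good N P) (b t : S.St)
    (hbt : S.le b t) (μ : Cardinal.{w}) (hμ : ℵ₀ ≤ μ) (hUb : Uf S N b (Order.succ μ))
    (hIH : ∀ v, S.le t v → Uf S N v (Order.succ μ) → Fr S N P v (Order.succ μ))
    (v : S.St) (T : Set E) (f : E → E) (hp : Pos S N P b t μ v T f) (S' : Set E)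
    (hS' : S' ⊆ P \ S.H t) (hc : Cardinal.mk ↥S' ≤ μ) :
    ∃ (v' : S.St) (T' : Set E) (f' : E → E), Pos S N P b t μ v' T' f' ∧
      ((S.H v \ S.H t) ∪ T) ⊆ ((S.H v' \ S.H t) ∪ T') ∧ S' ⊆ (S.H v' \ S.H t) ∪ T' ∧
      ∀ x ∈ (S.H v \ S.H t) ∪ T, f' x = f x := by
  classical
  have hO1 : Cardinal.mk ↥(S' \ (S.H v ∪ T)) ≤ μ := (mk_le_mk_of_subset diff_subset).trans hc
  obtain ⟨f₁, A, hOA, hAO, _, hcore⟩ := core (κ := Order.succ μ) (isRegular_succ hμ)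
    (lt_of_le_of_lt hμ (Order.lt_succ μ)) S hS b v (hS.trans _ _ _ hbt hp.le) hUb hp.lam hp.df
    hp.fr (fun v' h1 h2 => hIH v' (hS.trans _ _ _ hp.le h1) h2) (P \ T) ∅ (S' \ (S.H v ∪ T))
    diff_subset (empty_subset _) (fun x hx => ⟨⟨(hS' hx.1).1, fun h => hx.2 (Or.inr h)⟩,
      fun h => hx.2 (Or.inl h)⟩) (hO1.trans (Order.le_succ μ)) id (injOn_empty _)
  obtain ⟨v', T₁, hvv, hUv, hL, hD, hT1P, hT1H, hOv, hM⟩ := hcore (S' \ (S.H v ∪ T)) hOA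
    (lt_of_le_of_lt hO1 (Order.lt_succ μ))
  have hH : S.H v ⊆ S.H v' := hS.leH _ _ hvv
  have hHt : S.H t ⊆ S.H v := hS.leH _ _ hp.le
  have hG : S.G v ⊆ S.G v' := hS.leG _ _ hvv
  have hGt : S.G t ⊆ S.G v := hS.leG _ _ hp.le
  have hTd : ∀ x ∈ T, x ∉ S.H v := fun x hx hx' => disjoint_left.1 hp.TH hx hx'
  have hT1d : ∀ x ∈ T₁, x ∉ S.H v' := fun x hx hx' => disjoint_left.1 hT1H hx hx'
  have hle : S.le t v' := hS.trans _ _ _ hp.le hvv
  -- the new domain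
  have hdom : ∀ x ∈ (S.H v' \ S.H t) ∪ ((T \ S.H v') ∪ T₁),
      x ∉ (S.H v \ S.H t) ∪ T → x ∈ ((S.H v' \ S.H v) ∩ (P \ T)) ∪ T₁ := by
    rintro x (hx | hx | hx) hn
    · refine Or.inl ⟨⟨hx.1, fun h => hn (Or.inl ⟨h, hx.2⟩)⟩, hS.HP _ hx.1,
        fun h => hn (Or.inr h)⟩
    · exact absurd (Or.inr hx.1) hn
    · exact Or.inr hx
  let f' : E → E := fun x => if x ∈ (S.H v \ S.H t) ∪ T then f x else f₁ x
  have hf1 : ∀ x ∈ (S.H v \ S.H t) ∪ T, f' x = f x := fun x hx => if_pos hx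
  have hf2 : ∀ x, x ∉ (S.H v \ S.H t) ∪ T → f' x = f₁ x := fun x hx => if_neg hx
  refine ⟨v', (T \ S.H v') ∪ T₁, f', ⟨hle, hL, hD, hIH v' hle hUv, ?_, ?_, ?_, ?_⟩, ?_, ?_, hf1⟩
  · rintro x (hx | hx)
    · exact hp.TP hx.1
    · exact (hT1P hx).1
  · rw [disjoint_left]
    rintro x (hx | hx) hx'
    · exact hx.2 hx'
    · exact hT1d x hx hx'
  · intro x hx y hy hxy
    by_cases h1 : x ∈ (S.H v \ S.H t) ∪ T
    · by_cases h2 : y ∈ (S.H v \ S.H t) ∪ T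
      · rw [hf1 x h1, hf1 y h2] at hxy
        exact hp.mat.1 h1 h2 hxy
      · rw [hf1 x h1, hf2 y h2] at hxy
        have h3 := (hp.mat.2 x h1).2.1
        have h4 := (hM.2 y (hdom y hy h2)).2.2
        rw [hxy] at h3
        exact absurd h3 h4
    · by_cases h2 : y ∈ (S.H v \ S.H t) ∪ T
      · rw [hf2 x h1, hf1 y h2] at hxy
        have h3 := (hp.mat.2 y h2).2.1
        have h4 := (hM.2 x (hdom x hx h1)).2.2
        rw [← hxy] at h3
        exact absurd h3 h4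
      · rw [hf2 x h1, hf2 y h2] at hxy
        exact hM.1 (hdom x hx h1) (hdom y hy h2) hxy
  · intro x hx
    by_cases h1 : x ∈ (S.H v \ S.H t) ∪ T
    · rw [hf1 x h1]
      have h3 := hp.mat.2 x h1
      exact ⟨h3.1, hG h3.2.1, h3.2.2⟩
    · rw [hf2 x h1]
      have h3 := hM.2 x (hdom x hx h1)
      exact ⟨h3.1, h3.2.1, fun h => h3.2.2 (hGt h)⟩
  · rintro x (hx | hx)
    · exact Or.inl ⟨hH hx.1, hx.2⟩
    · by_cases h : x ∈ S.H v'
      · exact Or.inl ⟨h, fun h' => hTd x hx (hHt h')⟩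
      · exact Or.inr (Or.inl ⟨hx, h⟩)
  · intro x hx
    have hxt : x ∉ S.H t := (hS' hx).2
    by_cases h1 : x ∈ S.H v
    · exact Or.inl ⟨hH h1, hxt⟩
    · by_cases h2 : x ∈ T
      · by_cases h : x ∈ S.H v'
        · exact Or.inl ⟨h, hxt⟩
        · exact Or.inr (Or.inl ⟨h2, h⟩)
      · rcases hOv ⟨hx, fun h => h.elim h1 h2⟩ with h | h
        · exact Or.inl ⟨h, hxt⟩
        · exact Or.inr (Or.inr h)

end Pool.Agent.FLX
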