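import Pool.Agent.FLX.Defs

namespace Pool.Agent.FLX

open Set Cardinal Pool.Agent.FLM

universe u w

variable {E : Type w}

/-- the backward orbit of `y` -/
inductive LemrT (A : Set E) (o c y : E) (ν μ : E → E) : E → Prop
  | base (z : E) : z ∈ A \ {c} → μ z = y → LemrT A o c y ν μ z
  | step (x z : E) : LemrT A o c y ν μ x → x ≠ o → z ∈ A \ {c} → μ z = ν x →
      LemrT A o c y ν μ z

theorem lemr_sub {A : Set E} {o c y : E} {ν μ : E → E} {x : E} (h : LemrT A o c y ν μ x) :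
    x ∈ A \ {c} := by
  cases h with
  | base _ h1 _ => exact h1
  | step _ _ _ _ h1 _ => exact h1

open Classical in
/-- case `o ∈ T` -/
theorem lemr_one (N : E → Set E) (A Q : Set E) (o : E) (ν : E → E)
    (hν : Mat N (A \ {o}) Q ν) (c : E) (y : E) (μ : E → E) (hμ : Mat N (A \ {c}) Q μ)
    (hoT : LemrT A o c y ν μ o) (B : Set E) (hB : B ⊆ A)
    (hy : ∀ x ∈ B, ¬ LemrT A o c y ν μ x → ν x ≠ y) :
    Mat N B Q (fun x => if LemrT A o c y ν μ x then μ x else ν x) := by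
  have key : ∀ x x', LemrT A o c y ν μ x → x' ∈ B → ¬ LemrT A o c y ν μ x' → μ x ≠ ν x' := by
    intro x x' hx hx' hnx' he
    have hx'o : x' ≠ o := fun h => hnx' (h ▸ hoT)
    cases hx with
    | base _ _ h2 => exact hy x' hx' hnx' (he.symm.trans h2)
    | step x1 _ h1 h2 h3 h4 =>
      have hx1 : x1 ∈ A \ {o} := ⟨(lemr_sub h1).1, h2⟩
      have : x1 = x' := hν.1 hx1 ⟨hB hx', hx'o⟩ (h4.symm.trans he)
      exact hnx' (this ▸ h1)
  constructor
  · intro x hx x' hx' he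
    by_cases h1 : LemrT A o c y ν μ x <;> by_cases h2 : LemrT A o c y ν μ x'
    · simp only [h1, h2, if_true] at he
      exact hμ.1 (lemr_sub h1) (lemr_sub h2) he
    · simp only [h1, h2, if_true, if_false] at he
      exact absurd he (key x x' h1 hx' h2)
    · simp only [h1, h2, if_true, if_false] at he
      exact absurd he.symm (key x' x h2 hx h1)
    · simp only [h1, h2, if_false] at he
      have hxo : x ≠ o := fun h => h1 (h ▸ hoT)
      have hx'o : x' ≠ o := fun h => h2 (h ▸ hoT)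
      exact hν.1 ⟨hB hx, hxo⟩ ⟨hB hx', hx'o⟩ he
  · intro x hx
    by_cases h1 : LemrT A o c y ν μ x
    · simp only [h1, if_true]
      exact hμ.2 x (lemr_sub h1)
    · simp only [h1, if_false]
      have hxo : x ≠ o := fun h => h1 (h ▸ hoT)
      exact hν.2 x ⟨hB hx, hxo⟩

open Classical in
/-- case `o ∉ T` -/
theorem lemr_two (N : E → Set E) (A Q : Set E) (o : E) (ν : E → E)
    (hν : Mat N (A \ {o}) Q ν) (c : E) (y : E) (hyc : y ∈ N c) (hyQ : y ∈ Q)
    (μ : E → E) (hμ : Mat N (A \ {c}) Q μ)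
    (hoT : ¬ LemrT A o c y ν μ o) (B : Set E) (hB : B ⊆ A)
    (hy : ∀ x ∈ B, LemrT A o c y ν μ x → ν x ≠ y) :
    Mat N B Q (fun x => if x = c then y else if LemrT A o c y ν μ x then ν x else μ x) := by
  have hc : ∀ x, LemrT A o c y ν μ x → x ≠ c := fun x h => (lemr_sub h).2
  have ho : ∀ x, LemrT A o c y ν μ x → x ∈ A \ {o} := fun x h =>
    ⟨(lemr_sub h).1, fun h' => hoT (h' ▸ h)⟩
  have key1 : ∀ x z, LemrT A o c y ν μ x → z ∈ B → z ≠ c → ¬ LemrT A o c y ν μ z → ν x ≠ μ z :=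
    fun x z hx hz hzc hnz he => hnz (LemrT.step x z hx (ho x hx).2 ⟨hB hz, hzc⟩ he.symm)
  have key2 : ∀ z, z ∈ B → z ≠ c → ¬ LemrT A o c y ν μ z → μ z ≠ y :=
    fun z hz hzc hnz he => hnz (LemrT.base z ⟨hB hz, hzc⟩ he)
  constructor
  · intro x hx x' hx' he
    by_cases hxc : x = c <;> by_cases hx'c : x' = c
    · exact hxc.trans hx'c.symm
    · exfalso
      by_cases h2 : LemrT A o c y ν μ x'
      · simp only [hxc, hx'c, h2, if_true, if_false] at he
        exact hy x' hx' h2 he.symm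
      · simp only [hxc, hx'c, h2, if_true, if_false] at he
        exact key2 x' hx' hx'c h2 he.symm
    · exfalso
      by_cases h2 : LemrT A o c y ν μ x
      · simp only [hxc, hx'c, h2, if_true, if_false] at he
        exact hy x hx h2 he
      · simp only [hxc, hx'c, h2, if_true, if_false] at he
        exact key2 x hx hxc h2 he
    · by_cases h1 : LemrT A o c y ν μ x <;> by_cases h2 : LemrT A o c y ν μ x'
      · simp only [hxc, hx'c, h1, h2, if_true, if_false] at he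
        exact hν.1 (ho x h1) (ho x' h2) he
      · simp only [hxc, hx'c, h1, h2, if_true, if_false] at he
        exact absurd he (key1 x x' h1 hx' hx'c h2)
      · simp only [hxc, hx'c, h1, h2, if_true, if_false] at he
        exact absurd he.symm (key1 x' x h2 hx hxc h1)
      · simp only [hxc, hx'c, h1, h2, if_false] at he
        exact hμ.1 ⟨hB hx, hxc⟩ ⟨hB hx', hx'c⟩ he
  · intro x hx
    by_cases hxc : x = c
    · subst hxc
      simp only [if_true]
      exact ⟨hyc, hyQ⟩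
    · by_cases h1 : LemrT A o c y ν μ x
      · simp only [hxc, h1, if_true, if_false]
        exact hν.2 x (ho x h1)
      · simp only [hxc, h1, if_false]
        exact hμ.2 x ⟨hB hx, hxc⟩

theorem lemR (N : E → Set E) (A Q : Set E) (hA : ¬ Mbl N A Q) (o : E) (ho : o ∈ A) (ν : E → E)
    (hν : Mat N (A \ {o}) Q ν) (c : E) (hc : c ∈ A) (hcR : Mbl N (A \ {c}) Q) (y : E)
    (hy : y ∈ N c) (hyQ : y ∈ Q) :
    ∃ c' ∈ A, c' ≠ o ∧ Mbl N (A \ {c'}) Q ∧ ν c' = y := by
  obtain ⟨μ, hμ⟩ := hcR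
  have h1 : ∃ c' ∈ A, c' ≠ o ∧ ν c' = y := by
    by_contra hcon
    push Not at hcon
    by_cases hoT : LemrT A o c y ν μ o
    · refine hA ⟨_, lemr_one N A Q o ν hν c y μ hμ hoT A (le_refl A) ?_⟩
      intro x hx hnx
      exact hcon x hx (fun h => hnx (h ▸ hoT))
    · refine hA ⟨_, lemr_two N A Q o ν hν c y hy hyQ μ hμ hoT A (le_refl A) ?_⟩
      intro x hx hnx
      exact hcon x hx (fun h => hoT (h ▸ hnx))
  obtain ⟨c', hc'A, hc'o, hc'y⟩ := h1
  refine ⟨c', hc'A, hc'o, ?_, hc'y⟩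
  by_cases hoT : LemrT A o c y ν μ o
  · refine ⟨_, lemr_one N A Q o ν hν c y μ hμ hoT (A \ {c'}) diff_subset ?_⟩
    intro x hx hnx he
    have hxo : x ≠ o := fun h => hnx (h ▸ hoT)
    exact hx.2 (hν.1 ⟨hx.1, hxo⟩ ⟨hc'A, hc'o⟩ (he.trans hc'y.symm))
  · refine ⟨_, lemr_two N A Q o ν hν c y hy hyQ μ hμ hoT (A \ {c'}) diff_subset ?_⟩
    intro x hx hnx he
    have hxo : x ≠ o := fun h => hoT (h ▸ hnx)
    exact hx.2 (hν.1 ⟨hx.1, hxo⟩ ⟨hc'A, hc'o⟩ (he.trans hc'y.symm))

end Pool.Agent.FLX
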