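import Pool.Agent.FLX.XDefs

namespace Pool.Agent.FLX

open Set Cardinal Pool.Agent.FLM

universe u w

variable {V : Type u} {E : Type w}

/-- the condition defining the new set `A` -/
private def xlim_A (c : Set (XSt E)) (x : E) (s : XSt E) : Prop :=
  s ∈ c ∧ x ∈ s.A ∧ ∀ t ∈ c, s.P x ∉ t.G

open Classical in
/-- the partners -/
private noncomputable def xlim_P (c : Set (XSt E)) (x : E) : E :=
  if h : ∃ s, xlim_A c x s then h.choose.P x else x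

/-- from `s` on the element `y` is exposed with a constant label -/
private def xlim_L (e : Env V E) (c : Set (XSt E)) (y : E) (s : XSt E) : Prop :=
  s ∈ c ∧ y ∈ Ex e s ∧ ∀ t ∈ c, XExt e s t → y ∈ Ex e t ∧ t.l y = s.l y

open Classical in
/-- the labels -/
private noncomputable def xlim_l (e : Env V E) (c : Set (XSt E)) (y : E) : E :=
  if h : ∃ s, xlim_L e c y s then h.choose.l y else y

private theorem xlim_keep {e : Env V E} {c : Set (XSt E)}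
    (ht : ∀ s ∈ c, ∀ t ∈ c, XExt e s t ∨ XExt e t s) {s t : XSt E} (hs : s ∈ c) (hct : t ∈ c)
    {x : E} (h1 : x ∈ s.A) (h2 : x ∈ t.A) : s.P x = t.P x := by
  rcases ht s hs t hct with h | h
  · exact (h.keep x h1 h2).symm
  · exact h.keep x h2 h1

private theorem xlim_P_eq {e : Env V E} {c : Set (XSt E)}
    (ht : ∀ s ∈ c, ∀ t ∈ c, XExt e s t ∨ XExt e t s) {x : E} {s : XSt E}
    (hk : xlim_A c x s) : xlim_P c x = s.P x := by
  have h : ∃ s, xlim_A c x s := ⟨s, hk⟩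
  unfold xlim_P
  rw [dif_pos h]
  obtain ⟨h1, h2, _⟩ := h.choose_spec
  exact xlim_keep ht h1 hk.1 h2 hk.2.1

private theorem xlim_l_eq {e : Env V E} {c : Set (XSt E)}
    (ht : ∀ s ∈ c, ∀ t ∈ c, XExt e s t ∨ XExt e t s) {y : E} {s : XSt E}
    (hk : xlim_L e c y s) : xlim_l e c y = s.l y := by
  have h : ∃ s, xlim_L e c y s := ⟨s, hk⟩
  unfold xlim_l
  rw [dif_pos h]
  obtain ⟨h1, _, h3⟩ := h.choose_spec
  rcases ht _ h1 s hk.1 with h4 | h4
  · exact ((h3 s hk.1 h4).2).symm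
  · exact (hk.2.2 _ h1 h4).2

private theorem xlim_stay {e : Env V E} {c : Set (XSt E)} {x : E} {s t : XSt E}
    (hk : xlim_A c x s) (hct : t ∈ c) (hst : XExt e s t) : x ∈ t.A ∧ t.P x = s.P x := by
  by_cases h : x ∈ t.A
  · exact ⟨h, hst.keep x hk.2.1 h⟩
  · exact absurd (hst.old x hk.2.1 h) (hk.2.2 t hct)

private theorem xlim_mono {e : Env V E} {s t : XSt E} (h : s.G' ⊆ t.G') {y : E}
    (hQ : Qx e s y) : Qx e t y := by
  obtain ⟨x, h1, h2, h3⟩ := hQ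
  exact ⟨x, h1, h2, h3.trans h⟩

theorem xlimit {e : Env V E} (he : e.Good) (c : Set (XSt E)) (hc : c.Nonempty)
    (hp : ∀ s ∈ c, XPDat e s) (ht : ∀ s ∈ c, ∀ t ∈ c, XExt e s t ∨ XExt e t s) :
    ∃ t : XSt E, XPDat e t ∧ t.G = (⋃ s ∈ c, s.G) ∧ t.H = (⋃ s ∈ c, s.H) ∧
      (∀ s ∈ c, XExt e s t) ∧
      ∀ g ∈ t.l '' Ex e t, ∃ s ∈ c, ∀ v ∈ c, XExt e s v → g ∈ v.l '' Ex e v := by
  classical
  set tt : XSt E := ⟨⋃ s ∈ c, s.G, ⋃ s ∈ c, s.H, ⋃ s ∈ c, s.G', {x | ∃ s, xlim_A c x s},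
    xlim_P c, xlim_l e c⟩ with htt
  have hPG : ∀ s ∈ c, ∀ x ∈ s.A, s.P x ∈ s.G' ∧ s.P x ∉ s.G := by
    intro s hs x hx
    have h1 : s.P x ∈ s.G' \ s.G := by
      rw [← (hp s hs).img]
      exact ⟨x, hx, rfl⟩
    exact h1
  -- eventually exposed
  have hev : ∀ y ∈ Ex e tt, ∃ s₀ ∈ c, ∀ s ∈ c, s₀.G ⊆ s.G → s₀.G' ⊆ s.G' → y ∈ Ex e s := by
    rintro y ⟨hy1, hy2⟩
    obtain ⟨s1, hs1, hys1⟩ := mem_iUnion₂.1 hy1
    by_cases hex : ∃ x₀ ∈ e.X, e.M x₀ = y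
    · obtain ⟨x₀, hx₀, rfl⟩ := hex
      have hH : ∀ s ∈ c, x₀ ∉ s.H := fun s hs hj =>
        hy2 x₀ (Or.inl (mem_iUnion₂.2 ⟨s, hs, hj⟩)) rfl
      have hA : ∀ s, ¬ xlim_A c x₀ s := fun s hk => hy2 x₀ (Or.inr ⟨s, hk⟩) rfl
      have hred : ∀ s ∈ c, s1.G' ⊆ s.G' → x₀ ∉ s.A → e.M x₀ ∈ Ex e s := by
        intro s hs hG' hxA
        refine ⟨hG' hys1, fun x hx hM => ?_⟩
        have hxX : x ∈ e.X := by
          rcases hx with h | h
          · exact ((hp s hs).HX x h).1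
          · exact (hp s hs).AX h
        have h0 : x = x₀ := he.M_inj hxX hx₀ hM
        subst h0
        rcases hx with h | h
        · exact hH s hs h
        · exact hxA h
      by_cases h2 : ∃ s2 ∈ c, x₀ ∈ s2.A
      · obtain ⟨s2, hs2, hx2⟩ := h2
        have h3 : ∃ t ∈ c, s2.P x₀ ∈ t.G := by
          by_contra hcon
          push Not at hcon
          exact hA s2 ⟨hs2, hx2, hcon⟩
        obtain ⟨t, hct, htG⟩ := h3
        have h4 : ∀ u ∈ c, t.G ⊆ u.G → x₀ ∉ u.A := by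
          intro u hu hG hxu
          have h5 := (hPG u hu x₀ hxu).2
          rw [xlim_keep ht hu hs2 hxu hx2] at h5
          exact h5 (hG htG)
        rcases ht s1 hs1 t hct with h5 | h5
        · exact ⟨t, hct, fun s hs a b => hred s hs (h5.G'.trans b) (h4 s hs a)⟩
        · exact ⟨s1, hs1, fun s hs a b => hred s hs b (h4 s hs (h5.G.trans a))⟩
      · push Not at h2
        exact ⟨s1, hs1, fun s hs _ b => hred s hs b (h2 s hs)⟩
    · refine ⟨s1, hs1, fun s hs _ b => ⟨b hys1, fun x hx hM => hex ⟨x, ?_, hM⟩⟩⟩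
      rcases hx with h | h
      · exact ((hp s hs).HX x h).1
      · exact (hp s hs).AX h
  -- eventually constant label
  have hlab : ∀ y ∈ Ex e tt, ∃ s, xlim_L e c y s := by
    intro y hy
    obtain ⟨s₀, hs₀, h₀⟩ := hev y hy
    by_cases hQ : ∃ s2 ∈ c, Qx e s2 y
    · obtain ⟨s2, hs2, hQ2⟩ := hQ
      have hfin : ∀ s1 ∈ c, s₀.G ⊆ s1.G → s₀.G' ⊆ s1.G' → s2.G' ⊆ s1.G' →
          xlim_L e c y s1 := by
        intro s1 hs1 a b d
        refine ⟨hs1, h₀ s1 hs1 a b, fun t hct hst => ?_⟩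
        have h1 := h₀ t hct (a.trans hst.G) (b.trans hst.G')
        exact ⟨h1, hst.lab2 y (h₀ s1 hs1 a b) h1 fun _ => xlim_mono d hQ2⟩
      rcases ht s₀ hs₀ s2 hs2 with h | h
      · exact ⟨s2, hfin s2 hs2 h.G h.G' subset_rfl⟩
      · exact ⟨s₀, hfin s₀ hs₀ subset_rfl subset_rfl h.G'⟩
    · push Not at hQ
      refine ⟨s₀, hs₀, h₀ s₀ hs₀ subset_rfl subset_rfl, fun t hct hst => ?_⟩
      have h1 := h₀ t hct hst.G hst.G'
      exact ⟨h1, hst.lab2 y (h₀ s₀ hs₀ subset_rfl subset_rfl) h1 fun h => absurd h (hQ t hct)⟩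
  have hGsub : ∀ s ∈ c, s.G ⊆ tt.G := fun s hs z hz => mem_iUnion₂.2 ⟨s, hs, hz⟩
  have hHsub : ∀ s ∈ c, s.H ⊆ tt.H := fun s hs z hz => mem_iUnion₂.2 ⟨s, hs, hz⟩
  have hG'sub : ∀ s ∈ c, s.G' ⊆ tt.G' := fun s hs z hz => mem_iUnion₂.2 ⟨s, hs, hz⟩
  refine ⟨tt, ?_, rfl, rfl, ?_, ?_⟩
  · constructor
    · exact iUnion₂_mono fun s hs => (hp s hs).sub
    · rintro x ⟨s, hk⟩
      exact (hp s hk.1).AX hk.2.1
    · rintro x ⟨s, hk⟩ y ⟨t, hl⟩ hxy
      change xlim_P c x = xlim_P c y at hxy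
      rw [xlim_P_eq ht hk, xlim_P_eq ht hl] at hxy
      rcases ht s hk.1 t hl.1 with h | h
      · obtain ⟨a1, a2⟩ := xlim_stay hk hl.1 h
        exact (hp t hl.1).inj a1 hl.2.1 (by rw [a2, hxy])
      · obtain ⟨a1, a2⟩ := xlim_stay hl hk.1 h
        exact (hp s hk.1).inj hk.2.1 a1 (by rw [a2, hxy])
    · change xlim_P c '' {x | ∃ s, xlim_A c x s} = (⋃ s ∈ c, s.G') \ ⋃ s ∈ c, s.G
      ext y
      constructor
      · rintro ⟨x, ⟨s, hk⟩, rfl⟩
        rw [xlim_P_eq ht hk]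
        refine ⟨mem_iUnion₂.2 ⟨s, hk.1, (hPG s hk.1 x hk.2.1).1⟩, fun h2 => ?_⟩
        obtain ⟨t, hct, hj⟩ := mem_iUnion₂.1 h2
        exact hk.2.2 t hct hj
      · rintro ⟨h1, h2⟩
        obtain ⟨s, hs, hk⟩ := mem_iUnion₂.1 h1
        have h3 : ∀ t ∈ c, y ∉ t.G := fun t hct hj => h2 (mem_iUnion₂.2 ⟨t, hct, hj⟩)
        have h4 : y ∈ s.P '' s.A := by
          rw [(hp s hs).img]
          exact ⟨hk, h3 s hs⟩
        obtain ⟨x, hxA, rfl⟩ := h4
        exact ⟨x, ⟨s, hs, hxA, h3⟩, xlim_P_eq ht ⟨hs, hxA, h3⟩⟩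
    · rintro x ⟨s, hk⟩
      change xlim_P c x ∈ _
      rw [xlim_P_eq ht hk]
      exact (hp s hk.1).nd x hk.2.1
    · rintro x ⟨s, hk⟩ hB
      change xlim_P c x ∈ _
      rw [xlim_P_eq ht hk]
      exact (hp s hk.1).nb x hk.2.1 hB
    · rintro x ⟨s, hk⟩
      change xlim_P c x ∉ _
      rw [xlim_P_eq ht hk]
      exact (hp s hk.1).iv x hk.2.1
    · rintro x ⟨s, hk⟩ y hy
      exact hG'sub s hk.1 ((hp s hk.1).ndA x hk.2.1 hy)
    · intro x hxH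
      obtain ⟨s, hs, hk⟩ := mem_iUnion₂.1 hxH
      exact (hp s hs).HX x hk
    · intro x hxH
      obtain ⟨s, hs, hk⟩ := mem_iUnion₂.1 hxH
      exact hG'sub s hs ((hp s hs).HM x hk)
    · intro x hxH y hy
      obtain ⟨s, hs, hk⟩ := mem_iUnion₂.1 hxH
      exact hGsub s hs ((hp s hs).HN x hk hy)
    · intro y hy y' hy' h
      obtain ⟨s, hs⟩ := hlab y hy
      obtain ⟨t, hct⟩ := hlab y' hy'
      change xlim_l e c y = xlim_l e c y' at h
      rw [xlim_l_eq ht hs, xlim_l_eq ht hct] at h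
      rcases ht s hs.1 t hct.1 with h1 | h1
      · obtain ⟨a1, a2⟩ := hs.2.2 t hct.1 h1
        exact (hp t hct.1).lab a1 hct.2.1 (by rw [a2, h])
      · obtain ⟨a1, a2⟩ := hct.2.2 s hs.1 h1
        exact (hp s hs.1).lab hs.2.1 a1 (by rw [a2, h])
    · intro y hy
      obtain ⟨s, hs⟩ := hlab y hy
      change xlim_l e c y ∈ _
      rw [xlim_l_eq ht hs]
      exact hGsub s hs.1 ((hp s hs.1).labG y hs.2.1)
  · intro s hs
    constructor
    · exact hGsub s hs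
    · exact hHsub s hs
    · exact hG'sub s hs
    · rintro x hxs ⟨t, hk⟩
      change xlim_P c x = _
      rw [xlim_P_eq ht hk]
      exact xlim_keep ht hk.1 hs hk.2.1 hxs
    · rintro x ⟨t, hk⟩ hxs
      change xlim_P c x ∉ _
      rw [xlim_P_eq ht hk]
      rcases ht s hs t hk.1 with h | h
      · exact h.new x hk.2.1 hxs
      · exact absurd (xlim_stay hk hs h).1 hxs
    · intro x hxs hxt
      by_contra hcon
      exact hxt ⟨s, hs, hxs, fun t hct hj => hcon (hGsub t hct hj)⟩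
    · rintro g ⟨y, hy, rfl⟩ hg
      obtain ⟨t, hct⟩ := hlab y hy
      change xlim_l e c y ∈ _ at hg
      change xlim_l e c y ∈ _
      rw [xlim_l_eq ht hct] at hg ⊢
      rcases ht s hs t hct.1 with h | h
      · exact h.lab1 _ ⟨y, hct.2.1, rfl⟩ hg
      · obtain ⟨a1, a2⟩ := hct.2.2 s hs h
        exact ⟨y, a1, a2⟩
    · intro y hys hyt hQ
      obtain ⟨t, hct⟩ := hlab y hyt
      change xlim_l e c y = _
      rw [xlim_l_eq ht hct]
      rcases ht s hs t hct.1 with h | h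
      · exact h.lab2 y hys hct.2.1 fun h1 => hQ (xlim_mono (hG'sub t hct.1) h1)
      · exact ((hct.2.2 s hs h).2).symm
  · rintro g ⟨y, hy, rfl⟩
    obtain ⟨s, hs⟩ := hlab y hy
    refine ⟨s, hs.1, fun v hv hsv => ?_⟩
    change xlim_l e c y ∈ _
    rw [xlim_l_eq ht hs]
    obtain ⟨a1, a2⟩ := hs.2.2 v hv hsv
    exact ⟨y, a1, a2⟩

end Pool.Agent.FLX
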