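import Pool.Agent.FLX.XStep
import Pool.Agent.FLX.XClose
import Pool.Agent.FLX.XLim

namespace Pool.Agent.FLX

open Set Cardinal Pool.Agent.FLM

universe u w

variable {V : Type u} {E : Type w}

theorem xsys {e : Env V E} (he : e.Good) :
    ∃ S : Sys E, S.Good (fun x => e.NB x \ e.Iv) (e.X ∩ e.B) := by
  refine ⟨{ St := {s : XSt E // XDat e s}
            G := fun s => s.1.G
            H := fun s => s.1.H
            Lam := fun s => s.1.l '' Ex e s.1
            le := fun s t => XExt e s.1 t.1 }, ?_⟩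
  constructor
  · intro s
    exact xext_refl e s.1
  · intro s t u h1 h2
    exact xext_trans he s.2.toXPDat t.2.toXPDat u.2.toXPDat h1 h2
  · rintro s g ⟨y, hy, rfl⟩
    exact s.2.labG y hy
  · intro s t h
    exact h.G
  · intro s t h
    exact h.H
  · rintro s t h g ⟨h1, h2⟩
    exact h.lab1 g h1 h2
  · intro s x hx
    exact s.2.HX x hx
  · intro s x hx
    exact s.2.HN x hx
  · obtain ⟨t, ht, hG, hH, -⟩ := xclose he (xinit e)
    exact ⟨⟨t, ht⟩, hG, hH⟩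
  · intro s y hy
    obtain ⟨t1, h1, hG1, hH1, he1⟩ := xaddY he s.2.toXPDat y hy
    obtain ⟨t2, h2, hG2, hH2, he2⟩ := xclose he h1
    exact ⟨⟨t2, h2⟩, xext_trans he s.2.toXPDat h1 h2.toXPDat he1 he2, hG2.trans hG1,
      hH2.trans hH1⟩
  · intro s x hx hH hN
    obtain ⟨t, ht, hG, hH', hE, g, hg, hg'⟩ := xaddX he s.2 x hx.1 hx.2 hH hN
    exact ⟨⟨t, ht⟩, hE, hG, hH', fun hsub => hg' (hsub hg)⟩
  · intro c hc hch
    have hp : ∀ s ∈ (Subtype.val '' c : Set (XSt E)), XPDat e s := by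
      rintro _ ⟨s, -, rfl⟩
      exact s.2.toXPDat
    have ht : ∀ s ∈ (Subtype.val '' c : Set (XSt E)), ∀ t ∈ (Subtype.val '' c : Set (XSt E)),
        XExt e s t ∨ XExt e t s := by
      rintro _ ⟨s, hs, rfl⟩ _ ⟨t, ht, rfl⟩
      exact hch s hs t ht
    obtain ⟨t1, h1, hG1, hH1, hE1, hl1⟩ := xlimit he (Subtype.val '' c) (hc.image _) hp ht
    obtain ⟨t2, h2, hG2, hH2, hE2⟩ := xclose he h1
    refine ⟨⟨t2, h2⟩, ?_, ?_, ?_, ?_⟩
    · intro s hs
      exact xext_trans he s.2.toXPDat h1 h2.toXPDat (hE1 s.1 ⟨s, hs, rfl⟩) hE2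
    · show t2.G = _
      rw [hG2, hG1, biUnion_image]
    · show t2.H = _
      rw [hH2, hH1, biUnion_image]
    · intro g hg
      have hgG : g ∈ t1.G := by
        rw [← hG2]
        obtain ⟨y, hy, rfl⟩ := hg
        exact h2.labG y hy
      obtain ⟨_, ⟨s, hs, rfl⟩, hs2⟩ := hl1 g (hE2.lab1 g hg hgG)
      exact ⟨s, hs, fun v hv hsv => hs2 v.1 ⟨v, hv, rfl⟩ hsv⟩

end Pool.Agent.FLX
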