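import Pool.Agent.FLX.Defs

namespace Pool.Agent.FLX

open Set Cardinal Pool.Agent.FLM

universe u w

variable {E : Type w}

theorem sing_decomp (κ μ : Cardinal.{w}) (hκ : κ.IsSingular) (hμ : ℵ₀ ≤ μ) (hμκ : μ < κ)
    (O : Set E) (hO : Cardinal.mk ↥O ≤ κ) :
    ∃ (I : Type w) (_ : LinearOrder I) (_ : WellFoundedLT I) (κi : I → Cardinal.{w})
      (Oi : I → Set E), (∀ i, ℵ₀ ≤ κi i ∧ Cardinal.mk I ≤ κi i ∧ μ ≤ κi i ∧ κi i < κ) ∧
      (∀ i, Cardinal.mk ↥(Oi i) ≤ κi i) ∧ (∀ i, Oi i ⊆ O) ∧ O ⊆ ⋃ i, Oi i := by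
  classical
  obtain ⟨S, hS, hSc⟩ := Order.exists_cof_eq κ.ord.ToType
  have hScard : Cardinal.mk ↥S < κ := by
    rw [hSc, Ordinal.cof_toType]
    exact hκ.cof_ord_lt
  have hO' : Cardinal.mk ↥O ≤ Cardinal.mk κ.ord.ToType := by rwa [mk_ord_toType]
  obtain ⟨φ⟩ := (Cardinal.le_def _ _).1 hO'
  have hIio : ∀ a : κ.ord.ToType, Cardinal.mk ↥(Iic a) < κ := by
    intro a
    rw [← Iio_insert]
    refine lt_of_le_of_lt (Cardinal.mk_insert_le) ?_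
    exact Cardinal.add_lt_of_lt hκ.aleph0_le (mk_Iio_toType_ord_lt a)
      (lt_of_lt_of_le Cardinal.one_lt_aleph0 hκ.aleph0_le)
  refine ⟨↥S, inferInstance, inferInstance,
    fun s => max (max μ (Cardinal.mk ↥S)) (Cardinal.mk ↥(Iic (s : κ.ord.ToType))),
    fun s => Subtype.val '' (φ ⁻¹' (Iic (s : κ.ord.ToType))), ?_, ?_, ?_, ?_⟩
  · intro s
    refine ⟨hμ.trans ((le_max_left _ _).trans (le_max_left _ _)),
      (le_max_right _ _).trans (le_max_left _ _), (le_max_left _ _).trans (le_max_left _ _),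
      max_lt (max_lt hμκ hScard) (hIio _)⟩
  · intro s
    refine le_trans Cardinal.mk_image_le (le_trans ?_ (le_max_right _ _))
    exact Cardinal.mk_preimage_of_injective _ _ φ.injective
  · rintro s x ⟨y, -, rfl⟩
    exact y.2
  · intro x hx
    obtain ⟨s, hs, hxs⟩ := hS (φ ⟨x, hx⟩)
    exact mem_iUnion.2 ⟨⟨s, hs⟩, ⟨⟨x, hx⟩, hxs, rfl⟩⟩

end Pool.Agent.FLX
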