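import Pool.Agent.FLX.Defs

namespace Pool.Agent.FLX

open Set Cardinal Pool.Agent.FLM

universe u w

variable {E : Type w}

/-- A family of positions with marked sets. -/
structure SiterGood (A0 : Set E) {I : Type w} (κi : I → Cardinal.{w})
    (pos : I → Set E → (E → E) → Prop) (σ : I → Set E × Set E × (E → E)) : Prop where
  pos : ∀ i, pos i (σ i).2.1 (σ i).2.2
  sub : ∀ i, (σ i).1 ⊆ (σ i).2.1
  sub0 : ∀ i, (σ i).1 ⊆ A0
  card : ∀ i, Cardinal.mk ↥(σ i).1 ≤ κi i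

/-- One step of the iteration. -/
structure SiterStep {I : Type w} (Oi : I → Set E) (K : Set E) (ν : E → E)
    (σ τ : I → Set E × Set E × (E → E)) : Prop where
  mono : ∀ i, (σ i).1 ⊆ (τ i).1
  Osub : ∀ i, Oi i ⊆ (τ i).1
  cross : ∀ i l x, x ∈ (σ l).1 → (σ l).2.2 x ∈ (σ i).2.2 '' (σ i).1 → x ∈ (τ i).1
  crossK : ∀ i k, k ∈ K → ν k ∈ (σ i).2.2 '' (σ i).1 → k ∈ (τ i).1
  Xsub : ∀ i, (σ i).2.1 ⊆ (τ i).2.1
  keep : ∀ i, ∀ x ∈ (σ i).2.1, (τ i).2.2 x = (σ i).2.2 x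

theorem siter_step (N : E → Set E) (A0 Q : Set E) {I : Type w}
    (κi : I → Cardinal.{w}) (hκ : ∀ i, ℵ₀ ≤ κi i ∧ Cardinal.mk I ≤ κi i)
    (Oi : I → Set E) (hOi : ∀ i, Cardinal.mk ↥(Oi i) ≤ κi i) (hOA : ∀ i, Oi i ⊆ A0)
    (K : Set E) (hKA : K ⊆ A0) (ν : E → E) (hν : Mat N K Q ν)
    (pos : I → Set E → (E → E) → Prop)
    (hmat : ∀ i X f, pos i X f → Mat N X Q f)
    (hext : ∀ i X f, pos i X f → ∀ S, S ⊆ A0 → Cardinal.mk ↥S ≤ κi i →
      ∃ X' f', pos i X' f' ∧ X ⊆ X' ∧ S ⊆ X' ∧ ∀ x ∈ X, f' x = f x)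
    (σ : I → Set E × Set E × (E → E)) (hσ : SiterGood A0 κi pos σ) :
    ∃ τ, SiterGood A0 κi pos τ ∧ SiterStep Oi K ν σ τ := by
  classical
  set T : I → Set E := fun i => ⋃ l, {x | x ∈ (σ l).1 ∧ (σ l).2.2 x ∈ (σ i).2.2 '' (σ i).1}
    with hT
  set U : I → Set E := fun i => {k | k ∈ K ∧ ν k ∈ (σ i).2.2 '' (σ i).1} with hU
  set S : I → Set E := fun i => ((σ i).1 ∪ Oi i) ∪ (T i ∪ U i) with hS
  have himg : ∀ i, Cardinal.mk ↥((σ i).2.2 '' (σ i).1) ≤ κi i := fun i =>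
    Cardinal.mk_image_le.trans (hσ.card i)
  have hTl : ∀ i l, Cardinal.mk ↥{x | x ∈ (σ l).1 ∧ (σ l).2.2 x ∈ (σ i).2.2 '' (σ i).1} ≤
      κi i := by
    intro i l
    have hinj : InjOn (σ l).2.2 {x | x ∈ (σ l).1 ∧ (σ l).2.2 x ∈ (σ i).2.2 '' (σ i).1} :=
      (hmat l _ _ (hσ.pos l)).1.mono (fun x hx => hσ.sub l hx.1)
    rw [← Cardinal.mk_image_eq_of_injOn _ _ hinj]
    refine le_trans (Cardinal.mk_le_mk_of_subset ?_) (himg i)
    rintro _ ⟨x, hx, rfl⟩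
    exact hx.2
  have hTc : ∀ i, Cardinal.mk ↥(T i) ≤ κi i := by
    intro i
    refine (Cardinal.mk_iUnion_le _).trans ?_
    have h1 : (⨆ l, Cardinal.mk ↥{x | x ∈ (σ l).1 ∧ (σ l).2.2 x ∈ (σ i).2.2 '' (σ i).1}) ≤
        κi i := ciSup_le' (hTl i)
    calc Cardinal.mk I * (⨆ l, Cardinal.mk
          ↥{x | x ∈ (σ l).1 ∧ (σ l).2.2 x ∈ (σ i).2.2 '' (σ i).1}) ≤ κi i * κi i :=
          mul_le_mul' (hκ i).2 h1
      _ = κi i := Cardinal.mul_eq_self (hκ i).1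
  have hUc : ∀ i, Cardinal.mk ↥(U i) ≤ κi i := by
    intro i
    have hinj : InjOn ν (U i) := hν.1.mono (fun x hx => hx.1)
    rw [← Cardinal.mk_image_eq_of_injOn _ _ hinj]
    refine le_trans (Cardinal.mk_le_mk_of_subset ?_) (himg i)
    rintro _ ⟨x, hx, rfl⟩
    exact hx.2
  have hSc : ∀ i, Cardinal.mk ↥(S i) ≤ κi i := by
    intro i
    have hadd : κi i + κi i = κi i := Cardinal.add_eq_self (hκ i).1
    refine (Cardinal.mk_union_le _ _).trans ?_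
    rw [← hadd]
    refine add_le_add ((Cardinal.mk_union_le _ _).trans ?_) ((Cardinal.mk_union_le _ _).trans ?_)
    · exact (add_le_add (hσ.card i) (hOi i)).trans hadd.le
    · exact (add_le_add (hTc i) (hUc i)).trans hadd.le
  have hS0 : ∀ i, S i ⊆ A0 := by
    rintro i x ((hx | hx) | (hx | hx))
    · exact hσ.sub0 i hx
    · exact hOA i hx
    · obtain ⟨l, hl⟩ := mem_iUnion.1 hx
      exact hσ.sub0 l hl.1
    · exact hKA hx.1
  choose X' f' hpos' hXX' hSX' hff' using fun i =>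
    hext i _ _ (hσ.pos i) (S i) (hS0 i) (hSc i)
  refine ⟨fun i => (S i, X' i, f' i), ⟨hpos', hSX', hS0, hSc⟩, ⟨?_, ?_, ?_, ?_, hXX', hff'⟩⟩
  · exact fun i x hx => Or.inl (Or.inl hx)
  · exact fun i x hx => Or.inl (Or.inr hx)
  · exact fun i l x hx hf => Or.inr (Or.inl (mem_iUnion.2 ⟨l, hx, hf⟩))
  · exact fun i k hk hf => Or.inr (Or.inr ⟨hk, hf⟩)

theorem singular_iter (N : E → Set E) (A0 Q : Set E) {I : Type w} [LinearOrder I]
    [WellFoundedLT I] (κi : I → Cardinal.{w}) (hκ : ∀ i, ℵ₀ ≤ κi i ∧ Cardinal.mk I ≤ κi i)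
    (Oi : I → Set E) (hOi : ∀ i, Cardinal.mk ↥(Oi i) ≤ κi i) (hOA : ∀ i, Oi i ⊆ A0)
    (K : Set E) (hKA : K ⊆ A0) (ν : E → E) (hν : Mat N K Q ν) (hA : A0 ⊆ K ∪ ⋃ i, Oi i)
    (pos : I → Set E → (E → E) → Prop) (h0 : ∀ i, ∃ X f, pos i X f)
    (hmat : ∀ i X f, pos i X f → Mat N X Q f)
    (hext : ∀ i X f, pos i X f → ∀ S, S ⊆ A0 → Cardinal.mk ↥S ≤ κi i →
      ∃ X' f', pos i X' f' ∧ X ⊆ X' ∧ S ⊆ X' ∧ ∀ x ∈ X, f' x = f x) :
    Mbl N A0 Q := by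
  classical
  choose X0 f0 hpos0 using h0
  have hstep := siter_step N A0 Q κi hκ Oi hOi hOA K hKA ν hν pos hmat hext
  choose nx hnx1 hnx2 using hstep
  let seq : ℕ → {σ : I → Set E × Set E × (E → E) // SiterGood A0 κi pos σ} := fun n =>
    Nat.rec ⟨fun i => (∅, X0 i, f0 i), ⟨hpos0, fun i => empty_subset _, fun i => empty_subset _,
      fun i => by simp⟩⟩ (fun _ p => ⟨nx p.1 p.2, hnx1 p.1 p.2⟩) n
  have hseq : ∀ n, SiterStep Oi K ν (seq n).1 (seq (n + 1)).1 := fun n =>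
    hnx2 (seq n).1 (seq n).2
  -- coherence
  have hcoh : ∀ i n m, n ≤ m → ((seq n).1 i).1 ⊆ ((seq m).1 i).1 ∧
      ((seq n).1 i).2.1 ⊆ ((seq m).1 i).2.1 ∧
      ∀ x ∈ ((seq n).1 i).2.1, ((seq m).1 i).2.2 x = ((seq n).1 i).2.2 x := by
    intro i n m hnm
    induction m, hnm using Nat.le_induction with
    | base => exact ⟨subset_rfl, subset_rfl, fun x _ => rfl⟩
    | succ m hm ih =>
      obtain ⟨h1, h2, h3⟩ := ih
      refine ⟨h1.trans ((hseq m).mono i), h2.trans ((hseq m).Xsub i), fun x hx => ?_⟩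
      rw [(hseq m).keep i x (h2 hx), h3 x hx]
  -- the set of indices
  set B : I → Set E := fun i => ⋃ n, ((seq n).1 i).1 with hB
  have hwf : WellFounded (fun a b : I => a < b) := wellFounded_lt
  have hmin : ∀ x : E, ∃ p : E, ((∃ i, x ∈ B i) → ∃ i n, x ∈ ((seq n).1 i).1 ∧
      p = ((seq n).1 i).2.2 x ∧ ∀ j, x ∈ B j → i ≤ j) ∧ ((¬ ∃ i, x ∈ B i) → p = ν x) := by
    intro x
    by_cases h : ∃ i, x ∈ B i
    · have hne : ({i | x ∈ B i} : Set I).Nonempty := h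
      obtain ⟨n, hn⟩ := mem_iUnion.1 (hwf.min_mem _ hne)
      exact ⟨((seq n).1 (hwf.min _ hne)).2.2 x, fun _ => ⟨hwf.min _ hne, n, hn, rfl,
        fun j hj => not_lt.1 (hwf.not_lt_min _ hj)⟩, fun h' => (h' h).elim⟩
    · exact ⟨ν x, fun h' => (h h').elim, fun _ => rfl⟩
  choose g hg1 hg2 using hmin
  have hK : ∀ x ∈ A0, (¬ ∃ i, x ∈ B i) → x ∈ K := by
    intro x hx h
    rcases hA hx with h1 | h1
    · exact h1
    · obtain ⟨i, hi⟩ := mem_iUnion.1 h1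
      exact (h ⟨i, mem_iUnion.2 ⟨1, (hseq 0).Osub i hi⟩⟩).elim
  -- one element in the union and one outside
  have hmix : ∀ x ∈ A0, ∀ y ∈ A0, (∃ i, x ∈ B i) → (¬ ∃ i, y ∈ B i) → g x ≠ g y := by
    intro x hx y hy h1 h2 hxy
    obtain ⟨i, n, hn, hgx, -⟩ := hg1 x h1
    rw [hg2 y h2, hgx] at hxy
    exact h2 ⟨i, mem_iUnion.2 ⟨n + 1, (hseq n).crossK i y (hK y hy h2) ⟨x, hn, hxy⟩⟩⟩
  refine ⟨g, ?_, ?_⟩
  · intro x hx y hy hxy
    by_cases h1 : ∃ i, x ∈ B i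
    · by_cases h2 : ∃ i, y ∈ B i
      · obtain ⟨i, n, hn, hgx, hi⟩ := hg1 x h1
        obtain ⟨j, m, hm, hgy, hj⟩ := hg1 y h2
        set r := max n m with hr
        obtain ⟨a1, -, a3⟩ := hcoh i n r (le_max_left _ _)
        obtain ⟨b1, -, b3⟩ := hcoh j m r (le_max_right _ _)
        have hgx' : g x = ((seq r).1 i).2.2 x := by
          rw [hgx, a3 x ((seq n).2.sub i hn)]
        have hgy' : g y = ((seq r).1 j).2.2 y := by
          rw [hgy, b3 y ((seq m).2.sub j hm)]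
        have hji : j ≤ i := hj i (mem_iUnion.2 ⟨r + 1, (hseq r).cross i j y (b1 hm)
          ⟨x, a1 hn, by rw [← hgx', ← hgy', hxy]⟩⟩)
        have hij : i ≤ j := hi j (mem_iUnion.2 ⟨r + 1, (hseq r).cross j i x (a1 hn)
          ⟨y, b1 hm, by rw [← hgx', ← hgy', hxy]⟩⟩)
        have hijeq : i = j := le_antisymm hij hji
        subst hijeq
        refine (hmat i _ _ ((seq r).2.pos i)).1 ((seq r).2.sub i (a1 hn))
          ((seq r).2.sub i (b1 hm)) ?_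
        rw [← hgx', ← hgy', hxy]
      · exact (hmix x hx y hy h1 h2 hxy).elim
    · by_cases h2 : ∃ i, y ∈ B i
      · exact (hmix y hy x hx h2 h1 hxy.symm).elim
      · rw [hg2 x h1, hg2 y h2] at hxy
        exact hν.1 (hK x hx h1) (hK y hy h2) hxy
  · intro x hx
    by_cases h1 : ∃ i, x ∈ B i
    · obtain ⟨i, n, hn, hgx, -⟩ := hg1 x h1
      rw [hgx]
      exact (hmat i _ _ ((seq n).2.pos i)).2 x ((seq n).2.sub i hn)
    · rw [hg2 x h1]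
      exact hν.2 x (hK x hx h1)

end Pool.Agent.FLX
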