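import Pool.Agent.FLX.Gex
import Pool.Agent.FLX.SIter
import Pool.Agent.FLX.SDec

namespace Pool.Agent.FLX

open Set Cardinal Pool.Agent.FLM

universe u w

variable {E : Type w}

theorem sing {κ : Cardinal.{w}} (hκ : κ.IsSingular) (S : Sys E)
    {N : E → Set E} {P : Set E} (hS : S.Good N P) (b t : S.St) (hbt : S.le b t)
    (hUb : ∀ μ, ℵ₀ ≤ μ → μ < κ → Uf S N b (Order.succ μ)) (ρ : Cardinal.{w}) (hρ : ℵ₀ ≤ ρ)
    (hρκ : ρ < κ) (hLam : Cardinal.mk ↥(S.Lam t \ S.Lam b) < Order.succ ρ)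
    (hdef : DefLt N (S.H t \ S.H b) (S.G t \ S.G b) (Order.succ ρ))
    (hFt : ∀ μ, ℵ₀ ≤ μ → μ < κ → Fr S N P t (Order.succ μ))
    (hIH : ∀ μ, ℵ₀ ≤ μ → μ < κ → ∀ v, S.le t v → Uf S N v (Order.succ μ) →
      Fr S N P v (Order.succ μ)) : Fr S N P t (Order.succ κ) := by
  intro A hA hdefA
  obtain ⟨K, hKA, ⟨ν, hν⟩, hK⟩ := hdefA
  have hO : Cardinal.mk ↥(A \ K) ≤ κ := Order.lt_succ_iff.1 hK
  obtain ⟨I, _, _, κi, Oi, h1, h2, h3, h4⟩ := sing_decomp κ ρ hκ hρ hρκ (A \ K) hO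
  refine singular_iter N A (S.G t)ᶜ κi (fun i => ⟨(h1 i).1, (h1 i).2.1⟩) Oi h2
    (fun i => (h3 i).trans sdiff_subset) K hKA ν hν ?_
    (fun i X f => ∃ (v : S.St) (T : Set E), Pos S N P b t (κi i) v T f ∧
      X = (S.H v \ S.H t) ∪ T) ?_ ?_ ?_
  · intro x hx
    by_cases hxK : x ∈ K
    · exact Or.inl hxK
    · exact Or.inr (h4 ⟨hx, hxK⟩)
  · intro i
    have hle : Order.succ ρ ≤ Order.succ (κi i) := Order.succ_le_succ (h1 i).2.2.1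
    refine ⟨_, id, t, ∅, ⟨hS.refl t, hLam.trans_le hle, ?_, hFt _ (h1 i).1 (h1 i).2.2.2,
      empty_subset _, empty_disjoint _, ?_⟩, rfl⟩
    · obtain ⟨L, hL, hL1, hL2⟩ := hdef
      exact ⟨L, hL, hL1, hL2.trans_le hle⟩
    · have he : (S.H t \ S.H t) ∪ ∅ = (∅ : Set E) := by simp
      rw [he]
      constructor
      · intro x hx; exact absurd hx (notMem_empty x)
      · intro x hx; exact absurd hx (notMem_empty x)
  · rintro i X f ⟨v, T, hp, rfl⟩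
    have hm := hp.mat
    refine ⟨hm.1, fun x hx => ?_⟩
    have := hm.2 x hx
    exact ⟨this.1, this.2.2⟩
  · rintro i X f ⟨v, T, hp, rfl⟩ S' hS' hc
    obtain ⟨v', T', f', hp', hsub, hsub', hf⟩ := pos_ext S hS b t hbt (κi i) (h1 i).1
      (hUb _ (h1 i).1 (h1 i).2.2.2) (hIH _ (h1 i).1 (h1 i).2.2.2) v T f hp S' (hS'.trans hA) hc
    exact ⟨_, f', ⟨v', T', hp', rfl⟩, hsub, hsub', hf⟩

end Pool.Agent.FLX
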