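import Pool.Agent.FLX.Full
import Pool.Agent.FLX.Sing
import Pool.Agent.FLX.Base

namespace Pool.Agent.FLX

open Set Cardinal Pool.Agent.FLM

universe u w

variable {E : Type w}

theorem zthm_defLt_mono {N : E → Set E} {A Q : Set E} {κ κ' : Cardinal.{w}}
    (h : DefLt N A Q κ) (hκ : κ ≤ κ') : DefLt N A Q κ' := by
  obtain ⟨K, h1, h2, h3⟩ := h
  exact ⟨K, h1, h2, h3.trans_le hκ⟩

theorem zthm_mbl_empty (N : E → Set E) (Q : Set E) : Mbl N ∅ Q :=
  ⟨id, injOn_empty _, fun x hx => absurd hx (notMem_empty x)⟩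

theorem zthm_defLt_empty {N : E → Set E} {Q : Set E} {κ : Cardinal.{w}} (hκ : ℵ₀ < κ) :
    DefLt N ∅ Q κ := by
  refine ⟨∅, subset_rfl, zthm_mbl_empty N Q, ?_⟩
  rw [sdiff_self, mk_eq_zero]
  exact lt_of_le_of_lt zero_le hκ

theorem zthm_self (S : Sys E) (N : E → Set E) (t : S.St) :
    Cardinal.mk ↥(S.Lam t \ S.Lam t) < Order.succ ℵ₀ ∧
      DefLt N (S.H t \ S.H t) (S.G t \ S.G t) (Order.succ ℵ₀) := by
  constructor
  · rw [sdiff_self, mk_eq_zero]
    exact lt_of_le_of_lt zero_le (Order.lt_succ ℵ₀)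
  · rw [sdiff_self]
    exact zthm_defLt_empty (Order.lt_succ ℵ₀)

/-- A defect below an uncountable cardinal is at most some smaller infinite cardinal. -/
theorem zthm_fr {S : Sys E} {N : E → Set E} {P : Set E} {s : S.St} {κ : Cardinal.{w}}
    (hκ : ℵ₀ < κ) (h : ∀ κ', ℵ₀ ≤ κ' → κ' < κ → Fr S N P s (Order.succ κ')) : Fr S N P s κ := by
  intro A hA hd
  obtain ⟨K, h1, h2, h3⟩ := hd
  refine h (max ℵ₀ (Cardinal.mk ↥(A \ K))) (le_max_left _ _) (max_lt hκ h3) A hA ?_
  exact ⟨K, h1, h2, Order.lt_succ_of_le (le_max_right _ _)⟩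

theorem uf_mono (S : Sys E) {N : E → Set E} (s : S.St) {κ κ' : Cardinal.{w}} (h : κ ≤ κ')
    (hU : Uf S N s κ') : Uf S N s κ := by
  intro t h1 h2 h3
  exact hU t h1 (h2.trans_le h) (zthm_defLt_mono h3 h)

theorem z_thm (S : Sys E) {N : E → Set E} {P : Set E} (hS : S.Good N P) (κ : Cardinal.{w})
    (hκ : ℵ₀ ≤ κ) : ∀ (b t : S.St) (μ : Cardinal.{w}), S.le b t → ℵ₀ ≤ μ →
      Uf S N b (Order.succ κ) → Cardinal.mk ↥(S.Lam t \ S.Lam b) < Order.succ μ →
      DefLt N (S.H t \ S.H b) (S.G t \ S.G b) (Order.succ μ) → Uf S N t (Order.succ μ) →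
      Fr S N P t (Order.succ κ) := by
  induction κ using WellFoundedLT.induction with
  | ind κ ih =>
    rcases hκ.eq_or_lt with h0 | h0
    · -- countable case
      intro b t μ _ hμ _ _ _ hUt
      rw [← h0]
      exact base_fr S hS t (uf_mono S t (hμ.trans (Order.le_succ μ)) hUt)
    · -- main step
      have hstar : ∀ κ', ℵ₀ ≤ κ' → κ' < κ → ∀ v, Uf S N v (Order.succ κ') →
          Fr S N P v (Order.succ κ') := by
        intro κ' h1 h2 v hv
        exact ih κ' h2 h1 v v ℵ₀ (hS.refl v) le_rfl hv (zthm_self S N v).1 (zthm_self S N v).2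
          (uf_mono S v (Order.succ_le_succ h1) hv)
      have main : ∀ (b t : S.St) (μ : Cardinal.{w}), μ < κ → S.le b t → ℵ₀ ≤ μ →
          Uf S N b (Order.succ κ) → Cardinal.mk ↥(S.Lam t \ S.Lam b) < Order.succ μ →
          DefLt N (S.H t \ S.H b) (S.G t \ S.G b) (Order.succ μ) → Uf S N t (Order.succ μ) →
          Fr S N P t (Order.succ κ) := by
        intro b t μ hμκ hbt hμ hUb hL hD hUt
        have hFt : ∀ κ', ℵ₀ ≤ κ' → κ' < κ → Fr S N P t (Order.succ κ') := by
          intro κ' h1 h2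
          exact ih κ' h2 h1 b t μ hbt hμ (uf_mono S b (Order.succ_le_succ h2.le) hUb) hL hD hUt
        rcases isRegular_or_isSingular hκ with hr | hs
        · have hμ' : Order.succ μ ≤ κ := Order.succ_le_of_lt hμκ
          refine full hr h0 S hS b t hbt (uf_mono S b (Order.le_succ κ) hUb) (hL.trans_le hμ')
            (zthm_defLt_mono hD hμ') (zthm_fr h0 hFt) ?_
          intro v _ hv
          exact zthm_fr h0 (fun κ' h1 h2 => hstar κ' h1 h2 v
            (uf_mono S v (Order.succ_le_of_lt h2) hv))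
        · refine sing hs S hS b t hbt ?_ μ hμ hμκ hL hD hFt ?_
          · intro μ' _ h2
            exact uf_mono S b (Order.succ_le_succ h2.le) hUb
          · intro μ' h1 h2 v _ hv
            exact hstar μ' h1 h2 v hv
      intro b t μ hbt hμ hUb hL hD hUt
      rcases lt_or_ge μ κ with h1 | h1
      · exact main b t μ h1 hbt hμ hUb hL hD hUt
      · exact main t t ℵ₀ h0 (hS.refl t) le_rfl (uf_mono S t (Order.succ_le_succ h1) hUt)
          (zthm_self S N t).1 (zthm_self S N t).2 (uf_mono S t (Order.succ_le_succ hμ) hUt)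

theorem es_matched (S : Sys E) {N : E → Set E} {P : Set E} (hS : S.Good N P) :
    ∃ g : E → E, InjOn g P ∧ ∀ x ∈ P, g x ∈ N x := by
  obtain ⟨s, hG, hH⟩ := hS.init
  have hU : ∀ κ, Uf S N s κ := by
    intro κ t _ _ _ x hx
    have := hS.lamG s hx
    rw [hG] at this
    exact absurd this (notMem_empty x)
  have h := z_thm S hS (max ℵ₀ (Cardinal.mk ↥P)) (le_max_left _ _) s s ℵ₀ (hS.refl s) le_rfl
    (hU _) (zthm_self S N s).1 (zthm_self S N s).2 (hU _)
  obtain ⟨ν, h1, h2⟩ := h P (by rw [hH]; simp) ⟨∅, empty_subset _, zthm_mbl_empty N _, by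
    rw [sdiff_empty]
    exact Order.lt_succ_of_le (le_max_right _ _)⟩
  exact ⟨ν, h1, fun x hx => (h2 x hx).1⟩

end Pool.Agent.FLX
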