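import Pool.Agent.FLM.Main
import Pool.Agent.FLX.ZThm
import Pool.Agent.FLX.XSys

namespace Pool.Agent.FLX

open Set Cardinal Pool.Agent.FLM

universe u w

variable {V : Type u} {E : Type w}

theorem flame_isM_all (tl hd : E → V) (r : V)
    (hac : ∀ a, ¬ Relation.TransGen (Step tl hd) a a) (hwf : WellFounded (Step tl hd))
    (B : Set E)
    (hlink : ∀ v, v ≠ r → Linkable tl hd r univ v {x | x ∈ B ∧ hd x = v})
    (hmax : ∀ e, e ∉ B → ¬ Linkable tl hd r univ (hd e) (insert e {x | x ∈ B ∧ hd x = hd e}))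
    (v : V) :
    v ≠ r → ∃ μ, IsM tl hd r B v {x | x ∈ B ∧ hd x = v} μ := by
  classical
  induction v using hwf.transGen.induction with
  | _ v ih =>
  intro hv
  obtain ⟨M, hM⟩ := linkable_to_isM tl hd r hac univ v _ (fun x hx => hx.2) (hlink v hv)
  have hL : ∀ b, ∃ Lb : E → E, b ≠ r → Relation.TransGen (Step tl hd) b v →
      IsM tl hd r B b {x | x ∈ B ∧ hd x = b} Lb := by
    intro b
    by_cases hb : b ≠ r ∧ Relation.TransGen (Step tl hd) b v
    · obtain ⟨Lb, h⟩ := ih b hb.2 hb.1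
      exact ⟨Lb, fun _ _ => h⟩
    · exact ⟨id, fun h1 h2 => absurd ⟨h1, h2⟩ hb⟩
  choose L hL using hL
  have he := env_good tl hd r hac hwf B v hmax M hM L hL
  obtain ⟨S, hS⟩ := xsys he
  obtain ⟨g, hg1, hg2⟩ := es_matched S hS
  have hP : ∀ x, x ∈ XS tl hd r v ∩ B → g x ∈ NBS tl hd B x \ {x | x ∈ B ∧ hd x = v} :=
    fun x hx => hg2 x hx
  have hinj : InjOn g (XS tl hd r v ∩ B) := hg1
  have hval : ∀ x, x ∈ XS tl hd r v → x ∈ B → g x ∈ B := by
    intro x hx hxB
    rcases (hP x ⟨hx, hxB⟩).1 with h | h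
    · have h' : g x = x := h
      rw [h']
      exact hxB
    · exact h.1
  refine ⟨fun x => if x ∈ B then g x else x, ?_, ?_⟩
  · intro x hx y hy hxy
    by_cases h1 : x ∈ B
    · by_cases h2 : y ∈ B
      · have hxy' : g x = g y := by
          simpa only [if_pos h1, if_pos h2] using hxy
        exact hinj ⟨hx, h1⟩ ⟨hy, h2⟩ hxy'
      · have hxy' : g x = y := by
          simpa only [if_pos h1, if_neg h2] using hxy
        exact absurd (hxy' ▸ hval x hx h1) h2
    · by_cases h2 : y ∈ B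
      · have hxy' : x = g y := by
          simpa only [if_neg h1, if_pos h2] using hxy
        exact absurd (hxy'.symm ▸ hval y hy h2) h1
      · simpa only [if_neg h1, if_neg h2] using hxy
  · intro x hx
    beta_reduce
    by_cases h1 : x ∈ B
    · rw [if_pos h1]
      refine ⟨(hP x ⟨hx, h1⟩).2, ?_⟩
      rcases (hP x ⟨hx, h1⟩).1 with h | h
      · exact Or.inl h
      · exact Or.inr ⟨h1, h.1, h.2⟩
    · rw [if_neg h1]
      exact ⟨fun h => h1 h.1, Or.inl rfl⟩

theorem main_all (tl hd : E → V) (r : V) (hr : ∀ e, hd e ≠ r)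
    (hac : ∀ (a : V) (l : List E), IsWalk tl hd a l a → l = [])
    (hinf : ¬ ∃ f : ℕ → E, Function.Injective (fun n => hd (f n)) ∧
      ∀ n, hd (f (n + 1)) = tl (f n))
    (B : Set E) (hB : Maximal (fun F => F ∈ GFam tl hd r univ) B) :
    B ∈ GFam tl hd r B := by
  have hac' := acyclic_of_walk hac
  have hwf := step_wf hac' hinf
  apply mem_gfam hr (Subset.refl B)
  intro v hv
  obtain ⟨μ, hμ⟩ := flame_isM_all tl hd r hac' hwf B (fun v hv => gfam_linkable hB.1 v hv)
    (fun e he => max_not_linkable hr hB e he) v hv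
  exact isM_to_linkable tl hd r hac' hwf B v _ (Subset.refl _) μ hμ

end Pool.Agent.FLX
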