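import Pool.Agent.FLX.TowDefs

namespace Pool.Agent.FLX

open Set Cardinal Pool.Agent.FLM

universe u w

variable {E : Type w}

/-- the chain of states below stage `j` -/
def towC {ι : Type w} [LinearOrder ι] (S : Sys E) (t : S.St) (stp : S.St → Set E → S.St)
    (j : ι) (r : ∀ i : ι, i < j → S.St × Set E) : Set S.St :=
  {s | s = t ∨ ∃ i, ∃ hi : i < j, s = stp (r i hi).1 (r i hi).2}

theorem towC_ne {ι : Type w} [LinearOrder ι] (S : Sys E) (t : S.St)
    (stp : S.St → Set E → S.St) (j : ι) (r : ∀ i : ι, i < j → S.St × Set E) :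
    (towC S t stp j r).Nonempty := ⟨t, Or.inl rfl⟩

open Classical in
/-- the recursion step -/
noncomputable def towF {ι : Type w} [LinearOrder ι] (S : Sys E) {N : E → Set E}
    {P : Set E} (hS : S.Good N P) (t : S.St) (stp : S.St → Set E → S.St)
    (nl : ι → Set S.St → Set E → Set E) (j : ι) (r : ∀ i : ι, i < j → S.St × Set E) :
    S.St × Set E :=
  (if h : ∀ s ∈ towC S t stp j r, ∀ s' ∈ towC S t stp j r, S.le s s' ∨ S.le s' s then
      (hS.chain _ (towC_ne S t stp j r) h).choose else t,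
    {e | ∃ i, ∃ hi : i < j,
      e ∈ nl i {s | ∃ k, ∃ hk : k ≤ i, (r k (lt_of_le_of_lt hk hi)).1 = s} (r i hi).2})

/-- the tower -/
noncomputable def towZ {ι : Type w} [LinearOrder ι] [WellFoundedLT ι] (S : Sys E)
    {N : E → Set E} {P : Set E} (hS : S.Good N P) (t : S.St) (stp : S.St → Set E → S.St)
    (nl : ι → Set S.St → Set E → Set E) : ι → S.St × Set E :=
  (wellFounded_lt (α := ι)).fix (fun j r => towF S hS t stp nl j r)

theorem towZ_eq {ι : Type w} [LinearOrder ι] [WellFoundedLT ι] (S : Sys E)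
    {N : E → Set E} {P : Set E} (hS : S.Good N P) (t : S.St) (stp : S.St → Set E → S.St)
    (nl : ι → Set S.St → Set E → Set E) (j : ι) :
    towZ S hS t stp nl j = towF S hS t stp nl j (fun i _ => towZ S hS t stp nl i) :=
  WellFounded.fix_eq _ _ _

theorem towZ_snd {ι : Type w} [LinearOrder ι] [WellFoundedLT ι] (S : Sys E)
    {N : E → Set E} {P : Set E} (hS : S.Good N P) (t : S.St) (stp : S.St → Set E → S.St)
    (nl : ι → Set S.St → Set E → Set E) (j : ι) :
    (towZ S hS t stp nl j).2 = ⋃ i ∈ Iio j,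
      nl i ((fun i => (towZ S hS t stp nl i).1) '' Iic i) (towZ S hS t stp nl i).2 := by
  have hset : ∀ i : ι, {s | ∃ k, ∃ _ : k ≤ i, (towZ S hS t stp nl k).1 = s} =
      (fun i => (towZ S hS t stp nl i).1) '' Iic i := by
    intro i
    ext s
    simp [mem_image]
  conv_lhs => rw [towZ_eq]
  ext e
  simp only [towF, mem_ofPred_eq, mem_iUnion, mem_Iio]
  constructor
  · rintro ⟨i, hi, he⟩
    refine ⟨i, hi, ?_⟩
    rw [← hset]
    exact he
  · rintro ⟨i, hi, he⟩
    refine ⟨i, hi, ?_⟩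
    rw [← hset] at he
    exact he

theorem towZ_fst {ι : Type w} [LinearOrder ι] [WellFoundedLT ι] (S : Sys E)
    {N : E → Set E} {P : Set E} (hS : S.Good N P) (t : S.St) (stp : S.St → Set E → S.St)
    (nl : ι → Set S.St → Set E → Set E) (j : ι)
    (h : ∀ s ∈ towC S t stp j (fun i _ => towZ S hS t stp nl i),
      ∀ s' ∈ towC S t stp j (fun i _ => towZ S hS t stp nl i), S.le s s' ∨ S.le s' s) :
    (∀ s ∈ towC S t stp j (fun i _ => towZ S hS t stp nl i), S.le s (towZ S hS t stp nl j).1) ∧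
      S.G (towZ S hS t stp nl j).1 =
        (⋃ s ∈ towC S t stp j (fun i _ => towZ S hS t stp nl i), S.G s) ∧
      S.H (towZ S hS t stp nl j).1 =
        (⋃ s ∈ towC S t stp j (fun i _ => towZ S hS t stp nl i), S.H s) ∧
      ∀ g ∈ S.Lam (towZ S hS t stp nl j).1,
        ∃ s ∈ towC S t stp j (fun i _ => towZ S hS t stp nl i),
        ∀ v ∈ towC S t stp j (fun i _ => towZ S hS t stp nl i), S.le s v → g ∈ S.Lam v := by
  have e : (towZ S hS t stp nl j).1 = (hS.chain _ (towC_ne S t stp j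
      (fun i _ => towZ S hS t stp nl i)) h).choose := by
    conv_lhs => rw [towZ_eq]
    exact dif_pos h
  rw [e]
  exact (hS.chain _ (towC_ne S t stp j (fun i _ => towZ S hS t stp nl i)) h).choose_spec

theorem tower {ι : Type w} [LinearOrder ι] [WellFoundedLT ι] (S : Sys E) {N : E → Set E}
    {P : Set E} (hS : S.Good N P) (t : S.St) (stp : S.St → Set E → S.St)
    (hstp : ∀ s L, S.le s (stp s L)) (nl : ι → Set S.St → Set E → Set E) :
    ∃ (z : ι → S.St) (L : ι → Set E), TowD S t stp nl z L := by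
  classical
  have hL := towZ_snd S hS t stp nl
  have hz := towZ_fst S hS t stp nl
  set Z := towZ S hS t stp nl with hZ
  set C : ι → Set S.St := fun j => towC S t stp j (fun i _ => Z i) with hC
  have main : ∀ j, S.le t (Z j).1 ∧ (∀ i, i < j → S.le (stp (Z i).1 (Z i).2) (Z j).1) ∧
      (∀ s ∈ C j, ∀ s' ∈ C j, S.le s s' ∨ S.le s' s) := by
    intro j
    induction j using WellFoundedLT.induction with
    | ind j ih =>
      have htu : ∀ i, i < j → S.le t (stp (Z i).1 (Z i).2) := fun i hi =>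
        hS.trans _ _ _ (ih i hi).1 (hstp _ _)
      have huu : ∀ i i', i < i' → i' < j → S.le (stp (Z i).1 (Z i).2) (stp (Z i').1 (Z i').2) :=
        fun i i' h h' => hS.trans _ _ _ ((ih i' h').2.1 i h) (hstp _ _)
      have hch : ∀ s ∈ C j, ∀ s' ∈ C j, S.le s s' ∨ S.le s' s := by
        rintro s (rfl | ⟨i, hi, rfl⟩) s' (rfl | ⟨i', hi', rfl⟩)
        · exact Or.inl (hS.refl _)
        · exact Or.inl (htu i' hi')
        · exact Or.inr (htu i hi)
        · rcases lt_trichotomy i i' with h | h | h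
          · exact Or.inl (huu i i' h hi')
          · subst h
            exact Or.inl (hS.refl _)
          · exact Or.inr (huu i' i h hi)
      obtain ⟨h1, -⟩ := hz j hch
      exact ⟨h1 t (Or.inl rfl), fun i hi => h1 _ (Or.inr ⟨i, hi, rfl⟩), hch⟩
  refine ⟨fun j => (Z j).1, fun j => (Z j).2, ⟨fun i => (main i).1, fun i j h => (main j).2.1 i h,
    ?_, ?_, ?_, hL⟩⟩
  · intro j
    rw [(hz j (main j).2.2).2.1]
    ext x
    simp only [mem_iUnion, mem_union, mem_Iio, exists_prop]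
    constructor
    · rintro ⟨s, (rfl | ⟨i, hi, rfl⟩), hx⟩
      · exact Or.inl hx
      · exact Or.inr ⟨i, hi, hx⟩
    · rintro (hx | ⟨i, hi, hx⟩)
      · exact ⟨t, Or.inl rfl, hx⟩
      · exact ⟨_, Or.inr ⟨i, hi, rfl⟩, hx⟩
  · intro j
    rw [(hz j (main j).2.2).2.2.1]
    ext x
    simp only [mem_iUnion, mem_union, mem_Iio, exists_prop]
    constructor
    · rintro ⟨s, (rfl | ⟨i, hi, rfl⟩), hx⟩
      · exact Or.inl hx
      · exact Or.inr ⟨i, hi, hx⟩
    · rintro (hx | ⟨i, hi, hx⟩)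
      · exact ⟨t, Or.inl rfl, hx⟩
      · exact ⟨_, Or.inr ⟨i, hi, rfl⟩, hx⟩
  · intro j g hg
    obtain ⟨s, hs, hv⟩ := (hz j (main j).2.2).2.2.2 g hg
    rcases hs with rfl | ⟨i, hi, rfl⟩
    · left
      refine ⟨hv _ (Or.inl rfl) (hS.refl _), fun i hi => hv _ (Or.inr ⟨i, hi, rfl⟩) ?_⟩
      exact hS.trans _ _ _ (main i).1 (hstp _ _)
    · right
      refine ⟨i, hi, fun k hik hk => hv _ (Or.inr ⟨k, hk, rfl⟩) ?_⟩
      rcases hik.eq_or_lt with rfl | h
      · exact hS.refl _
      · exact hS.trans _ _ _ ((main k).2.1 i h) (hstp _ _)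

end Pool.Agent.FLX
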