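import Pool.Agent.FLX.TowDefs
import Pool.Agent.FLX.Dl

namespace Pool.Agent.FLX

open Set Cardinal Pool.Agent.FLM

universe u w

variable {E : Type w}

theorem tow_le {ι : Type w} [LinearOrder ι] {S : Sys E} {N : E → Set E}
    {P : Set E} (hS : S.Good N P) {t : S.St} {stp : S.St → Set E → S.St}
    (hstp : ∀ s L, S.le s (stp s L)) {nl : ι → Set S.St → Set E → Set E}
    {z : ι → S.St} {L : ι → Set E} (h : TowD S t stp nl z L) (i j : ι) (hij : i ≤ j) :
    S.le (z i) (z j) := by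
  rcases eq_or_lt_of_le hij with h1 | h1
  · subst h1
    exact hS.refl _
  · exact hS.trans _ _ _ (hstp (z i) (L i)) (h.sle i j h1)

theorem tow_lim {ι : Type w} [LinearOrder ι] {S : Sys E} {N : E → Set E}
    {P : Set E} (hS : S.Good N P) {t : S.St} {stp : S.St → Set E → S.St}
    (hstp : ∀ s L, S.le s (stp s L)) {nl : ι → Set S.St → Set E → Set E}
    {z : ι → S.St} {L : ι → Set E} (h : TowD S t stp nl z L) (j : ι) (hj : IsLim j) :
    (∀ x ∈ S.H (z j), ∃ i < j, x ∈ S.H (z i)) ∧ (∀ g ∈ S.Lam (z j), ∃ i < j, g ∈ S.Lam (z i)) := by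
  constructor
  · intro x hx
    rw [h.tH j] at hx
    rcases hx with hx | hx
    · obtain ⟨i, hi⟩ := hj.1
      exact ⟨i, hi, hS.leH _ _ (h.tle i) hx⟩
    · simp only [mem_iUnion, mem_Iio, exists_prop] at hx
      obtain ⟨i, hi, hx⟩ := hx
      obtain ⟨k, hk1, hk2⟩ := hj.2 i hi
      exact ⟨k, hk2, hS.leH _ _ (h.sle i k hk1) hx⟩
  · intro g hg
    rcases h.tLam j g hg with ⟨h1, h2⟩ | ⟨i, hi, h2⟩
    · obtain ⟨i, hi⟩ := hj.1
      refine ⟨i, hi, hS.leL _ _ (hstp (z i) (L i)) ⟨h2 i hi, ?_⟩⟩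
      exact hS.leG _ _ (h.tle i) (hS.lamG _ h1)
    · obtain ⟨k, hk1, hk2⟩ := hj.2 i hi
      refine ⟨k, hk2, hS.leL _ _ (hstp (z k) (L k)) ⟨h2 k hk1.le hk2, ?_⟩⟩
      exact hS.leG _ _ (h.sle i k hk1) (hS.lamG _ (h2 i le_rfl hi))

theorem tow_lam {ι : Type w} [LinearOrder ι] [WellFoundedLT ι] {κ : Cardinal.{w}}
    (hι : Idx ι κ) {S : Sys E} {N : E → Set E}
    {P : Set E} (hS : S.Good N P) {t : S.St} {stp : S.St → Set E → S.St}
    (hstp : ∀ s L, S.le s (stp s L)) {nl : ι → Set S.St → Set E → Set E}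
    {z : ι → S.St} {L : ι → Set E} (h : TowD S t stp nl z L) (b : S.St) (hbt : S.le b t)
    (hLt : Cardinal.mk ↥(S.Lam t \ S.Lam b) < κ)
    (hs : ∀ i, Cardinal.mk ↥(S.Lam (stp (z i) (L i)) \ S.Lam (z i)) < κ) (i : ι) :
    Cardinal.mk ↥(S.Lam (z i) \ S.Lam b) < κ := by
  have hκ : ℵ₀ ≤ κ := hι.unc.le
  induction i using WellFoundedLT.induction with
  | _ j ih =>
    have hsub : S.Lam (z j) \ S.Lam b ⊆ (S.Lam t \ S.Lam b) ∪
        ⋃ i : ↥(Iio j), ((S.Lam (stp (z i) (L i)) \ S.Lam (z i)) ∪ (S.Lam (z i) \ S.Lam b)) := by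
      rintro g ⟨hg, hgb⟩
      rcases h.tLam j g hg with ⟨h1, _⟩ | ⟨i, hi, h2⟩
      · exact Or.inl ⟨h1, hgb⟩
      · refine Or.inr (mem_iUnion.2 ⟨⟨i, hi⟩, ?_⟩)
        by_cases h3 : g ∈ S.Lam (z i)
        · exact Or.inr ⟨h3, hgb⟩
        · exact Or.inl ⟨h2 i le_rfl hi, h3⟩
    refine lt_of_le_of_lt (Cardinal.mk_le_mk_of_subset hsub) ?_
    refine lt_of_le_of_lt (Cardinal.mk_union_le _ _) (Cardinal.add_lt_of_lt hκ hLt ?_)
    rw [Cardinal.card_iUnion_lt_iff_forall_of_isRegular hι.reg (hι.iio j)]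
    rintro ⟨i, hi⟩
    exact lt_of_le_of_lt (Cardinal.mk_union_le _ _)
      (Cardinal.add_lt_of_lt hκ (hs i) (ih i hi))

theorem tow_def {ι : Type w} [LinearOrder ι] [WellFoundedLT ι] {κ : Cardinal.{w}}
    (hι : Idx ι κ) {S : Sys E} {N : E → Set E}
    {P : Set E} (hS : S.Good N P) {t : S.St} {stp : S.St → Set E → S.St}
    (hstp : ∀ s L, S.le s (stp s L)) {nl : ι → Set S.St → Set E → Set E}
    {z : ι → S.St} {L : ι → Set E} (h : TowD S t stp nl z L)
    (hs : ∀ i, DefLt N (S.H (stp (z i) (L i)) \ S.H (z i)) (S.G (stp (z i) (L i)) \ S.G (z i)) κ)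
    (i j : ι) (hij : i ≤ j) : DefLt N (S.H (z j) \ S.H (z i)) (S.G (z j) \ S.G (z i)) κ := by
  let J : Set ι := {l | i ≤ l ∧ l < j}
  have hJ : Cardinal.mk ↥J < κ := by
    refine lt_of_le_of_lt (Cardinal.mk_le_mk_of_subset ?_) (hι.iio j)
    intro l hl
    exact hl.2
  have key := defLt_iUnion (N := N) (J := ↥J) hι.reg hJ
    (fun l => S.H (stp (z l) (L l)) \ S.H (z l)) (fun l => S.G (stp (z l) (L l)) \ S.G (z l))
    (fun l => hs l) ?_
  · refine defLt_mono key ?_ ?_ le_rfl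
    · rintro x ⟨hx, hxi⟩
      have hex : ∃ l, l < j ∧ x ∈ S.H (stp (z l) (L l)) := by
        rw [h.tH j] at hx
        rcases hx with hx | hx
        · exact absurd (hS.leH _ _ (h.tle i) hx) hxi
        · simp only [mem_iUnion, mem_Iio, exists_prop] at hx
          exact hx
      let U : Set ι := {l | l < j ∧ x ∈ S.H (stp (z l) (L l))}
      have hU : U.Nonempty := hex
      let l := WellFounded.min (wellFounded_lt (α := ι)) U hU
      have hl : l < j ∧ x ∈ S.H (stp (z l) (L l)) :=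
        WellFounded.min_mem (wellFounded_lt (α := ι)) U hU
      have hmin : ∀ m, m < l → x ∉ S.H (stp (z m) (L m)) := by
        intro m hm hxm
        have hmU : m ∈ U := ⟨hm.trans hl.1, hxm⟩
        exact WellFounded.not_lt_min (wellFounded_lt (α := ι)) U hmU hm
      have hil : i ≤ l := by
        refine le_of_not_gt fun hli => hxi ?_
        exact hS.leH _ _ (h.sle l i hli) hl.2
      refine mem_iUnion.2 ⟨⟨l, hil, hl.1⟩, hl.2, ?_⟩
      intro hxl
      have hxl' : x ∈ S.H (z l) := hxl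
      rw [h.tH l] at hxl'
      rcases hxl' with hx1 | hx1
      · exact hxi (hS.leH _ _ (h.tle i) hx1)
      · simp only [mem_iUnion, mem_Iio, exists_prop] at hx1
        obtain ⟨m, hm, hx1⟩ := hx1
        exact hmin m hm hx1
    · intro y hy
      rcases mem_iUnion.1 hy with ⟨⟨l, hl1, hl2⟩, hy1, hy2⟩
      refine ⟨hS.leG _ _ (h.sle l j hl2) hy1, fun hyi => hy2 ?_⟩
      exact hS.leG _ _ (tow_le hS hstp h i l hl1) hyi
  · rintro ⟨l, hl1, hl2⟩ ⟨m, hm1, hm2⟩ hne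
    have hne' : l ≠ m := fun h' => hne (Subtype.ext h')
    rw [Set.disjoint_left]
    rintro y ⟨hy1, hy2⟩ ⟨hy3, hy4⟩
    rcases lt_or_gt_of_ne hne' with hlm | hlm
    · exact hy4 (hS.leG _ _ (h.sle l m hlm) hy1)
    · exact hy2 (hS.leG _ _ (h.sle m l hlm) hy3)

end Pool.Agent.FLX
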