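import Pool.Agent.FLX.Defs

namespace Pool.Agent.FLX

open Set Cardinal Pool.Agent.FLM

universe u w

variable {E : Type w}

/-- A tower over `t` with successor operation `stp` and list operation `nl`. -/
structure TowD {ι : Type w} [LinearOrder ι] (S : Sys E) (t : S.St)
    (stp : S.St → Set E → S.St) (nl : ι → Set S.St → Set E → Set E) (z : ι → S.St)
    (L : ι → Set E) : Prop where
  tle : ∀ i, S.le t (z i)
  sle : ∀ i j, i < j → S.le (stp (z i) (L i)) (z j)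
  tG : ∀ j, S.G (z j) = S.G t ∪ ⋃ i ∈ Iio j, S.G (stp (z i) (L i))
  tH : ∀ j, S.H (z j) = S.H t ∪ ⋃ i ∈ Iio j, S.H (stp (z i) (L i))
  tLam : ∀ j, ∀ g ∈ S.Lam (z j),
    (g ∈ S.Lam t ∧ ∀ i, i < j → g ∈ S.Lam (stp (z i) (L i))) ∨
      ∃ i, i < j ∧ ∀ k, i ≤ k → k < j → g ∈ S.Lam (stp (z k) (L k))
  tL : ∀ j, L j = ⋃ i ∈ Iio j, nl i (z '' Iic i) (L i)

end Pool.Agent.FLX
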