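import Pool.Agent.FLX.Defs

/-!
Data with labels over the environment of the digraph.
-/

namespace Pool.Agent.FLX

open Set Cardinal Pool.Agent.FLM

universe u w

variable {V : Type u} {E : Type w}

/-- A state of the construction, with labels. -/
structure XSt (E : Type w) where
  /-- the given set of edges to be exposed -/
  G : Set E
  /-- the counted elements -/
  H : Set E
  /-- the enlarged set -/
  G' : Set E
  /-- the new matched elements -/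
  A : Set E
  /-- their partners -/
  P : E → E
  /-- the labels -/
  l : E → E

/-- The exposed elements of a state. -/
def Ex (e : Env V E) (s : XSt E) : Set E :=
  {y | y ∈ s.G' ∧ ∀ x, x ∈ s.H ∨ x ∈ s.A → e.M x ≠ y}

/-- The neighbourhood of the partner of `y` is contained in the enlarged set. -/
def Qx (e : Env V E) (s : XSt E) (y : E) : Prop := ∃ x ∈ e.X, e.M x = y ∧ e.ND x ⊆ s.G'

/-- Pre-data with labels. -/
structure XPDat (e : Env V E) (s : XSt E) : Prop where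
  sub : s.G ⊆ s.G'
  AX : s.A ⊆ e.X
  inj : InjOn s.P s.A
  img : s.P '' s.A = s.G' \ s.G
  nd : ∀ x ∈ s.A, s.P x ∈ e.ND x
  nb : ∀ x ∈ s.A, x ∈ e.B → s.P x ∈ e.NB x
  iv : ∀ x ∈ s.A, s.P x ∉ e.Iv
  ndA : ∀ x ∈ s.A, e.ND x ⊆ s.G'
  HX : ∀ x ∈ s.H, x ∈ e.X ∧ x ∈ e.B
  HM : ∀ x ∈ s.H, e.M x ∈ s.G'
  HN : ∀ x ∈ s.H, e.NB x \ e.Iv ⊆ s.G
  lab : InjOn s.l (Ex e s)
  labG : ∀ y ∈ Ex e s, s.l y ∈ s.G

/-- Data with labels. -/
structure XDat (e : Env V E) (s : XSt E) : Prop extends XPDat e s where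
  cl : ∀ b, e.ok b → e.Ib b ⊆ s.G → e.Z b ⊆ s.G'

/-- The state `t` extends the state `s`. -/
structure XExt (e : Env V E) (s t : XSt E) : Prop where
  G : s.G ⊆ t.G
  H : s.H ⊆ t.H
  G' : s.G' ⊆ t.G'
  keep : ∀ x ∈ s.A, x ∈ t.A → t.P x = s.P x
  new : ∀ x ∈ t.A, x ∉ s.A → t.P x ∉ s.G'
  old : ∀ x ∈ s.A, x ∉ t.A → s.P x ∈ t.G
  lab1 : ∀ g, g ∈ t.l '' Ex e t → g ∈ s.G → g ∈ s.l '' Ex e s
  lab2 : ∀ y, y ∈ Ex e s → y ∈ Ex e t → (Qx e t y → Qx e s y) → t.l y = s.l y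

end Pool.Agent.FLX
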