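import Pool.Agent.FLX.XDefs

namespace Pool.Agent.FLX

open Set Cardinal Pool.Agent.FLM

universe u w

variable {V : Type u} {E : Type w}

theorem xext_refl (e : Env V E) (s : XSt E) : XExt e s s where
  G := subset_rfl
  H := subset_rfl
  G' := subset_rfl
  keep := fun _ _ _ => rfl
  new := fun _ h h' => absurd h h'
  old := fun _ h h' => absurd h h'
  lab1 := fun _ h _ => h
  lab2 := fun _ _ _ _ => rfl

theorem xext_trans {e : Env V E} (he : e.Good) {s t u : XSt E} (hs : XPDat e s) (ht : XPDat e t)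
    (hu : XPDat e u) (h1 : XExt e s t) (h2 : XExt e t u) : XExt e s u where
  G := h1.G.trans h2.G
  H := h1.H.trans h2.H
  G' := h1.G'.trans h2.G'
  keep := by
    intro x hx hxu
    by_cases ht : x ∈ t.A
    · rw [h2.keep x ht hxu, h1.keep x hx ht]
    · exact absurd (h1.G' (hs.ndA x hx (hu.nd x hxu))) (h2.new x hxu ht)
  new := by
    intro x hxu hx
    by_cases ht : x ∈ t.A
    · rw [h2.keep x ht hxu]
      exact h1.new x ht hx
    · exact fun h => h2.new x hxu ht (h1.G' h)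
  old := by
    intro x hx hxu
    by_cases ht : x ∈ t.A
    · rw [← h1.keep x hx ht]
      exact h2.old x ht hxu
    · exact h2.G (h1.old x hx ht)
  lab1 := fun g hg hgs => h1.lab1 g (h2.lab1 g hg (h1.G hgs)) hgs
  lab2 := by
    intro y hys hyu hQ
    have hyt : y ∈ Ex e t := by
      refine ⟨h1.G' hys.1, ?_⟩
      rintro x (hx | hx) hM
      · exact hyu.2 x (Or.inl (h2.H hx)) hM
      · have hxX : x ∈ e.X := ht.AX hx
        have hQu : Qx e u y := ⟨x, hxX, hM, (ht.ndA x hx).trans h2.G'⟩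
        obtain ⟨x', hx'X, hM', hND⟩ := hQ hQu
        have hxx : x' = x := he.M_inj hx'X hxX (hM'.trans hM.symm)
        rw [hxx] at hND
        have hxs : x ∉ s.A := fun h => hys.2 x (Or.inr h) hM
        exact h1.new x hx hxs (hND (ht.nd x hx))
    have hQtu : Qx e t y → Qx e u y := by
      rintro ⟨x, hxX, hM, hND⟩
      exact ⟨x, hxX, hM, hND.trans h2.G'⟩
    have hQst : Qx e s y → Qx e t y := by
      rintro ⟨x, hxX, hM, hND⟩
      exact ⟨x, hxX, hM, hND.trans h1.G'⟩
    rw [h2.lab2 y hyt hyu (fun h => hQst (hQ h)), h1.lab2 y hys hyt (fun h => hQ (hQtu h))]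

theorem xinit (e : Env V E) : XPDat e ⟨∅, ∅, ∅, ∅, id, id⟩ where
  sub := subset_rfl
  AX := empty_subset _
  inj := injOn_empty _
  img := by simp
  nd := fun _ h => absurd h (notMem_empty _)
  nb := fun _ h => absurd h (notMem_empty _)
  iv := fun _ h => absurd h (notMem_empty _)
  ndA := fun _ h => absurd h (notMem_empty _)
  HX := fun _ h => absurd h (notMem_empty _)
  HM := fun _ h => absurd h (notMem_empty _)
  HN := fun _ h => absurd h (notMem_empty _)
  lab := fun y hy => absurd hy.1 (notMem_empty y)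
  labG := fun y hy => absurd hy.1 (notMem_empty y)

theorem xaddY {e : Env V E} (he : e.Good) {s : XSt E} (hs : XPDat e s) (y : E)
    (hy : y ∉ s.G) :
    ∃ t : XSt E, XPDat e t ∧ t.G = insert y s.G ∧ t.H = s.H ∧ XExt e s t := by
  classical
  have hy0 : ∃ y0 : E, ∀ z, z ∈ insert y s.G' →
      (∀ x, x ∈ s.H ∨ (x ∈ s.A ∧ s.P x ≠ y) → e.M x ≠ z) → z ∉ Ex e s → z = y0 := by
    by_cases hex : ∃ x0 ∈ s.A, s.P x0 = y
    · obtain ⟨x0, hx0, hPx0⟩ := hex
      have hyG' : y ∈ s.G' := by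
        have h1 : s.P x0 ∈ s.G' \ s.G := by
          rw [← hs.img]; exact mem_image_of_mem _ hx0
        rw [← hPx0]; exact h1.1
      refine ⟨e.M x0, ?_⟩
      intro z hz hzM hzs
      have hzG' : z ∈ s.G' := by
        rcases hz with h | h
        · rw [h]; exact hyG'
        · exact h
      by_contra hne
      apply hzs
      refine ⟨hzG', ?_⟩
      rintro x (hx | hx) hM
      · exact hzM x (Or.inl hx) hM
      · by_cases hxy : s.P x = y
        · have : x = x0 := hs.inj hx hx0 (hxy.trans hPx0.symm)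
          rw [this] at hM
          exact hne hM.symm
        · exact hzM x (Or.inr ⟨hx, hxy⟩) hM
    · refine ⟨y, ?_⟩
      intro z hz hzM hzs
      rcases hz with h | h
      · exact h
      · exfalso
        apply hzs
        refine ⟨h, ?_⟩
        rintro x (hx | hx) hM
        · exact hzM x (Or.inl hx) hM
        · exact hzM x (Or.inr ⟨hx, fun h => hex ⟨x, hx, h⟩⟩) hM
  obtain ⟨y0, hy0⟩ := hy0
  have hlpos : ∀ z, z ∈ Ex e s → (if z ∈ Ex e s then s.l z else y) = s.l z := fun z hz => if_pos hz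
  have hlneg : ∀ z, z ∉ Ex e s → (if z ∈ Ex e s then s.l z else y) = y := fun z hz => if_neg hz
  refine ⟨⟨insert y s.G, s.H, insert y s.G', {x | x ∈ s.A ∧ s.P x ≠ y}, s.P,
    fun z => if z ∈ Ex e s then s.l z else y⟩, ?_, rfl, rfl, ?_⟩
  · refine ⟨insert_subset_insert hs.sub, fun x hx => hs.AX hx.1,
      hs.inj.mono fun x hx => hx.1, ?_, fun x hx => hs.nd x hx.1,
      fun x hx => hs.nb x hx.1, fun x hx => hs.iv x hx.1,
      fun x hx => (hs.ndA x hx.1).trans (subset_insert _ _), hs.HX,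
      fun x hx => mem_insert_of_mem _ (hs.HM x hx),
      fun x hx => (hs.HN x hx).trans (subset_insert _ _), ?_, ?_⟩
    · ext z
      constructor
      · rintro ⟨x, ⟨hx, hxy⟩, rfl⟩
        have h1 : s.P x ∈ s.G' \ s.G := by
          rw [← hs.img]; exact mem_image_of_mem _ hx
        refine ⟨mem_insert_of_mem _ h1.1, ?_⟩
        rintro (h | h)
        · exact hxy h
        · exact h1.2 h
      · rintro ⟨h1, h2⟩
        have h3 : z ≠ y := fun h => h2 (h ▸ mem_insert _ _)
        have h4 : z ∈ s.G' := h1.resolve_left h3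
        have h5 : z ∉ s.G := fun h => h2 (mem_insert_of_mem _ h)
        have h6 : z ∈ s.P '' s.A := by rw [hs.img]; exact ⟨h4, h5⟩
        obtain ⟨x, hx, rfl⟩ := h6
        exact ⟨x, ⟨hx, h3⟩, rfl⟩
    · intro z1 hz1 z2 hz2 h12
      have h12' : (if z1 ∈ Ex e s then s.l z1 else y) = (if z2 ∈ Ex e s then s.l z2 else y) := h12
      by_cases h1 : z1 ∈ Ex e s
      · by_cases h2 : z2 ∈ Ex e s
        · rw [hlpos _ h1, hlpos _ h2] at h12'
          exact hs.lab h1 h2 h12'
        · rw [hlpos _ h1, hlneg _ h2] at h12'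
          exact absurd (h12' ▸ hs.labG z1 h1) hy
      · by_cases h2 : z2 ∈ Ex e s
        · rw [hlneg _ h1, hlpos _ h2] at h12'
          exact absurd (h12'.symm ▸ hs.labG z2 h2) hy
        · rw [hy0 z1 hz1.1 hz1.2 h1, hy0 z2 hz2.1 hz2.2 h2]
    · intro z hz
      show (if z ∈ Ex e s then s.l z else y) ∈ insert y s.G
      by_cases h : z ∈ Ex e s
      · rw [hlpos _ h]
        exact mem_insert_of_mem _ (hs.labG z h)
      · rw [hlneg _ h]
        exact mem_insert _ _
  · refine ⟨subset_insert _ _, subset_rfl, subset_insert _ _, fun _ _ _ => rfl,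
      fun x h h' => absurd h.1 h', ?_, ?_, ?_⟩
    · intro x hx hx'
      by_cases h : s.P x = y
      · show s.P x ∈ insert y s.G
        rw [h]; exact mem_insert _ _
      · exact absurd ⟨hx, h⟩ hx'
    · rintro g ⟨z, hz, hzg⟩ hg
      have hzg' : (if z ∈ Ex e s then s.l z else y) = g := hzg
      by_cases h : z ∈ Ex e s
      · rw [hlpos _ h] at hzg'
        exact ⟨z, h, hzg'⟩
      · rw [hlneg _ h] at hzg'
        exact absurd (hzg' ▸ hg) hy
    · intro z hz _ _
      exact hlpos z hz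

theorem xaddX {e : Env V E} (he : e.Good) {s : XSt E} (hs : XDat e s) (x : E) (hx : x ∈ e.X)
    (hB : x ∈ e.B) (hH : x ∉ s.H) (hN : e.NB x \ e.Iv ⊆ s.G) :
    ∃ t : XSt E, XDat e t ∧ t.G = s.G ∧ t.H = insert x s.H ∧ XExt e s t ∧
      ∃ g ∈ s.l '' Ex e s, g ∉ t.l '' Ex e t := by
  have hxA : x ∉ s.A := by
    intro h
    have h1 : s.P x ∈ s.G' \ s.G := by
      rw [← hs.img]; exact mem_image_of_mem _ h
    exact h1.2 (hN ⟨hs.nb x h hB, hs.iv x h⟩)
  have hMx : e.M x ∈ s.G' := by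
    obtain ⟨b, hb, hIb, hND⟩ := he.tail x hx hB
    rcases hND (he.M_nd x hx) with h | h
    · exact hs.sub (hN ⟨h, he.M_iv x hx⟩)
    · exact hs.cl b hb (hIb.trans hN) h
  have hMEx : e.M x ∈ Ex e s := by
    refine ⟨hMx, ?_⟩
    rintro x' (h' | h') hM
    · have : x' = x := he.M_inj (hs.HX x' h').1 hx hM
      exact hH (this ▸ h')
    · have : x' = x := he.M_inj (hs.AX h') hx hM
      exact hxA (this ▸ h')
  have hsubEx : Ex e (⟨s.G, insert x s.H, s.G', s.A, s.P, s.l⟩ : XSt E) ⊆ Ex e s := by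
    rintro z ⟨hz1, hz2⟩
    refine ⟨hz1, ?_⟩
    rintro x' (h' | h')
    · exact hz2 x' (Or.inl (mem_insert_of_mem _ h'))
    · exact hz2 x' (Or.inr h')
  refine ⟨⟨s.G, insert x s.H, s.G', s.A, s.P, s.l⟩, ⟨⟨hs.sub, hs.AX, hs.inj, hs.img,
    hs.nd, hs.nb, hs.iv, hs.ndA, ?_, ?_, ?_, ?_, ?_⟩, hs.cl⟩, rfl, rfl, ?_, ?_⟩
  · rintro z (rfl | hz)
    · exact ⟨hx, hB⟩
    · exact hs.HX z hz
  · rintro z (rfl | hz)
    · exact hMx
    · exact hs.HM z hz
  · rintro z (rfl | hz)
    · exact hN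
    · exact hs.HN z hz
  · exact hs.lab.mono hsubEx
  · intro z hz
    exact hs.labG z (hsubEx hz)
  · refine ⟨subset_rfl, subset_insert _ _, subset_rfl, fun _ _ _ => rfl,
      fun _ h h' => absurd h h', fun _ h h' => absurd h h', ?_, fun _ _ _ _ => rfl⟩
    rintro g ⟨z, hz, hzg⟩ _
    exact ⟨z, hsubEx hz, hzg⟩
  · refine ⟨s.l (e.M x), mem_image_of_mem _ hMEx, ?_⟩
    rintro ⟨z, hz, hzl⟩
    have hzl' : s.l z = s.l (e.M x) := hzl
    have hzM : z = e.M x := hs.lab (hsubEx hz) hMEx hzl'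
    exact hz.2 x (Or.inl (mem_insert _ _)) hzM.symm

end Pool.Agent.FLX
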